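import Pool.Agent.Run7.h526.BW.FamE

/-!
# Perfect powers
-/

set_option autoImplicit false

namespace Run7.h526.BW

open MvPolynomial Finset Pool.Agent.H938R2 Pool.Agent.Y55.Col Pool.Agent.TH176.FB

theorem map_const_replicate {N m : ℕ} : ((univ : Finset (Fin N)).val.map fun _ => m) =
    Multiset.replicate N m := by
  rw [Multiset.map_const', Finset.card_val, Finset.card_univ, Fintype.card_fin]

/-- no hypersurface of degree `j` through the points -/
theorem emp_simple (n t m j : ℕ) (ht : 1 ≤ t) (hm : 1 ≤ m)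
    (hj : (j + n + 1).choose (n + 1) ≤ t ^ (n + 1)) :
    Emp (n + 1) (j + t * (m - 1) + 1) (Multiset.replicate (t ^ (n + 1)) m) := by
  obtain ⟨P, _, hP2⟩ := tmodel n t j (t ^ (n + 1)) ht le_rfl hj
  obtain ⟨p, hp, hp2⟩ := limit t (j + t * (m - 1)) (m - 1) ht P (hP2 (m - 1))
  have h := Fat.general_bot hm (fun i j => (p i j : ℂ)) fun F hF h => Fat.cplx p hp2 F hF h
  have h2 := emp_of_general (fun _ : Fin (t ^ (n + 1)) => m)
    (h.mono fun p hp => by rw [hp, finrank_bot])
  rwa [map_const_replicate] at h2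

/-- clause 2 -/
theorem base2 {n t m V : ℕ} (ht : 1 ≤ t) (hm : 1 ≤ m) {f : ℝ} (hf : 0 ≤ f)
    (hfn : f ^ (n + 1) = (n + 1).factorial)
    (hV : (V : ℝ) ≤ t * (m - 1 + f) - (n + 1)) :
    Emp (n + 1) V (Multiset.replicate (t ^ (n + 1)) m) := by
  rcases V with _ | d
  · exact emp_zero _ _
  obtain ⟨m', rfl⟩ : ∃ m', m = m' + 1 := ⟨m - 1, by omega⟩
  push_cast at hV
  rcases le_or_gt d (t * m') with h | h
  · have h1 := emp_simple n t (m' + 1) 0 ht hm (by
      rw [zero_add, Nat.choose_self]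
      exact Nat.one_le_pow _ _ (by omega))
    refine h1.mono ?_
    rw [Nat.add_sub_cancel]
    omega
  · obtain ⟨j, hj⟩ : ∃ j, d = j + t * m' := ⟨d - t * m', by omega⟩
    have hdR : (d : ℝ) = j + t * m' := by rw [hj]; push_cast; ring
    have h1 := choose_le_pow (j := j) (n := n) (t := t) (Nat.cast_nonneg t) hf hfn (by
      have : (t : ℝ) * (m' + 1 - 1 + f) = t * m' + t * f := by ring
      have hn0 : (0 : ℝ) ≤ n := Nat.cast_nonneg n
      linarith)
    have h2 := emp_simple n t (m' + 1) j ht hm (by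
      rw [add_assoc]
      exact_mod_cast h1)
    rw [Nat.add_sub_cancel] at h2
    rw [hj]
    exact h2

/-- clause 3 -/
theorem base3 {n t m V : ℕ} (hn : 1 ≤ n) (ht : 1 ≤ t) (hm : n * t ^ (n + 1) ≤ m)
    (hV : (V : ℝ) ≤ t * (m + n / 2) - (n + 1)) :
    Emp (n + 1) V (Multiset.replicate (t ^ (n + 1)) m) := by
  rcases V with _ | d
  · exact emp_zero _ _
  push_cast at hV
  have h1 := count_le hn ht hm hV
  have h2 := emp_of_general (fun _ : Fin (t ^ (n + 1)) => m)
    (uniform_zero n t m d ht (Or.inl (by rw [Nat.add_sub_cancel]; exact hm)) h1)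
  rwa [map_const_replicate] at h2

theorem count_ge {d m n t : ℕ} (ht : 1 ≤ t) (hm : 1 ≤ m)
    (h : (t : ℝ) * (m + n / 2) ≤ (d : ℝ) + 1) :
    t ^ (n + 1) * (m + n).choose (n + 1) ≤ (d + (n + 1)).choose (n + 1) := by
  have ht1 : (1 : ℝ) ≤ t := by exact_mod_cast ht
  have h1 : (t : ℝ) ^ (n + 1) * ∏ i ∈ range (n + 1), ((m : ℝ) + i) ≤
      ∏ i ∈ range (n + 1), (((d : ℝ) + 1) + i) := by
    refine le_of_pow_le_pow_left₀ two_ne_zero
      (Finset.prod_nonneg fun i _ => by positivity) ?_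
    rw [mul_pow, prod_sq, prod_sq, ← pow_mul, mul_comm (n + 1) 2, pow_mul]
    calc ((t : ℝ) ^ 2) ^ (n + 1) * ∏ i ∈ range (n + 1), (((m : ℝ) + i) * (m + (n - i)))
        = ∏ i ∈ range (n + 1), ((t : ℝ) ^ 2 * (((m : ℝ) + i) * (m + (n - i)))) := by
          conv_rhs => rw [Finset.prod_mul_distrib, Finset.prod_const, Finset.card_range]
      _ ≤ ∏ i ∈ range (n + 1), (((d : ℝ) + 1 + i) * (d + 1 + (n - i))) := by
          refine Finset.prod_le_prod (fun i hi => ?_) fun i hi => ?_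
          · have h1 : i ≤ n := by have := Finset.mem_range.1 hi; omega
            have h' : (i : ℝ) ≤ n := by exact_mod_cast h1
            have : (0 : ℝ) ≤ n - i := by linarith
            positivity
          · have hY : (0 : ℝ) ≤ (m : ℝ) + n / 2 := by positivity
            have h2 : ((t : ℝ) * (m + n / 2)) ^ 2 ≤ ((d : ℝ) + 1 + n / 2) ^ 2 := by
              refine pow_le_pow_left₀ (by positivity) ?_ 2
              have hn0 : (0 : ℝ) ≤ n := Nat.cast_nonneg n
              linarith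
            have h3 : (1 : ℝ) ≤ (t : ℝ) ^ 2 := one_le_pow₀ ht1
            have h4 := mul_le_mul_of_nonneg_right h3 (sq_nonneg ((i : ℝ) - n / 2))
            nlinarith
  rw [← choose_prod, ← choose_prod' hm] at h1
  have h2 : ((n + 1).factorial : ℝ) * ((t : ℝ) ^ (n + 1) * ((m + n).choose (n + 1) : ℝ)) ≤
      ((n + 1).factorial : ℝ) * ((d + (n + 1)).choose (n + 1) : ℝ) := by
    linarith
  have h4 := le_of_mul_le_mul_left h2 (by exact_mod_cast Nat.factorial_pos _)
  exact_mod_cast h4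

/-- clause 1 -/
theorem base1 {n t m V : ℕ} (ht : 1 ≤ t) (hm : 1 ≤ m) (hV : (t : ℝ) * (m + n / 2) ≤ V) :
    Ind n V (Multiset.replicate (t ^ (n + 1)) m) := by
  have hn0 : (0 : ℝ) ≤ n := Nat.cast_nonneg n
  have ht1 : (1 : ℝ) ≤ t := by exact_mod_cast ht
  have hm1 : (1 : ℝ) ≤ m := by exact_mod_cast hm
  have hmV : m ≤ V := by
    have : (m : ℝ) ≤ V := by nlinarith
    exact_mod_cast this
  obtain ⟨d, rfl⟩ : ∃ d, V = d + 1 := ⟨V - 1, by omega⟩
  push_cast at hV
  have h1 := count_ge ht hm hV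
  have h2 : 2 * t * m + n * t ≤ 2 * (d + 1) := by
    have : (2 : ℝ) * t * m + n * t ≤ 2 * (d + 1) := by linarith
    exact_mod_cast this
  refine ind_powers n t m d ht (Or.inr (Or.inr (Or.inl ?_))) h1
  rw [Nat.add_sub_cancel]
  omega

end Run7.h526.BW
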