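import Pool.Agent.Run7.h526.BW.Join2
import Pool.Agent.TH3.IR.Asm

/-!
# Two groups of points: emptiness
-/

set_option autoImplicit false

namespace Run7.h526.BW

open Finset Pool.Agent.TH3.IR

theorem stFlat : StFlat := fun hμ hν j hj hpos v hv h => EmpS_flat hμ hν j hj hpos v hv h

theorem stNodal : StNodal :=
  fun hμ hν hpos j hj _ h0 h1 h => EmpS_nodal hμ hν hpos j hj h0 h1 h

theorem stTheta : StTheta := fun d j _ h0 h1 h => EmpS_theta d j h0 h1 h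

/-- regions are finite -/
theorem regS_finite {σ : Type} [Fintype σ] {L R : ℝ} {μ ν : σ → ℝ} (hμ : ∀ i, 0 ≤ μ i)
    (hν : ∀ i, 0 ≤ ν i) (hpos : ∀ i, 0 < μ i + ν i) : (RegS L R μ ν).Finite := by
  classical
  have hfin : (Set.Icc ⌈L⌉ ⌊R⌋ ×ˢ Set.pi Set.univ fun i : σ => Set.Icc (0 : ℤ)
      ⌊(R - L) / (μ i + ν i)⌋).Finite :=
    (Set.finite_Icc _ _).prod (Set.Finite.pi fun i => Set.finite_Icc _ _)
  refine hfin.subset ?_
  rintro m ⟨h1, h2, h3⟩
  have h1' : ∀ i, (0 : ℝ) ≤ (m.2 i : ℝ) := fun i => by exact_mod_cast h1 i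
  have h4 : 0 ≤ ∑ i, μ i * (m.2 i : ℝ) := Finset.sum_nonneg fun i _ => mul_nonneg (hμ i) (h1' i)
  have h5 : 0 ≤ ∑ i, ν i * (m.2 i : ℝ) := Finset.sum_nonneg fun i _ => mul_nonneg (hν i) (h1' i)
  refine ⟨⟨?_, ?_⟩, ?_⟩
  · rw [Int.ceil_le]; linarith
  · rw [Int.le_floor]; linarith
  · intro i _
    refine ⟨h1 i, ?_⟩
    rw [Int.le_floor, le_div_iff₀ (hpos i)]
    have h6 : ∑ j, (μ j + ν j) * (m.2 j : ℝ) ≤ R - L := by
      have : ∑ j, (μ j + ν j) * (m.2 j : ℝ) = ∑ j, μ j * (m.2 j : ℝ) + ∑ j, ν j * (m.2 j : ℝ) := by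
        rw [← Finset.sum_add_distrib]
        exact Finset.sum_congr rfl fun j _ => by ring
      rw [this]
      linarith
    have h7 : (μ i + ν i) * (m.2 i : ℝ) ≤ ∑ j, (μ j + ν j) * (m.2 j : ℝ) :=
      Finset.single_le_sum (f := fun j => (μ j + ν j) * (m.2 j : ℝ))
        (fun j _ => mul_nonneg (hpos j).le (h1' j)) (Finset.mem_univ i)
    linarith

/-- nodal steps for the coordinates which are not treated -/
theorem ind {ι σ : Type} [Fintype σ] [DecidableEq σ] {w : ι → ℕ} {W lam s : ℝ}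
    (hlam : 2 ≤ lam) (hs : 0 < s) (k₀ : ℕ) (hk₀ : 5 / 2 ≤ lam ^ k₀ * s)
    (H : Asm.Good w (lam ^ Fintype.card σ * W) (fun _ : σ => lam ^ (Fintype.card σ + 1) * s))
    (c : ℕ) : ∀ T : Finset σ, k₀ ≤ T.card → T.card + c = Fintype.card σ →
      Asm.Good w (lam ^ T.card * W)
        (fun i => if i ∈ T then lam ^ (T.card + 1) * s else lam ^ T.card * s) := by
  have hlam0 : 0 < lam := by linarith
  induction c with
  | zero =>
    intro T _ hT
    have hTu : T = univ := (Finset.card_eq_iff_eq_univ T).1 (by omega)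
    have hc : T.card = Fintype.card σ := by omega
    intro L R μ ν hμ hν hW hsum
    apply H L R μ ν hμ hν
    · rw [hW, hc]
    · intro i
      rw [hsum]
      simp only [hTu, mem_univ, if_true, Finset.card_univ]
  | succ c ih =>
    intro T hTk hT
    obtain ⟨j, hj⟩ : ∃ j, j ∉ T := by
      by_contra hcon
      push Not at hcon
      have : T = univ := Finset.eq_univ_iff_forall.2 hcon
      rw [this, Finset.card_univ] at hT
      omega
    have hc : (insert j T).card = T.card + 1 := Finset.card_insert_of_notMem hj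
    have ih' := ih (insert j T) (by omega) (by omega)
    apply Asm.nodal stFlat stNodal (ρ := lam) _ j _ hlam
    · intro L R μ ν hμ hν hW hsum
      apply ih' L R μ ν hμ hν
      · rw [hW, hc]
        ring
      · intro i
        rw [hsum, hc]
        by_cases hi : i = j
        · subst hi
          simp only [Function.update_self, if_neg hj, if_pos (Finset.mem_insert_self i T)]
          ring
        · simp only [Function.update_of_ne hi]
          by_cases hiT : i ∈ T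
          · simp only [if_pos hiT, if_pos (Finset.mem_insert_of_mem hiT)]
            ring
          · have hiT' : i ∉ insert j T := by rw [Finset.mem_insert]; tauto
            simp only [if_neg hiT, if_neg hiT']
            ring
    · intro i
      split_ifs <;> positivity
    · rw [if_neg hj]
      refine hk₀.trans ?_
      exact mul_le_mul_of_nonneg_right (pow_le_pow_right₀ (by linarith) hTk) hs.le

/-- scaling by `lam ≥ 2` -/
theorem scale {ι σ : Type} [Fintype σ] {w : ι → ℕ} {W lam s : ℝ}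
    (hlam : 2 ≤ lam) (hs : 5 / 2 ≤ s)
    (H : Asm.Good w (lam ^ Fintype.card σ * W) (fun _ : σ => lam ^ (Fintype.card σ + 1) * s)) :
    Asm.Good w W (fun _ : σ => s) := by
  classical
  have h := ind (σ := σ) hlam (by linarith) 0 (by simpa using hs) H (Fintype.card σ) ∅ (by simp)
    (by simp)
  intro L R μ ν hμ hν hW hsum
  apply h L R μ ν hμ hν
  · rw [hW]; simp
  · intro i
    rw [hsum]
    simp

/-- the simplex -/
theorem top {ι σ : Type} [Fintype σ] [Nonempty σ] {w : ι → ℕ} (d : ℕ) {ρ : ℝ} (hρ : 3 ≤ ρ)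
    (H : Asm.Good w (ρ ^ Fintype.card σ * d) (fun _ : σ => ρ ^ (Fintype.card σ + 1))) :
    EmpS w (RegS (0 : ℝ) d (fun _ : σ => 0) (fun _ => 1)) := by
  classical
  obtain ⟨j⟩ := (inferInstance : Nonempty σ)
  have hcard : 1 ≤ Fintype.card σ := Fintype.card_pos
  have h := ind (σ := σ) (w := w) (W := d) (lam := ρ) (s := 1) (by linarith) one_pos 1
    (by linarith [pow_one ρ]) (by simpa using H) (Fintype.card σ - 1) {j} (by simp) (by
      rw [Finset.card_singleton]; omega)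
  apply Asm.theta stFlat stTheta d j hρ
  intro L R μ ν hμ hν hW hs
  apply h L R μ ν hμ hν
  · rw [hW, Finset.card_singleton, pow_one]
  · intro i
    rw [hs, Finset.card_singleton]
    by_cases hi : i = j
    · subst hi
      simp only [Function.update_self, if_pos (Finset.mem_singleton_self i)]
      ring
    · have hi' : i ∉ ({j} : Finset σ) := by rw [Finset.mem_singleton]; exact hi
      simp only [Function.update_of_ne hi, if_neg hi', pow_one, mul_one]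

/-- shear -/
theorem sum_sub_int {σ : Type} [Fintype σ] (μ : σ → ℝ) (z h : σ → ℤ) :
    ∑ i, (μ i - (z i : ℝ)) * (h i : ℝ) = ∑ i, μ i * (h i : ℝ) - ((∑ i, z i * h i : ℤ) : ℝ) := by
  push_cast
  rw [← Finset.sum_sub_distrib]
  exact Finset.sum_congr rfl fun i _ => by ring

theorem sum_add_int {σ : Type} [Fintype σ] (ν : σ → ℝ) (z h : σ → ℤ) :
    ∑ i, (ν i + (z i : ℝ)) * (h i : ℝ) = ∑ i, ν i * (h i : ℝ) + ((∑ i, z i * h i : ℤ) : ℝ) := by
  push_cast
  rw [← Finset.sum_add_distrib]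
  exact Finset.sum_congr rfl fun i _ => by ring

/-- regions whose slopes can have any sign -/
theorem good_sheared {ι σ : Type} [Fintype σ] {w : ι → ℕ} {W s : ℝ} (hs : 1 ≤ s)
    (H : Asm.Good w W (fun _ : σ => s)) {L R : ℝ} {μ ν : σ → ℝ} (hW : R - L = W)
    (hsum : ∀ i, μ i + ν i = s) : EmpS w (RegS L R μ ν) := by
  obtain ⟨z, hz⟩ : ∃ z : σ → ℤ, z = fun i => ⌊μ i⌋ := ⟨_, rfl⟩
  have h1 : ∀ i, (z i : ℝ) ≤ μ i := fun i => by rw [hz]; exact Int.floor_le _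
  have h2 : ∀ i, μ i < z i + 1 := fun i => by rw [hz]; exact Int.lt_floor_add_one _
  have h3 := H L R (fun i => μ i - z i) (fun i => ν i + z i) (fun i => by linarith [h1 i])
    (fun i => by linarith [h2 i, hsum i]) hW (fun i => by rw [← hsum i]; ring)
  refine h3.comap 1 (Or.inl rfl) (fun i => - z i) 0 ?_
  rintro m ⟨k1, k2, k3⟩
  have e : ((1 * m.1 + ∑ i, - z i * m.2 i + 0 : ℤ) : ℝ) =
      (m.1 : ℝ) - ((∑ i, z i * m.2 i : ℤ) : ℝ) := by
    have : ∑ i, - z i * m.2 i = - ∑ i, z i * m.2 i := by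
      rw [← Finset.sum_neg_distrib]
      exact Finset.sum_congr rfl fun i _ => by ring
    rw [this]
    push_cast
    ring
  refine ⟨k1, ?_, ?_⟩
  · simp only
    rw [e, sum_sub_int]
    linarith
  · simp only
    rw [e, sum_add_int]
    linarith

/-- join of two regions of the same height `h` -/
theorem join {ι₁ ι₂ σ : Type} [Fintype ι₁] [Fintype ι₂] [Fintype σ] {w₁ : ι₁ → ℕ} {w₂ : ι₂ → ℕ}
    {h s₁ s₂ : ℝ} (hs₁ : 1 ≤ s₁) (hs₂ : 1 ≤ s₂)
    (H₁ : Asm.Good w₁ (h * s₁) (fun _ : σ => s₁)) (H₂ : Asm.Good w₂ (h * s₂) (fun _ : σ => s₂)) :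
    Asm.Good (Sum.elim w₁ w₂) (h * (s₁ + s₂)) (fun _ : σ => s₁ + s₂) := by
  intro L R μ ν hμ hν hW hsum
  refine EmpS_join (regS_finite hμ hν fun i => by rw [hsum]; linarith) (fun m hm => hm.1)
    (L + h * s₁) (fun i => μ i - s₁) ?_ ?_
  · refine (good_sheared hs₁ H₁ (L := L) (R := L + h * s₁) (μ := μ) (ν := fun i => s₁ - μ i)
      (by ring) (fun i => by ring)).mono ?_
    rintro m ⟨⟨k1, k2, k3⟩, k4⟩
    refine ⟨k1, k2, ?_⟩
    have e : ∑ i, (s₁ - μ i) * (m.2 i : ℝ) = - ∑ i, (μ i - s₁) * (m.2 i : ℝ) := by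
      rw [← Finset.sum_neg_distrib]
      exact Finset.sum_congr rfl fun i _ => by ring
    rw [e]
    linarith
  · refine (good_sheared hs₂ H₂ (L := L + h * s₁) (R := R) (μ := fun i => μ i - s₁) (ν := ν)
      (by linarith) (fun i => by linarith [hsum i])).mono ?_
    rintro m ⟨⟨k1, k2, k3⟩, k4⟩
    exact ⟨k1, k4, k3⟩

theorem good_final {ι σ : Type} [Fintype ι] [Fintype σ] {w : ℕ} {W s : ℝ}
    (hs : (Fintype.card ι : ℝ) ≤ s) (hW : W < Fintype.card ι * w) :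
    Asm.Good (fun _ : ι => w) W (fun _ : σ => s) := by
  intro L R μ ν hμ hν hWW hsum
  refine EmpS_final hμ hν (fun i => by rw [hsum]; exact hs) ?_
  rw [hWW, Finset.sum_const, Finset.card_univ, nsmul_eq_mul]
  exact hW

/-- **Two groups of points**: emptiness. -/
theorem EmpS_two {ι₁ ι₂ σ : Type} [Fintype ι₁] [Fintype ι₂] [Fintype σ] [Nonempty σ]
    {w₁ w₂ d : ℕ} (hw₁ : 1 ≤ w₁) (hw : 2 * w₁ ≤ w₂) (hk₂ : 1 ≤ Fintype.card ι₂)
    (h5 : 5 * w₂ ^ (Fintype.card σ + 1) ≤ 2 * (Fintype.card ι₁ * w₁ ^ (Fintype.card σ + 1)))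
    (h3 : 3 ^ (Fintype.card σ + 1) * w₂ ^ (Fintype.card σ + 1) ≤
      Fintype.card ι₁ * w₁ ^ (Fintype.card σ + 1) + Fintype.card ι₂ * w₂ ^ (Fintype.card σ + 1))
    (hd : d ^ (Fintype.card σ + 1) <
      Fintype.card ι₁ * w₁ ^ (Fintype.card σ + 1) + Fintype.card ι₂ * w₂ ^ (Fintype.card σ + 1)) :
    EmpS (Sum.elim (fun _ : ι₁ => w₁) (fun _ : ι₂ => w₂))
      (RegS (0 : ℝ) d (fun _ : σ => 0) (fun _ => 1)) := by
  obtain ⟨n, hn⟩ : ∃ n, n = Fintype.card σ := ⟨_, rfl⟩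
  obtain ⟨k₁, hk₁⟩ : ∃ k : ℕ, k = Fintype.card ι₁ := ⟨_, rfl⟩
  obtain ⟨k₂, hk₂'⟩ : ∃ k : ℕ, k = Fintype.card ι₂ := ⟨_, rfl⟩
  rw [← hn, ← hk₁] at h5
  rw [← hn, ← hk₁, ← hk₂'] at h3 hd
  rw [← hk₂'] at hk₂
  have a1 : (0 : ℝ) < w₁ := by exact_mod_cast hw₁
  have a2 : (0 : ℝ) < w₂ := by
    have : 0 < w₂ := by omega
    exact_mod_cast this
  have a3 : (2 : ℝ) * w₁ ≤ w₂ := by exact_mod_cast hw
  have r5 : (5 : ℝ) * (w₂ : ℝ) ^ (n + 1) ≤ 2 * (k₁ * (w₁ : ℝ) ^ (n + 1)) := by exact_mod_cast h5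
  have r3 : (3 : ℝ) ^ (n + 1) * (w₂ : ℝ) ^ (n + 1) ≤
      k₁ * (w₁ : ℝ) ^ (n + 1) + k₂ * (w₂ : ℝ) ^ (n + 1) := by exact_mod_cast h3
  have rd : (d : ℝ) ^ (n + 1) < k₁ * (w₁ : ℝ) ^ (n + 1) + k₂ * (w₂ : ℝ) ^ (n + 1) := by
    exact_mod_cast hd
  have rk₂ : (1 : ℝ) ≤ k₂ := by exact_mod_cast hk₂
  have p2 : (0 : ℝ) < (w₂ : ℝ) ^ (n + 1) := by positivity
  -- the parameters
  obtain ⟨lam, hlam⟩ : ∃ lam : ℝ, lam = w₂ / w₁ := ⟨_, rfl⟩
  have hlam2 : 2 ≤ lam := by rw [hlam, le_div_iff₀ a1]; exact a3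
  have hlam0 : 0 < lam := by linarith
  have hlw : lam * w₁ = w₂ := by rw [hlam]; field_simp
  obtain ⟨s₁, hs₁⟩ : ∃ s₁ : ℝ, s₁ = k₁ * (w₁ : ℝ) ^ (n + 1) / (w₂ : ℝ) ^ (n + 1) := ⟨_, rfl⟩
  have hs₁w : s₁ * (w₂ : ℝ) ^ (n + 1) = k₁ * (w₁ : ℝ) ^ (n + 1) := by rw [hs₁]; field_simp
  have hs5 : 5 / 2 ≤ s₁ := by
    rw [hs₁, le_div_iff₀ p2]
    linarith
  have hlam1 : lam ^ (n + 1) * s₁ = k₁ := by
    rw [hlam, hs₁, div_pow]
    field_simp
  obtain ⟨ρ, hρ0, hρ⟩ : ∃ ρ : ℝ, 0 ≤ ρ ∧ ρ ^ (n + 1) = s₁ + k₂ := by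
    refine ⟨(s₁ + k₂) ^ ((1 : ℝ) / ((n + 1 : ℕ) : ℝ)), by positivity, ?_⟩
    rw [← Real.rpow_natCast, ← Real.rpow_mul (by positivity), one_div_mul_cancel (by positivity),
      Real.rpow_one]
  have hρ3 : 3 ≤ ρ := by
    refine le_of_pow_le_pow_left₀ (Nat.succ_ne_zero n) hρ0 ?_
    rw [hρ]
    refine le_of_mul_le_mul_right ?_ p2
    rw [add_mul, hs₁w]
    exact r3
  have hρpos : 0 < ρ := by linarith
  obtain ⟨h, hh⟩ : ∃ h : ℝ, h = d / ρ := ⟨_, rfl⟩
  have hhρ : h * ρ = d := by rw [hh]; field_simp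
  have hh0 : 0 ≤ h := by rw [hh]; positivity
  have hhw : h < w₂ := by
    rw [hh, div_lt_iff₀ hρpos]
    refine lt_of_pow_lt_pow_left₀ (n + 1) (by positivity) ?_
    rw [mul_pow, hρ]
    calc (d : ℝ) ^ (n + 1) < k₁ * (w₁ : ℝ) ^ (n + 1) + k₂ * (w₂ : ℝ) ^ (n + 1) := rd
      _ = (w₂ : ℝ) ^ (n + 1) * (s₁ + k₂) := by rw [← hs₁w]; ring
  refine top d hρ3 ?_
  have e1 : ρ ^ Fintype.card σ * d = h * (s₁ + k₂) := by
    rw [← hn, ← hρ, ← hhρ]
    ring
  have e2 : (fun _ : σ => ρ ^ (Fintype.card σ + 1)) = fun _ => s₁ + k₂ := by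
    rw [← hn, hρ]
  rw [e1, e2]
  refine join (by linarith) rk₂ ?_ ?_
  · refine scale hlam2 hs5 ?_
    rw [← hn]
    refine good_final ?_ ?_
    · rw [hlam1, hk₁]
    · rw [← hk₁]
      have : lam * (lam ^ n * (h * s₁)) = lam * (k₁ * h / lam) := by
        rw [← hlam1]
        field_simp
        ring
      have e3 : lam ^ n * (h * s₁) = k₁ * h / lam := mul_left_cancel₀ hlam0.ne' this
      rw [e3, div_lt_iff₀ hlam0]
      have hk₁pos : (0 : ℝ) < k₁ := by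
        rw [← hlam1]; positivity
      have : (k₁ : ℝ) * w₁ * lam = k₁ * w₂ := by rw [← hlw]; ring
      rw [this]
      exact mul_lt_mul_of_pos_left hhw hk₁pos
  · refine good_final ?_ ?_
    · rw [hk₂']
    · rw [← hk₂', mul_comm]
      exact mul_lt_mul_of_pos_left hhw (by linarith)

end Run7.h526.BW
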