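import Pool.Agent.Run7.h526.BW.Chain
import Pool.Agent.TH3.IR.SAsm

/-!
# Two groups of points: independence
-/

set_option autoImplicit false

namespace Run7.h526.BW

open Finset Pool.Agent.TH3.IR

theorem goodS_mono {ι σ : Type} [Fintype ι] [Fintype σ] {w : ι → ℕ} {W W' : ℝ} {s : σ → ℝ}
    (h : SAsm.Good w W s) (hW : W ≤ W') : SAsm.Good w W' s :=
  fun L R μ ν a b c d => h L R μ ν a b (hW.trans c) d

/-- nodal steps for the coordinates which are not treated -/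
theorem indS {ι σ : Type} [Fintype ι] [Fintype σ] [DecidableEq σ] {w : ι → ℕ} {W lam s : ℝ}
    (hlam : 2 ≤ lam) (hs : 0 < s) (k₀ : ℕ) (hk₀ : 5 / 2 ≤ lam ^ k₀ * s)
    (H : SAsm.Good w W (fun _ : σ => lam ^ (Fintype.card σ + 1) * s)) (c : ℕ) :
    ∀ T : Finset σ, k₀ ≤ T.card → T.card + c = Fintype.card σ →
      SAsm.Good w (W / lam ^ c + c * (lam ^ T.card * s * (1 + lam)) + 1)
        (fun i => if i ∈ T then lam ^ (T.card + 1) * s else lam ^ T.card * s) := by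
  have hlam0 : 0 < lam := by linarith
  induction c with
  | zero =>
    intro T _ hT
    have hTu : T = univ := (Finset.card_eq_iff_eq_univ T).1 (by omega)
    have hc : T.card = Fintype.card σ := by omega
    intro L R μ ν hμ hν hW hsum
    apply H L R μ ν hμ hν
    · simp only [pow_zero, div_one, Nat.cast_zero, zero_mul, add_zero] at hW
      linarith
    · intro i
      rw [hsum]
      simp only [hTu, mem_univ, if_true, Finset.card_univ]
  | succ c ih =>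
    intro T hTk hT
    obtain ⟨j, hj⟩ : ∃ j, j ∉ T := by
      by_contra hcon
      push Not at hcon
      have : T = univ := Finset.eq_univ_iff_forall.2 hcon
      rw [this, Finset.card_univ] at hT
      omega
    have hc : (insert j T).card = T.card + 1 := Finset.card_insert_of_notMem hj
    have ih' := ih (insert j T) (by omega) (by omega)
    apply SAsm.nodal (ρ := lam) _ j _ hlam
    · intro L R μ ν hμ hν hW hsum
      apply ih' L R μ ν hμ hν
      · refine le_trans ?_ hW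
        rw [if_neg hj, hc]
        have e : lam * (W / lam ^ (c + 1)) = W / lam ^ c := by
          rw [pow_succ]
          field_simp
        have e2 : lam * (W / lam ^ (c + 1) + ((c + 1 : ℕ) : ℝ) * (lam ^ T.card * s * (1 + lam)) + 1) -
            lam * (lam ^ T.card * s) - lam / 2 - lam ^ 2 * (lam ^ T.card * s) =
            lam * (W / lam ^ (c + 1)) + c * (lam ^ (T.card + 1) * s * (1 + lam)) + lam / 2 := by
          push_cast
          ring
        rw [e2, e]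
        linarith
      · intro i
        rw [hsum, hc]
        by_cases hi : i = j
        · subst hi
          simp only [Function.update_self, if_neg hj, if_pos (Finset.mem_insert_self i T)]
          ring
        · simp only [Function.update_of_ne hi]
          by_cases hiT : i ∈ T
          · simp only [if_pos hiT, if_pos (Finset.mem_insert_of_mem hiT)]
            ring
          · have hiT' : i ∉ insert j T := by rw [Finset.mem_insert]; tauto
            simp only [if_neg hiT, if_neg hiT']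
            ring
    · intro i
      split_ifs <;> positivity
    · rw [if_neg hj]
      refine hk₀.trans ?_
      exact mul_le_mul_of_nonneg_right (pow_le_pow_right₀ (by linarith) hTk) hs.le

/-- scaling by `lam ≥ 2` -/
theorem scaleS {ι σ : Type} [Fintype ι] [Fintype σ] {w : ι → ℕ} {W lam s : ℝ}
    (hlam : 2 ≤ lam) (hs : 5 / 2 ≤ s)
    (H : SAsm.Good w W (fun _ : σ => lam ^ (Fintype.card σ + 1) * s)) :
    SAsm.Good w (W / lam ^ Fintype.card σ + Fintype.card σ * (s * (1 + lam)) + 1)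
      (fun _ : σ => s) := by
  classical
  have h := indS (σ := σ) hlam (by linarith) 0 (by simpa using hs) H (Fintype.card σ) ∅ (by simp)
    (by simp)
  intro L R μ ν hμ hν hW hsum
  apply h L R μ ν hμ hν
  · simpa using hW
  · intro i
    rw [hsum]
    simp

/-- the simplex -/
theorem topS {ι σ : Type} [Fintype ι] [Fintype σ] [Nonempty σ] {w : ι → ℕ} (d : ℕ) {W ρ : ℝ}
    (hρ : 3 ≤ ρ) (H : SAsm.Good w W (fun _ : σ => ρ ^ (Fintype.card σ + 1)))
    (hd : W / ρ ^ Fintype.card σ + Fintype.card σ * (ρ + 1) ≤ d) :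
    SurS w (RegS (0 : ℝ) d (fun _ : σ => 0) (fun _ => 1)) := by
  classical
  obtain ⟨j⟩ := (inferInstance : Nonempty σ)
  obtain ⟨c, hcard⟩ : ∃ c, Fintype.card σ = c + 1 :=
    ⟨Fintype.card σ - 1, by have : 1 ≤ Fintype.card σ := Fintype.card_pos; omega⟩
  have h := indS (σ := σ) (w := w) (W := W) (lam := ρ) (s := 1) (by linarith) one_pos 1
    (by linarith [pow_one ρ]) (by simpa using H) c {j} (by simp) (by
      rw [Finset.card_singleton]; omega)
  apply SAsm.cubic d j hρ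
  intro L R μ ν hμ hν hW hs
  apply h L R μ ν hμ hν
  · refine le_trans ?_ hW
    rw [Finset.card_singleton]
    rw [hcard] at hd
    push_cast at hd
    have h3 := mul_le_mul_of_nonneg_left hd (show (0 : ℝ) ≤ ρ by linarith)
    have e : ρ * (W / ρ ^ (c + 1)) = W / ρ ^ c := by
      rw [pow_succ]
      field_simp
    have e2 : ρ * (W / ρ ^ (c + 1) + (c + 1) * (ρ + 1)) =
        ρ * (W / ρ ^ (c + 1)) + c * (ρ ^ 1 * 1 * (1 + ρ)) + ρ * (ρ + 1) := by ring
    rw [e2, e] at h3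
    nlinarith
  · intro i
    rw [hs, Finset.card_singleton]
    by_cases hi : i = j
    · subst hi
      simp only [Function.update_self, if_pos (Finset.mem_singleton_self i)]
      ring
    · have hi' : i ∉ ({j} : Finset σ) := by rw [Finset.mem_singleton]; exact hi
      simp only [Function.update_of_ne hi, if_neg hi', pow_one, mul_one]

/-- regions whose slopes can have any sign -/
theorem good_shearedS {ι σ : Type} [Fintype ι] [Fintype σ] {w : ι → ℕ} {W s : ℝ} (hs : 1 ≤ s)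
    (H : SAsm.Good w W (fun _ : σ => s)) {L R : ℝ} {μ ν : σ → ℝ} (hW : W ≤ R - L)
    (hsum : ∀ i, μ i + ν i = s) : SurS w (RegS L R μ ν) := by
  obtain ⟨z, hz⟩ : ∃ z : σ → ℤ, z = fun i => ⌊μ i⌋ := ⟨_, rfl⟩
  have h1 : ∀ i, (z i : ℝ) ≤ μ i := fun i => by rw [hz]; exact Int.floor_le _
  have h2 : ∀ i, μ i < z i + 1 := fun i => by rw [hz]; exact Int.lt_floor_add_one _
  have h3 := H L R (fun i => μ i - z i) (fun i => ν i + z i) (fun i => by linarith [h1 i])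
    (fun i => by linarith [h2 i, hsum i]) hW (fun i => by rw [← hsum i]; ring)
  refine h3.comap 1 (Or.inl rfl) (fun i => - z i) 0 ?_
  rintro m ⟨k1, k2, k3⟩
  have e : ((1 * (m.1 - ∑ i, - z i * m.2 i - 0) : ℤ) : ℝ) =
      (m.1 : ℝ) + ((∑ i, z i * m.2 i : ℤ) : ℝ) := by
    have : ∑ i, - z i * m.2 i = - ∑ i, z i * m.2 i := by
      rw [← Finset.sum_neg_distrib]
      exact Finset.sum_congr rfl fun i _ => by ring
    rw [this]
    push_cast
    ring
  rw [sum_sub_int] at k2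
  rw [sum_add_int] at k3
  refine ⟨k1, ?_, ?_⟩
  · simp only
    rw [e]
    linarith
  · simp only
    rw [e]
    linarith

/-- join of two regions of the same height `h` -/
theorem joinS {ι₁ ι₂ σ : Type} [Fintype ι₁] [Fintype ι₂] [Fintype σ] {w₁ : ι₁ → ℕ} {w₂ : ι₂ → ℕ}
    {h s₁ s₂ : ℝ} (hs₁ : 1 ≤ s₁) (hs₂ : 1 ≤ s₂)
    (H₁ : SAsm.Good w₁ (h * s₁) (fun _ : σ => s₁)) (H₂ : SAsm.Good w₂ (h * s₂) (fun _ : σ => s₂)) :
    SAsm.Good (Sum.elim w₁ w₂) (h * (s₁ + s₂) + 1) (fun _ : σ => s₁ + s₂) := by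
  intro L R μ ν hμ hν hW hsum
  obtain ⟨κ, hκ⟩ : ∃ κ : ℝ, κ = L + h * s₁ := ⟨_, rfl⟩
  have e1 : ∀ m : ℤ × (σ → ℤ), ∑ i, (s₁ - μ i) * (m.2 i : ℝ) =
      s₁ * ∑ i, (m.2 i : ℝ) - ∑ i, μ i * (m.2 i : ℝ) := fun m => by
    rw [Finset.mul_sum, ← Finset.sum_sub_distrib]
    exact Finset.sum_congr rfl fun i _ => by ring
  have e2 : ∀ m : ℤ × (σ → ℤ), ∑ i, (μ i - s₁) * (m.2 i : ℝ) =
      ∑ i, μ i * (m.2 i : ℝ) - s₁ * ∑ i, (m.2 i : ℝ) := fun m => by
    rw [Finset.mul_sum, ← Finset.sum_sub_distrib]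
    exact Finset.sum_congr rfl fun i _ => by ring
  have e3 : ∀ m : ℤ × (σ → ℤ), ∑ i, ν i * (m.2 i : ℝ) =
      (s₁ + s₂) * ∑ i, (m.2 i : ℝ) - ∑ i, μ i * (m.2 i : ℝ) := fun m => by
    rw [Finset.mul_sum, ← Finset.sum_sub_distrib]
    refine Finset.sum_congr rfl fun i _ => ?_
    have := hsum i
    linear_combination (m.2 i : ℝ) * this
  refine SurS_join (S₁ := RegS L κ μ (fun i => s₁ - μ i))
    (S₂ := RegS (κ + 1) (κ + 1 + h * s₂) (fun i => μ i - s₁) ν) (fun m hm => hm.1)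
    (fun m hm => hm.1) ?_ ?_ κ (fun i => μ i - s₁) ?_ ?_ ?_ ?_
  · rintro m ⟨k1, k2, k3⟩
    rw [e1] at k3
    refine ⟨k1, k2, ?_⟩
    rw [e3]
    have h1 : s₁ * ∑ i, (m.2 i : ℝ) ≤ h * s₁ := by linarith
    have h2 : ∑ i, (m.2 i : ℝ) ≤ h := by
      refine le_of_mul_le_mul_left ?_ (show 0 < s₁ by linarith)
      rw [mul_comm s₁ h]
      exact h1
    have h3 : s₂ * ∑ i, (m.2 i : ℝ) ≤ s₂ * h := mul_le_mul_of_nonneg_left h2 (by linarith)
    nlinarith
  · rintro m ⟨k1, k2, k3⟩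
    rw [e2] at k2
    rw [e3] at k3
    refine ⟨k1, ?_, ?_⟩
    · have h1 : s₂ * ∑ i, (m.2 i : ℝ) ≤ h * s₂ := by linarith
      have h2 : ∑ i, (m.2 i : ℝ) ≤ h := by
        refine le_of_mul_le_mul_left ?_ (show 0 < s₂ by linarith)
        rw [mul_comm s₂ h]
        exact h1
      have h3 : s₁ * ∑ i, (m.2 i : ℝ) ≤ s₁ * h := mul_le_mul_of_nonneg_left h2 (by linarith)
      nlinarith
    · rw [e3]
      nlinarith
  · rintro m ⟨k1, k2, k3⟩
    rw [e1] at k3
    rw [e2]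
    linarith
  · rintro m ⟨k1, k2, k3⟩
    linarith
  · exact good_shearedS hs₁ H₁ (by linarith) (fun i => by ring)
  · exact good_shearedS hs₂ H₂ (by linarith) (fun i => by linarith [hsum i])

theorem good_finalS {ι σ : Type} [Fintype ι] [Fintype σ] {w : ℕ} {W s : ℝ}
    (hs : s ≤ (Fintype.card ι : ℝ)) (hW : (Fintype.card ι : ℝ) * w ≤ W) :
    SAsm.Good (fun _ : ι => w) W (fun _ : σ => s) := by
  intro L R μ ν hμ hν hWW hsum
  exact SurS_final hμ hν (fun i => by rw [hsum]; exact hs) (hW.trans hWW)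

/-- **Two groups of points**: independence. -/
theorem SurS_two {ι₁ ι₂ σ : Type} [Fintype ι₁] [Fintype ι₂] [Fintype σ] [Nonempty σ]
    {w₁ B e : ℕ} (hB : 2 * (w₁ + Fintype.card σ) ≤ B) (hk₂ : 1 ≤ Fintype.card ι₂)
    (h5 : 5 * B ^ (Fintype.card σ + 1) ≤
      2 * (Fintype.card ι₁ * (w₁ + Fintype.card σ) ^ (Fintype.card σ + 1)))
    (h3 : 3 ^ (Fintype.card σ + 1) * B ^ (Fintype.card σ + 1) ≤
      Fintype.card ι₁ * (w₁ + Fintype.card σ) ^ (Fintype.card σ + 1) +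
        Fintype.card ι₂ * B ^ (Fintype.card σ + 1))
    (hd : (B + (2 * Fintype.card σ + 1)) ^ (Fintype.card σ + 1) *
      (Fintype.card ι₁ * (w₁ + Fintype.card σ) ^ (Fintype.card σ + 1) +
        Fintype.card ι₂ * B ^ (Fintype.card σ + 1)) ≤
      e ^ (Fintype.card σ + 1) * B ^ (Fintype.card σ + 1)) :
    SurS (Sum.elim (fun _ : ι₁ => w₁) (fun _ : ι₂ => B + (Fintype.card σ + 1)))
      (RegS (0 : ℝ) ((e + (Fintype.card σ + 1) : ℕ) : ℝ) (fun _ : σ => 0) (fun _ => 1)) := by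
  have hσ : 1 ≤ Fintype.card σ := Fintype.card_pos
  obtain ⟨n, hn⟩ : ∃ n, n = Fintype.card σ := ⟨_, rfl⟩
  obtain ⟨k₁, hk₁⟩ : ∃ k : ℕ, k = Fintype.card ι₁ := ⟨_, rfl⟩
  obtain ⟨k₂, hk₂'⟩ : ∃ k : ℕ, k = Fintype.card ι₂ := ⟨_, rfl⟩
  obtain ⟨A, hA⟩ : ∃ A : ℕ, A = w₁ + n := ⟨_, rfl⟩
  rw [← hn] at hσ hB ⊢
  rw [← hn, ← hk₁, ← hA] at h5
  rw [← hn, ← hk₁, ← hk₂', ← hA] at h3 hd
  rw [← hk₂'] at hk₂
  rw [← hA] at hB
  have hA1 : 1 ≤ A := by omega
  have a1 : (0 : ℝ) < A := by exact_mod_cast hA1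
  have a2 : (0 : ℝ) < B := by
    have : 0 < B := by omega
    exact_mod_cast this
  have a3 : (2 : ℝ) * A ≤ B := by exact_mod_cast hB
  have r5 : (5 : ℝ) * (B : ℝ) ^ (n + 1) ≤ 2 * (k₁ * (A : ℝ) ^ (n + 1)) := by exact_mod_cast h5
  have r3 : (3 : ℝ) ^ (n + 1) * (B : ℝ) ^ (n + 1) ≤
      k₁ * (A : ℝ) ^ (n + 1) + k₂ * (B : ℝ) ^ (n + 1) := by exact_mod_cast h3
  have rd : ((B : ℝ) + (2 * n + 1)) ^ (n + 1) *
      (k₁ * (A : ℝ) ^ (n + 1) + k₂ * (B : ℝ) ^ (n + 1)) ≤ (e : ℝ) ^ (n + 1) * (B : ℝ) ^ (n + 1) := by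
    exact_mod_cast hd
  have rk₂ : (1 : ℝ) ≤ k₂ := by exact_mod_cast hk₂
  have p2 : (0 : ℝ) < (B : ℝ) ^ (n + 1) := by positivity
  obtain ⟨lam, hlam⟩ : ∃ lam : ℝ, lam = B / A := ⟨_, rfl⟩
  have hlam2 : 2 ≤ lam := by rw [hlam, le_div_iff₀ a1]; exact a3
  have hlam0 : 0 < lam := by linarith
  have hlA : lam * A = B := by rw [hlam]; field_simp
  obtain ⟨s₁, hs₁⟩ : ∃ s₁ : ℝ, s₁ = k₁ * (A : ℝ) ^ (n + 1) / (B : ℝ) ^ (n + 1) := ⟨_, rfl⟩
  have hs₁w : s₁ * (B : ℝ) ^ (n + 1) = k₁ * (A : ℝ) ^ (n + 1) := by rw [hs₁]; field_simp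
  have hs5 : 5 / 2 ≤ s₁ := by
    rw [hs₁, le_div_iff₀ p2]
    linarith
  have hlam1 : lam ^ (n + 1) * s₁ = k₁ := by
    rw [hlam, hs₁, div_pow]
    field_simp
  obtain ⟨ρ, hρ0, hρ⟩ : ∃ ρ : ℝ, 0 ≤ ρ ∧ ρ ^ (n + 1) = s₁ + k₂ := by
    refine ⟨(s₁ + k₂) ^ ((1 : ℝ) / ((n + 1 : ℕ) : ℝ)), by positivity, ?_⟩
    rw [← Real.rpow_natCast, ← Real.rpow_mul (by positivity), one_div_mul_cancel (by positivity),
      Real.rpow_one]
  have hρ3 : 3 ≤ ρ := by
    refine le_of_pow_le_pow_left₀ (Nat.succ_ne_zero n) hρ0 ?_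
    rw [hρ]
    refine le_of_mul_le_mul_right ?_ p2
    rw [add_mul, hs₁w]
    exact r3
  have hρpos : 0 < ρ := by linarith
  have hρe : ρ * ((B : ℝ) + (2 * n + 1)) ≤ e := by
    refine le_of_pow_le_pow_left₀ (Nat.succ_ne_zero n) (Nat.cast_nonneg e) ?_
    rw [mul_pow, hρ]
    refine le_of_mul_le_mul_right ?_ p2
    calc (s₁ + k₂) * ((B : ℝ) + (2 * n + 1)) ^ (n + 1) * (B : ℝ) ^ (n + 1)
        = ((B : ℝ) + (2 * n + 1)) ^ (n + 1) *
          (s₁ * (B : ℝ) ^ (n + 1) + k₂ * (B : ℝ) ^ (n + 1)) := by ring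
      _ ≤ _ := by rw [hs₁w]; exact rd
  obtain ⟨h, hh⟩ : ∃ h : ℝ, h = B + (n + 1) := ⟨_, rfl⟩
  have gl : SAsm.Good (fun _ : ι₁ => w₁) (h * s₁) (fun _ : σ => s₁) := by
    have g1 : SAsm.Good (fun _ : ι₁ => w₁) ((k₁ : ℝ) * w₁)
        (fun _ : σ => lam ^ (Fintype.card σ + 1) * s₁) := by
      refine good_finalS ?_ ?_
      · rw [← hn, hlam1, hk₁]
      · rw [hk₁]
    refine goodS_mono (scaleS hlam2 hs5 g1) ?_
    rw [← hn]
    have e1 : (k₁ : ℝ) * w₁ / lam ^ n = s₁ * (lam * w₁) := by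
      rw [← hlam1]
      field_simp
      ring
    have e2 : lam * w₁ + lam * n = B := by rw [← hlA, hA]; push_cast; ring
    rw [e1, hh, ← e2]
    nlinarith
  have gr : SAsm.Good (fun _ : ι₂ => B + (n + 1)) (h * k₂) (fun _ : σ => (k₂ : ℝ)) := by
    refine good_finalS ?_ ?_
    · rw [hk₂']
    · rw [← hk₂', hh]
      push_cast
      rw [mul_comm]
  have gj := joinS (by linarith : (1 : ℝ) ≤ s₁) rk₂ gl gr
  rw [← hρ] at gj
  refine topS (W := h * ρ ^ (n + 1) + 1) (ρ := ρ) _ hρ3 ?_ ?_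
  · rw [← hn]
    exact gj
  · rw [← hn]
    have e1 : (h * ρ ^ (n + 1) + 1) / ρ ^ n = h * ρ + 1 / ρ ^ n := by
      field_simp
      ring
    have e2 : 1 / ρ ^ n ≤ 1 := by
      rw [div_le_one (by positivity)]
      exact one_le_pow₀ (by linarith)
    rw [e1, hh]
    push_cast
    nlinarith

end Run7.h526.BW
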