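import Pool.Agent.Run7.h526.BW.Chain
import Pool.Agent.TH3.IR.SMain
import Pool.Agent.Y55.Col.Many

/-!
# From torus points to points of projective space
-/

set_option autoImplicit false

namespace Run7.h526.BW

open MvPolynomial Finset Pool.Agent.TH3.IR Pool.Agent.H938R2 Pool.Agent.Y55.Col

theorem EmpS_equiv {ι κ σ : Type} [Fintype σ] (e : κ ≃ ι) {w : ι → ℕ} {S : Set (ℤ × (σ → ℤ))}
    (h : EmpS w S) : EmpS (fun k => w (e k)) S := by
  obtain ⟨K, _, _, x, y, hx, hy, hf⟩ := h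
  refine ⟨K, inferInstance, inferInstance, fun k => x (e k), fun k => y (e k), fun k => hx _,
    fun k => hy _, fun f h1 h2 => hf f h1 fun i => ?_⟩
  have := h2 (e.symm i)
  simpa using this

theorem SurS_equiv {ι κ σ : Type} [Fintype ι] [Fintype κ] [Fintype σ] (e : κ ≃ ι) {w : ι → ℕ}
    {S : Set (ℤ × (σ → ℤ))} (h : SurS w S) : SurS (fun k => w (e k)) S := by
  obtain ⟨T, a, b, c⟩ := h
  refine ⟨T, a, ?_, EmpS_equiv e c⟩
  rw [b]
  unfold nc
  exact (Equiv.sum_comp e fun i => (w i + Fintype.card σ).choose (Fintype.card σ + 1)).symm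

theorem exists_eval {k E : ℕ} {F : MvPolynomial (Fin k × Fin E) ℂ} (hF : F ≠ 0) :
    ∃ P : Fin k → Fin E → ℂ, eval (fun q : Fin k × Fin E => P q.1 q.2) F ≠ 0 := by
  obtain ⟨y, hy⟩ : ∃ y : Fin k × Fin E → ℂ, eval y F ≠ 0 := by
    by_contra hcon
    push Not at hcon
    exact hF (MvPolynomial.funext fun w => by rw [hcon w, map_zero])
  exact ⟨fun i j => y (i, j), hy⟩

/-- membership in the ideals gives the multiplicities of the Laurent polynomial -/
theorem lau_mult {n d w : ℕ} {f : MvPolynomial (Fin (n + 2)) ℂ} (hf : f.IsHomogeneous d)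
    (p : Fin (n + 1) → ℂ)
    (h : f ∈ (Ideal.span (Set.range fun j : Fin (n + 1) =>
          (X j.succ - C (p j) * X 0 : MvPolynomial (Fin (n + 1 + 1)) ℂ))) ^ w) :
    LMS (lau f) (p 0) (fun j : Fin n => p j.succ) w := by
  have h1 : f ∈ (RingHom.ker (MvPolynomial.eval (Fin.cons 1 p : Fin (n + 2) → ℂ))) ^ w :=
    Ideal.pow_right_mono (span_le_ker p) _ h
  have h2 := lau_LMS hf (P := (Fin.cons 1 p : Fin (n + 2) → ℂ)) (by simp) h1
  have e1 : (Fin.cons 1 p : Fin (n + 2) → ℂ) 0 = 1 := rfl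
  have e2 : (Fin.cons 1 p : Fin (n + 2) → ℂ) 1 = p 0 := rfl
  have e3 : ∀ j : Fin n, (Fin.cons 1 p : Fin (n + 2) → ℂ) j.succ.succ = p j.succ := fun j => rfl
  simp only [e1, e2, e3, div_one] at h2
  exact h2

theorem emp_fin {n d k : ℕ} {w : Fin k → ℕ}
    (h : EmpS w (RegS (0 : ℝ) d (fun _ : Fin n => 0) (fun _ => 1))) :
    Emp (n + 1) (d + 1) ((univ : Finset (Fin k)).val.map w) := by
  obtain ⟨G0, hG0, hG⟩ := exists_minor h
  obtain ⟨P, hP⟩ := exists_eval (idx_ne_zero hG0)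
  rw [eval_idx] at hP
  refine emp_of_point w (fun i => Fin.cons 1 (P i)) (fun i => by simp) ?_
  rw [forms_cons]
  refine vd_eq_bot fun G hGd hGw => ?_
  exact lau_eq_zero hGd (hG ℂ (fun i => P i 0) (fun i j => P i j.succ) hP (lau G) (lau_support hGd)
    fun i => lau_mult hGd (P i) (hGw i))

theorem ind_fin {n d k : ℕ} {w : Fin k → ℕ}
    (h : SurS w (RegS (0 : ℝ) d (fun _ : Fin n => 0) (fun _ => 1))) :
    Ind n (d + 1) ((univ : Finset (Fin k)).val.map w) := by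
  obtain ⟨G0, hG0, hG⟩ := exists_minorS h
  obtain ⟨P, hP⟩ := exists_eval (idx_ne_zero hG0)
  rw [eval_idx] at hP
  obtain ⟨T, hT, hTc, hEmp⟩ := hG ℂ (fun i => P i 0) (fun i j => P i j.succ) hP
  refine ind_of_point w (fun i => Fin.cons 1 (P i)) (fun i => by simp) ?_
  rw [forms_cons]
  have hlow := Pool.Agent.H932R5.finrank_ge (K := ℂ) (E := n) d w P
  have hup := SMain.upper (n := n) (d := d) (Pool.Agent.H932R5.Vd d w P)
    (fun f hf => (Submodule.mem_inf.1 hf).1) T hT (by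
    intro f hf hs
    have hfh : f.IsHomogeneous d := (Submodule.mem_inf.1 hf).1
    refine lau_eq_zero hfh (hEmp (lau f) hs fun i => ?_)
    refine lau_mult hfh (P i) ?_
    have h3 := (Submodule.mem_inf.1 hf).2
    rw [Submodule.restrictScalars_mem, Ideal.mem_iInf] at h3
    exact h3 i)
  rw [hTc] at hup
  unfold nc at hup
  rw [Fintype.card_fin] at hup
  have e4 : d + (n + 1) = d + n + 1 := by omega
  rw [e4]
  omega

theorem val_map_elim (a b w₁ w₂ : ℕ) :
    ((univ : Finset (Fin (a + b))).val.map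
      fun k => Sum.elim (fun _ : Fin a => w₁) (fun _ : Fin b => w₂) (finSumFinEquiv.symm k)) =
    Multiset.replicate a w₁ + Multiset.replicate b w₂ := by
  have h1 : ((univ : Finset (Fin (a + b))).val.map
      fun k => Sum.elim (fun _ : Fin a => w₁) (fun _ : Fin b => w₂) (finSumFinEquiv.symm k)) =
      ((univ : Finset (Fin a ⊕ Fin b)).val.map
        (Sum.elim (fun _ : Fin a => w₁) (fun _ : Fin b => w₂))) := by
    have h2 : (univ : Finset (Fin a ⊕ Fin b)) =
        (univ : Finset (Fin (a + b))).map finSumFinEquiv.symm.toEmbedding := by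
      rw [Finset.map_univ_equiv]
    rw [h2, Finset.map_val, Multiset.map_map]
    rfl
  rw [h1]
  have h3 : (univ : Finset (Fin a ⊕ Fin b)).val = (univ : Finset (Fin a)).val.disjSum
      (univ : Finset (Fin b)).val := rfl
  rw [h3, Multiset.disjSum, Multiset.map_add, Multiset.map_map, Multiset.map_map]
  congr 1
  · simp [Function.comp_def]
  · simp [Function.comp_def]

/-- two groups of points -/
theorem emp_two {n k₁ k₂ w₁ w₂ d : ℕ} (hn : 1 ≤ n) (hw₁ : 1 ≤ w₁) (hw : 2 * w₁ ≤ w₂) (hk₂ : 1 ≤ k₂)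
    (h5 : 5 * w₂ ^ (n + 1) ≤ 2 * (k₁ * w₁ ^ (n + 1)))
    (h3 : 3 ^ (n + 1) * w₂ ^ (n + 1) ≤ k₁ * w₁ ^ (n + 1) + k₂ * w₂ ^ (n + 1))
    (hd : d ^ (n + 1) < k₁ * w₁ ^ (n + 1) + k₂ * w₂ ^ (n + 1)) :
    Emp (n + 1) (d + 1) (Multiset.replicate k₁ w₁ + Multiset.replicate k₂ w₂) := by
  have : Nonempty (Fin n) := ⟨⟨0, hn⟩⟩
  have h := EmpS_two (ι₁ := Fin k₁) (ι₂ := Fin k₂) (σ := Fin n) (w₁ := w₁) (w₂ := w₂) (d := d)
    hw₁ hw (by simpa using hk₂) (by simpa using h5) (by simpa using h3) (by simpa using hd)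
  have h' := emp_fin (EmpS_equiv finSumFinEquiv.symm h)
  rwa [val_map_elim] at h'

end Run7.h526.BW
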