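import Mathlib

/-!
# Products of consecutive numbers
-/

set_option autoImplicit false

namespace Run7.h526.BW

open Finset

theorem prod_sq (x : ℝ) (n : ℕ) : (∏ i ∈ range (n + 1), (x + i)) ^ 2 =
    ∏ i ∈ range (n + 1), ((x + i) * (x + (n - i))) := by
  rw [pow_two, Finset.prod_mul_distrib]
  congr 1
  rw [← Finset.prod_range_reflect]
  refine Finset.prod_congr rfl fun i hi => ?_
  have h : i ≤ n := by have := Finset.mem_range.1 hi; omega
  have e : n + 1 - 1 - i = n - i := by omega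
  rw [e, Nat.cast_sub h]

theorem prod_upper {x : ℝ} (hx : 0 ≤ x) (n : ℕ) :
    ∏ i ∈ range (n + 1), (x + i) ≤ (x + n / 2) ^ (n + 1) := by
  refine le_of_pow_le_pow_left₀ two_ne_zero (by positivity) ?_
  rw [prod_sq, ← pow_mul, mul_comm (n + 1) 2, pow_mul]
  calc ∏ i ∈ range (n + 1), ((x + i) * (x + (n - i)))
      ≤ ∏ _i ∈ range (n + 1), (x + n / 2) ^ 2 := by
        refine Finset.prod_le_prod (fun i hi => ?_) fun i hi => ?_
        · have h : i ≤ n := by have := Finset.mem_range.1 hi; omega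
          have h' : (i : ℝ) ≤ n := by exact_mod_cast h
          exact mul_nonneg (by positivity) (by linarith)
        · nlinarith [sq_nonneg ((i : ℝ) - n / 2)]
    _ = _ := by rw [Finset.prod_const, Finset.card_range]

theorem prod_lower {x y : ℝ} (hx : 0 ≤ x) (hy : 0 ≤ y) (n : ℕ)
    (h : y ^ 2 ≤ (x + n / 2) ^ 2 - (n / 2) ^ 2) :
    y ^ (n + 1) ≤ ∏ i ∈ range (n + 1), (x + i) := by
  refine le_of_pow_le_pow_left₀ two_ne_zero (Finset.prod_nonneg fun i _ => by positivity) ?_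
  rw [prod_sq, ← pow_mul, mul_comm (n + 1) 2, pow_mul]
  calc (y ^ 2) ^ (n + 1) = ∏ _i ∈ range (n + 1), y ^ 2 := by
        rw [Finset.prod_const, Finset.card_range]
    _ ≤ ∏ i ∈ range (n + 1), ((x + i) * (x + (n - i))) := by
        refine Finset.prod_le_prod (fun i _ => by positivity) fun i hi => ?_
        have h1 : i ≤ n := by have := Finset.mem_range.1 hi; omega
        have h' : (i : ℝ) ≤ n := by exact_mod_cast h1
        have h0 : (0 : ℝ) ≤ i := Nat.cast_nonneg i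
        nlinarith [mul_nonneg h0 (sub_nonneg.2 h')]

/-- the binomial coefficient as a product -/
theorem choose_prod (a n : ℕ) : ((n + 1).factorial : ℝ) * ((a + (n + 1)).choose (n + 1) : ℝ) =
    ∏ i ∈ range (n + 1), ((a + 1 : ℝ) + i) := by
  have h1 := Nat.ascFactorial_eq_factorial_mul_choose a (n + 1)
  rw [Nat.ascFactorial_eq_prod_range] at h1
  have h2 : ((∏ i ∈ range (n + 1), (a + 1 + i) : ℕ) : ℝ) =
      (((n + 1).factorial * (a + (n + 1)).choose (n + 1) : ℕ) : ℝ) := by rw [h1]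
  push_cast at h2
  exact h2.symm

theorem choose_prod' {m : ℕ} (hm : 1 ≤ m) (n : ℕ) :
    ((n + 1).factorial : ℝ) * ((m + n).choose (n + 1) : ℝ) = ∏ i ∈ range (n + 1), ((m : ℝ) + i) := by
  obtain ⟨a, rfl⟩ : ∃ a, m = a + 1 := ⟨m - 1, by omega⟩
  have h := choose_prod a n
  have e : a + (n + 1) = a + 1 + n := by ring
  rw [e] at h
  rw [h]
  push_cast
  rfl

/-- no hypersurface of degree `j` -/
theorem choose_le_pow {j n : ℕ} {t f : ℝ} (ht : 0 ≤ t) (hf : 0 ≤ f)
    (hfn : f ^ (n + 1) = (n + 1).factorial)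
    (h : (j : ℝ) + 1 + n / 2 ≤ t * f) : ((j + (n + 1)).choose (n + 1) : ℝ) ≤ t ^ (n + 1) := by
  have h1 := prod_upper (show (0 : ℝ) ≤ (j : ℝ) + 1 by positivity) n
  have h2 : ((j : ℝ) + 1 + n / 2) ^ (n + 1) ≤ (t * f) ^ (n + 1) :=
    pow_le_pow_left₀ (by positivity) h _
  rw [← choose_prod j n] at h1
  have h3 := h1.trans h2
  rw [mul_pow, hfn, mul_comm (t ^ (n + 1))] at h3
  exact le_of_mul_le_mul_left h3 (by exact_mod_cast Nat.factorial_pos _)

/-- comparison of the number of forms and of conditions -/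
theorem count_le {d m n t : ℕ} (hn : 1 ≤ n) (ht : 1 ≤ t) (hm : n * t ^ (n + 1) ≤ m)
    (h : ((d : ℝ) + 1) ≤ t * (m + n / 2) - (n + 1)) :
    (d + (n + 1)).choose (n + 1) ≤ t ^ (n + 1) * (m + n).choose (n + 1) := by
  have ht1 : (1 : ℝ) ≤ t := by exact_mod_cast ht
  have hn1 : (1 : ℝ) ≤ n := by exact_mod_cast hn
  have hmR : (n : ℝ) * t ^ (n + 1) ≤ m := by exact_mod_cast hm
  have hm1 : 1 ≤ m := le_trans (Nat.mul_pos hn (by positivity)) hm
  have hm1' : (1 : ℝ) ≤ m := by exact_mod_cast hm1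
  obtain ⟨Y, hY⟩ : ∃ Y : ℝ, Y = m + n / 2 := ⟨_, rfl⟩
  obtain ⟨δ, hδ⟩ : ∃ δ : ℝ, δ = (n / 2 + 1) / t := ⟨_, rfl⟩
  have hδt : t * δ = n / 2 + 1 := by rw [hδ]; field_simp
  have hδ0 : 0 < δ := by rw [hδ]; positivity
  rw [← hY] at h
  have hd0 : (0 : ℝ) ≤ d := Nat.cast_nonneg d
  have hδY : δ ≤ Y := by
    refine le_of_mul_le_mul_left ?_ (show (0 : ℝ) < t by linarith)
    rw [hδt]
    linarith
  have h1 : (∏ i ∈ range (n + 1), (((d : ℝ) + 1) + i)) ≤ (t * (Y - δ)) ^ (n + 1) := by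
    refine (prod_upper (by positivity) n).trans (pow_le_pow_left₀ (by positivity) ?_ _)
    rw [mul_sub, hδt]
    linarith
  have h2 : (Y - δ) ^ (n + 1) ≤ ∏ i ∈ range (n + 1), ((m : ℝ) + i) := by
    refine prod_lower (by positivity) (by linarith) n ?_
    rw [← hY]
    have h3 : (n / 2 : ℝ) * (t ^ (n + 1) * n) / t ≤ δ * Y := by
      have e : δ * Y = (n / 2 + 1) * Y / t := by rw [hδ]; ring
      rw [e]
      refine div_le_div_of_nonneg_right ?_ (show (0 : ℝ) ≤ t by linarith)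
      refine mul_le_mul (by linarith) ?_ (by positivity) (by positivity)
      rw [hY]
      linarith
    have h4 : (n / 2 : ℝ) * (t ^ (n + 1) * n) / t = n ^ 2 / 2 * t ^ n := by
      field_simp
      ring
    have h5 : (1 : ℝ) ≤ t ^ n := one_le_pow₀ ht1
    rw [h4] at h3
    nlinarith
  rw [← choose_prod, mul_pow] at h1
  rw [← choose_prod' hm1] at h2
  have h3 : ((n + 1).factorial : ℝ) * ((d + (n + 1)).choose (n + 1) : ℝ) ≤
      ((n + 1).factorial : ℝ) * (t ^ (n + 1) * ((m + n).choose (n + 1) : ℝ)) := by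
    have := mul_le_mul_of_nonneg_left h2 (show (0 : ℝ) ≤ t ^ (n + 1) by positivity)
    linarith
  have h4 := le_of_mul_le_mul_left h3 (by exact_mod_cast Nat.factorial_pos _)
  exact_mod_cast h4

/-- the root of the factorial -/
theorem factorial_root (n : ℕ) {f : ℝ} (hfn : f ^ (n + 1) = (n + 1).factorial) : f ≤ 1 + n / 2 := by
  refine le_of_pow_le_pow_left₀ (Nat.succ_ne_zero n) (by positivity) ?_
  have h1 := prod_upper (show (0 : ℝ) ≤ 1 by norm_num) n
  have h2 := choose_prod 0 n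
  rw [zero_add, Nat.choose_self, Nat.cast_one, mul_one, Nat.cast_zero, zero_add] at h2
  rw [hfn, h2]
  exact h1

end Run7.h526.BW
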