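import Pool.Agent.Run7.h526.BW.Rec

/-!
# The recursion for emptiness: conclusion
-/

set_option autoImplicit false

namespace Run7.h526.BW

/-- equal multiplicities -/
theorem small {n : ℕ} {P : ℕ → ℕ → Prop} (F : Fam n P) {m : ℕ} (h1 : P 1 m) {r : ℕ} {ρ : ℝ}
    (hρ3 : 3 ≤ ρ) (hρ : ρ ^ (n + 1) = r) {V : ℕ} (hV : (V : ℝ) ≤ ρ * m) : P r V := by
  rcases V with _ | d
  · exact F.zero r
  have h3 : 3 ^ (n + 1) ≤ r := by
    have h : (3 : ℝ) ^ (n + 1) ≤ ρ ^ (n + 1) := pow_le_pow_left₀ (by norm_num) hρ3 _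
    rw [hρ] at h
    exact_mod_cast h
  have hd : (d : ℝ) ^ (n + 1) < r * (m : ℝ) ^ (n + 1) := by
    rw [← hρ, ← mul_pow]
    push_cast at hV
    exact pow_lt_pow_left₀ (by linarith) (Nat.cast_nonneg d) (Nat.succ_ne_zero n)
  have := F.many r 1 m d h3 h1 (by exact_mod_cast hd)
  rwa [mul_one] at this

theorem recA {n : ℕ} (hn : 1 ≤ n) {P : ℕ → ℕ → Prop} (F : Fam n P) {m : ℕ} (h1 : P 1 m)
    {X : ℝ} (hX0 : 0 ≤ X) (hX : X ≤ m + n / 2) {T : ℕ} {C : ℝ}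
    (hC : C = 110 * ((n : ℝ) + 1) ^ 2 - 1)
    (base : ∀ t : ℕ, 1 ≤ t → t ≤ T → ∀ V : ℕ, (V : ℝ) ≤ t * X - (n + 1) → P (t ^ (n + 1)) V)
    (r : ℕ) : ∀ ρ : ℝ, 3 ≤ ρ → ρ ^ (n + 1) = r → ρ < 32 * (T + 1) →
      ∀ V : ℕ, (V : ℝ) ≤ ρ * X - C → P r V := by
  have hn1 : (1 : ℝ) ≤ n := by exact_mod_cast hn
  have hC2 : 2 * ((n : ℝ) + 2) ≤ C := by rw [hC]; nlinarith
  induction r using Nat.strong_induction_on with
  | _ r ih =>
    intro ρ hρ3 hρ hρT V hV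
    rcases le_or_gt (ρ * (n / 2)) C with h | h
    · refine small F h1 hρ3 hρ (hV.trans ?_)
      have : ρ * X ≤ ρ * (m + n / 2) := mul_le_mul_of_nonneg_left hX (by linarith)
      nlinarith
    · have h128 : 128 ≤ ρ := by
        by_contra hcon
        push Not at hcon
        have : ρ * (n / 2) ≤ 128 * (n / 2) := mul_le_mul_of_nonneg_right hcon.le (by positivity)
        rw [hC] at h
        nlinarith
      obtain ⟨t, ht⟩ : ∃ t : ℕ, t = ⌊ρ / 32⌋₊ := ⟨_, rfl⟩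
      have ht1 : (t : ℝ) ≤ ρ / 32 := by rw [ht]; exact Nat.floor_le (by linarith)
      have ht2 : ρ / 32 < t + 1 := by rw [ht]; exact Nat.lt_floor_add_one _
      have ht4 : 4 ≤ t := by rw [ht]; exact Nat.le_floor (by push_cast; linarith)
      have ht4' : (4 : ℝ) ≤ t := by exact_mod_cast ht4
      have htT : t ≤ T := by
        have : (t : ℝ) < T + 1 := by linarith
        have : t < T + 1 := by exact_mod_cast this
        omega
      have hκ : ρ / t ≤ 40 := by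
        rw [div_le_iff₀ (by linarith)]
        linarith
      refine step (C := C) (C' := C) hn F (t := t) (by omega) hC2 hX0 hρ (by linarith)
        (base t (by omega) htT) ?_ ?_ hV
      · intro s ρ₂ hs hs3 hs4 V' hV'
        refine ih s ?_ ρ₂ (by linarith) hs (by linarith) V' hV'
        have : ρ₂ ^ (n + 1) < ρ ^ (n + 1) :=
          pow_lt_pow_left₀ (by linarith) (by linarith) (Nat.succ_ne_zero n)
        rw [hs, hρ] at this
        exact_mod_cast this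
      · have : ((n : ℝ) + 1) * (n + 2) * (ρ / t) ≤ (n + 1) * (n + 2) * 40 :=
          mul_le_mul_of_nonneg_left hκ (by positivity)
        rw [hC]
        nlinarith

theorem recB {n : ℕ} (hn : 1 ≤ n) {P : ℕ → ℕ → Prop} (F : Fam n P) {m : ℕ} (h1 : P 1 m)
    {X : ℝ} (hX0 : 0 ≤ X) (hX : X ≤ m + n / 2) {T : ℕ} (hT : 1 ≤ T) {C : ℝ}
    (hC : C = 110 * ((n : ℝ) + 1) ^ 2 - 1)
    (base : ∀ t : ℕ, 1 ≤ t → t ≤ T → ∀ V : ℕ, (V : ℝ) ≤ t * X - (n + 1) → P (t ^ (n + 1)) V)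
    (r : ℕ) (ρ : ℝ) (hρ3 : 3 ≤ ρ) (hρ : ρ ^ (n + 1) = r) (V : ℕ)
    (hV : (V : ℝ) ≤ ρ * X - C - (n + 1) * (n + 2) * (ρ / T)) : P r V := by
  have hn1 : (1 : ℝ) ≤ n := by exact_mod_cast hn
  have hC2 : 2 * ((n : ℝ) + 2) ≤ C := by rw [hC]; nlinarith
  have hT1 : (1 : ℝ) ≤ T := by exact_mod_cast hT
  have hpos : 0 ≤ ((n : ℝ) + 1) * (n + 2) * (ρ / T) := by positivity
  rcases lt_or_ge ρ (32 * (T + 1)) with h | h
  · exact recA hn F h1 hX0 hX hC base r ρ hρ3 hρ h V (by linarith)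
  · refine step (C := C) (C' := C + (n + 1) * (n + 2) * (ρ / T)) hn F (t := T) hT hC2 hX0 hρ
      (by linarith) (base T hT le_rfl) ?_ ?_ (by linarith)
    · intro s ρ₂ hs hs3 hs4 V' hV'
      exact recA hn F h1 hX0 hX hC base s ρ₂ (by linarith) hs (by linarith) V' hV'
    · linarith

end Run7.h526.BW
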