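import Pool.Agent.Run7.h526.BW.Rec

/-!
# The recursion for independence
-/

set_option autoImplicit false

namespace Run7.h526.BW

/-- the properties of independence that are used -/
structure FamS (n : ℕ) (P : ℕ → ℕ → Prop) : Prop where
  mono : ∀ r r' V V', P r V → r' ≤ r → V ≤ V' → P r' V'
  many : ∀ k t V e, 3 ^ (n + 1) ≤ k → P t V → k * (V + n) ^ (n + 1) ≤ e ^ (n + 1) →
    P (k * t) (e + n + 1)
  two : ∀ k t V s B e, P t V → P s (B + (n + 1)) → 2 * (V + n) ≤ B →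
    3 ^ (n + 1) * B ^ (n + 1) ≤ k * (V + n) ^ (n + 1) →
    (B + (2 * n + 1)) ^ (n + 1) * (k * (V + n) ^ (n + 1) + B ^ (n + 1)) ≤
      e ^ (n + 1) * B ^ (n + 1) → P (k * t + s) (e + (n + 1) + 1)

/-- a simpler condition -/
theorem FamS.two' {n : ℕ} {P : ℕ → ℕ → Prop} (F : FamS n P) (k t V s B e : ℕ) (h1 : P t V)
    (h2 : P s (B + (n + 1))) (h3 : 2 * (V + n) ≤ B)
    (h4 : 3 ^ (n + 1) * B ^ (n + 1) ≤ k * (V + n) ^ (n + 1))
    (h5 : k * (V + n + (n + 1)) ^ (n + 1) + (B + (2 * n + 1)) ^ (n + 1) ≤ e ^ (n + 1)) :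
    P (k * t + s) (e + (n + 1) + 1) := by
  refine F.two k t V s B e h1 h2 h3 h4 ?_
  refine le_trans ?_ (Nat.mul_le_mul_right _ h5)
  have h6 : (B + (2 * n + 1)) * (V + n) ≤ (V + n + (n + 1)) * B := by nlinarith
  have h7 := Nat.pow_le_pow_left h6 (n + 1)
  rw [mul_pow, mul_pow] at h7
  calc (B + (2 * n + 1)) ^ (n + 1) * (k * (V + n) ^ (n + 1) + B ^ (n + 1))
      = k * ((B + (2 * n + 1)) ^ (n + 1) * (V + n) ^ (n + 1)) +
        (B + (2 * n + 1)) ^ (n + 1) * B ^ (n + 1) := by ring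
    _ ≤ k * ((V + n + (n + 1)) ^ (n + 1) * B ^ (n + 1)) +
        (B + (2 * n + 1)) ^ (n + 1) * B ^ (n + 1) :=
        Nat.add_le_add_right (Nat.mul_le_mul_left _ h7) _
    _ = _ := by ring

theorem stepS {n : ℕ} (hn : 1 ≤ n) {P : ℕ → ℕ → Prop} (F : FamS n P) {t : ℕ} (ht : 1 ≤ t)
    {Y C : ℝ} (hC : 216 * ((n : ℝ) + 1) ≤ C) (hY : 0 ≤ Y)
    {ρ : ℝ} {r : ℕ} (hρ : ρ ^ (n + 1) = r) (hρt : 32 * (t : ℝ) ≤ ρ) (hρt' : ρ ≤ 40 * t)
    (base : ∀ V : ℕ, t * Y ≤ (V : ℝ) → P (t ^ (n + 1)) V)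
    (IH : ∀ (s : ℕ) (ρ₂ : ℝ), ρ₂ ^ (n + 1) = s → 3 * (t : ℝ) ≤ ρ₂ → ρ₂ ≤ 4 * t →
      ∀ V : ℕ, ρ₂ * Y + C ≤ (V : ℝ) → P s V)
    {V : ℕ} (hV : ρ * Y + C ≤ (V : ℝ)) : P r V := by
  obtain ⟨T, hT⟩ : ∃ T : ℝ, T = t := ⟨_, rfl⟩
  have hT1 : 1 ≤ T := by rw [hT]; exact_mod_cast ht
  have hT0 : 0 < T := by linarith
  rw [← hT] at hρt hρt' base
  have hρ0 : 0 < ρ := by linarith
  have hn1 : (1 : ℝ) ≤ n := by exact_mod_cast hn
  have hC0 : 0 ≤ C := by linarith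
  obtain ⟨κ, hκ⟩ : ∃ κ : ℝ, κ = ρ / T := ⟨_, rfl⟩
  have hκT : ρ = κ * T := by rw [hκ]; field_simp
  have hκ0 : 0 < κ := by rw [hκ]; positivity
  have hκ32 : 32 ≤ κ := by rw [hκ, le_div_iff₀ hT0]; exact hρt
  have hκ40 : κ ≤ 40 := by rw [hκ, div_le_iff₀ hT0]; exact hρt'
  -- the quotient
  obtain ⟨hq1, hq2, hq3⟩ := div_facts ht hρ (hT ▸ hρt)
  obtain ⟨q, hq⟩ : ∃ q, q = r / t ^ (n + 1) := ⟨_, rfl⟩
  rw [← hq] at hq1 hq2 hq3
  have rq1 : (q : ℝ) * T ^ (n + 1) ≤ ρ ^ (n + 1) := by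
    rw [hρ, hT]; exact_mod_cast hq1
  have hqκ : (q : ℝ) ≤ κ ^ (n + 1) := by
    rw [hκT, mul_pow] at rq1
    exact le_of_mul_le_mul_right rq1 (by positivity)
  -- the multiplicity of a cluster
  obtain ⟨V₁, hV₁⟩ : ∃ V₁ : ℕ, V₁ = ⌈T * Y⌉₊ := ⟨_, rfl⟩
  have b1 : P (t ^ (n + 1)) V₁ := base V₁ (by rw [hV₁]; exact Nat.le_ceil _)
  have hTY : 0 ≤ T * Y := by positivity
  have b2 : (V₁ : ℝ) ≤ T * Y + 1 := by rw [hV₁]; exact (Nat.ceil_lt_add_one hTY).le
  have b2' : T * Y ≤ (V₁ : ℝ) := by rw [hV₁]; exact Nat.le_ceil _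
  have hρY : 0 ≤ ρ * Y := by positivity
  have h3q : 3 ^ (n + 1) ≤ q := le_trans (Nat.pow_le_pow_left (by norm_num) _) hq3
  rcases lt_or_ge (T * Y) ((n + 1) * C) with hcase | hcase
  · -- only clusters
    obtain ⟨e, he⟩ : ∃ e : ℕ, V = e + n + 1 := by
      have : (n + 1 : ℕ) ≤ V := by
        have : ((n + 1 : ℕ) : ℝ) ≤ V := by push_cast; linarith
        exact_mod_cast this
      exact ⟨V - (n + 1), by omega⟩
    have heR : (V : ℝ) = e + n + 1 := by rw [he]; push_cast; ring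
    obtain ⟨u, hu⟩ : ∃ u : ℝ, u = 1 / ((n + 1) * κ ^ n) := ⟨_, rfl⟩
    have hκn : 0 < κ ^ n := by positivity
    have hu0 : 0 < u := by rw [hu]; positivity
    have huκ : (n + 1) * κ ^ n * u = 1 := by rw [hu]; field_simp
    have h32 : (16 * ((n : ℝ) + 1)) ≤ κ ^ n := by
      have h1 : (16 * ((n : ℝ) + 1)) ≤ 32 ^ n := by exact_mod_cast num2 n hn
      exact h1.trans (pow_le_pow_left₀ (by norm_num) hκ32 n)
    have hu16 : 16 * ((n : ℝ) + 1) * (n + 1) * u ≤ 1 := by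
      refine le_trans ?_ (le_of_eq huκ)
      refine mul_le_mul_of_nonneg_right ?_ hu0.le
      rw [mul_comm]
      exact mul_le_mul_of_nonneg_left h32 (by positivity)
    have e1 : κ ^ (n + 1) + 1 ≤ (κ + u) ^ (n + 1) := by
      have := tangent hκ0.le (show 0 ≤ κ + u by linarith) n
      have e : κ ^ (n + 1) + (n + 1) * κ ^ n * (κ + u - κ) = κ ^ (n + 1) + 1 := by
        rw [add_sub_cancel_left, huκ]
      linarith
    have e2 : (κ + u) * (V₁ + n) ≤ e := by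
      have h1 : (κ + u) * (V₁ + n) ≤ (κ + u) * (T * Y + (n + 1)) :=
        mul_le_mul_of_nonneg_left (by linarith) (by linarith)
      have h2 : (κ + u) * (T * Y + (n + 1)) = ρ * Y + κ * (n + 1) + u * (T * Y) + u * (n + 1) := by
        rw [hκT]; ring
      have h3 : κ * (n + 1) ≤ 40 * (n + 1) := mul_le_mul_of_nonneg_right hκ40 (by linarith)
      have h4 : u * (T * Y) ≤ u * ((n + 1) * C) := mul_le_mul_of_nonneg_left hcase.le hu0.le
      have h5 : u * (n + 1) ≤ 1 := by nlinarith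
      have h6 : u * ((n + 1) * C) ≤ C / 16 := by
        have : u * (n + 1) ≤ 1 / 16 := by nlinarith
        calc u * ((n + 1) * C) = u * (n + 1) * C := by ring
          _ ≤ 1 / 16 * C := mul_le_mul_of_nonneg_right this hC0
          _ = C / 16 := by ring
      rw [h2] at h1
      linarith
    have e3 : ((q : ℝ) + 1) * ((V₁ : ℝ) + n) ^ (n + 1) ≤ (e : ℝ) ^ (n + 1) := by
      calc ((q : ℝ) + 1) * ((V₁ : ℝ) + n) ^ (n + 1)
          ≤ (κ + u) ^ (n + 1) * ((V₁ : ℝ) + n) ^ (n + 1) :=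
            mul_le_mul_of_nonneg_right (by linarith) (by positivity)
        _ = ((κ + u) * (V₁ + n)) ^ (n + 1) := (mul_pow _ _ _).symm
        _ ≤ (e : ℝ) ^ (n + 1) := pow_le_pow_left₀ (by positivity) e2 _
    have e4 : (q + 1) * (V₁ + n) ^ (n + 1) ≤ e ^ (n + 1) := by exact_mod_cast e3
    rw [he]
    exact F.mono _ _ _ _ (F.many (q + 1) _ V₁ e (by omega) b1 e4) hq2.le le_rfl
  · -- clusters and the rest
    obtain ⟨k, hk⟩ : ∃ k, q = k + 3 ^ (n + 1) := ⟨q - 3 ^ (n + 1), by omega⟩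
    have hk24 : 24 ^ (n + 1) ≤ k := by have := num3 n; omega
    have hkq : k ≤ q := hk ▸ Nat.le_add_right _ _
    have hkr : k * t ^ (n + 1) ≤ r := le_trans (Nat.mul_le_mul_right _ hkq) hq1
    obtain ⟨s, hs⟩ : ∃ s, r = k * t ^ (n + 1) + s := ⟨r - k * t ^ (n + 1), by omega⟩
    have hs1 : 3 ^ (n + 1) * t ^ (n + 1) ≤ s := by
      rw [hk, hs, add_mul] at hq1
      omega
    have hs2 : s ≤ 4 ^ (n + 1) * t ^ (n + 1) := by
      have h4 := Nat.mul_le_mul_right (t ^ (n + 1)) (num4 n)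
      have h5 : (k + 3 ^ (n + 1) + 1) * t ^ (n + 1) =
          k * t ^ (n + 1) + (3 ^ (n + 1) + 1) * t ^ (n + 1) := by ring
      rw [hk, h5] at hq2
      omega
    obtain ⟨ρ₂, hρ₂0, hρ₂⟩ : ∃ ρ₂ : ℝ, 0 ≤ ρ₂ ∧ ρ₂ ^ (n + 1) = s := by
      refine ⟨(s : ℝ) ^ ((1 : ℝ) / ((n + 1 : ℕ) : ℝ)), by positivity, ?_⟩
      rw [← Real.rpow_natCast, ← Real.rpow_mul (by positivity), one_div_mul_cancel (by positivity),
        Real.rpow_one]
    have hρ3 : 3 * T ≤ ρ₂ := by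
      refine le_of_pow_le_pow_left₀ (Nat.succ_ne_zero n) hρ₂0 ?_
      rw [hρ₂, mul_pow, hT]
      exact_mod_cast hs1
    have hρ4 : ρ₂ ≤ 4 * T := by
      refine le_of_pow_le_pow_left₀ (Nat.succ_ne_zero n) (by positivity) ?_
      rw [hρ₂, mul_pow, hT]
      exact_mod_cast hs2
    have hsum : (k : ℝ) * T ^ (n + 1) + ρ₂ ^ (n + 1) = ρ ^ (n + 1) := by
      rw [hρ, hρ₂, hT, hs]
      push_cast
      ring
    have hB : 2 * C ≤ T * Y := by
      refine le_trans ?_ hcase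
      exact mul_le_mul_of_nonneg_right (by linarith) hC0
    have hρ₂Y : 3 * (T * Y) ≤ ρ₂ * Y := by
      rw [← mul_assoc]
      exact mul_le_mul_of_nonneg_right hρ3 hY
    have hρ₂Y' : ρ₂ * Y ≤ 4 * (T * Y) := by
      rw [← mul_assoc]
      exact mul_le_mul_of_nonneg_right hρ4 hY
    have hρ₂Y0 : 0 ≤ ρ₂ * Y := by positivity
    obtain ⟨W, hW⟩ : ∃ W : ℕ, W = ⌈ρ₂ * Y + C⌉₊ := ⟨_, rfl⟩
    have hW1 : ρ₂ * Y + C ≤ W := by rw [hW]; exact Nat.le_ceil _
    have hW2 : (W : ℝ) ≤ ρ₂ * Y + (C + 1) := by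
      have := (Nat.ceil_lt_add_one (show 0 ≤ ρ₂ * Y + C by linarith)).le
      rw [← hW] at this
      linarith
    have c1 : P s W := IH s ρ₂ hρ₂ (hT ▸ hρ3) (hT ▸ hρ4) W hW1
    obtain ⟨B, hB'⟩ : ∃ B : ℕ, W = B + (n + 1) := by
      have : n + 1 ≤ W := by
        have : ((n + 1 : ℕ) : ℝ) ≤ W := by push_cast; linarith
        exact_mod_cast this
      exact ⟨W - (n + 1), by omega⟩
    have hBR : (W : ℝ) = B + (n + 1) := by rw [hB']; push_cast; ring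
    have c3 : 2 * (V₁ + n) ≤ B := by
      have : (2 : ℝ) * (V₁ + n) ≤ B := by linarith
      exact_mod_cast this
    have c4 : 3 ^ (n + 1) * B ^ (n + 1) ≤ k * (V₁ + n) ^ (n + 1) := by
      have h1 : (3 : ℝ) * B ≤ 24 * (V₁ + n) := by linarith
      have h2 : 3 * B ≤ 24 * (V₁ + n) := by exact_mod_cast h1
      calc 3 ^ (n + 1) * B ^ (n + 1) = (3 * B) ^ (n + 1) := (mul_pow _ _ _).symm
        _ ≤ (24 * (V₁ + n)) ^ (n + 1) := Nat.pow_le_pow_left h2 _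
        _ = 24 ^ (n + 1) * (V₁ + n) ^ (n + 1) := mul_pow _ _ _
        _ ≤ k * (V₁ + n) ^ (n + 1) := Nat.mul_le_mul_right _ hk24
    obtain ⟨e, he⟩ : ∃ e : ℕ, V = e + (n + 1) + 1 := by
      have : n + 2 ≤ V := by
        have : ((n + 2 : ℕ) : ℝ) ≤ V := by push_cast; linarith
        exact_mod_cast this
      exact ⟨V - (n + 2), by omega⟩
    have heR : (V : ℝ) = e + (n + 1) + 1 := by rw [he]; push_cast; ring
    have c5 : (k : ℝ) * ((V₁ : ℝ) + n + (n + 1)) ^ (n + 1) + ((B : ℝ) + (2 * n + 1)) ^ (n + 1) ≤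
        (e : ℝ) ^ (n + 1) := by
      have g1 : ((V₁ : ℝ) + n + (n + 1)) ^ (n + 1) ≤
          (T * Y) ^ (n + 1) + 2 * (n + 1) * (2 * n + 2) * (T * Y) ^ n := by
        have h1 : ((V₁ : ℝ) + n + (n + 1)) ^ (n + 1) ≤ (T * Y + (2 * n + 2)) ^ (n + 1) :=
          pow_le_pow_left₀ (by positivity) (by linarith) _
        refine h1.trans (pow_le_lin (by positivity) n (le_trans ?_ hcase))
        have : 2 * ((n : ℝ) + 1) * (2 * n + 2) = (n + 1) * (4 * (n + 1)) := by ring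
        rw [this]
        exact mul_le_mul_of_nonneg_left (by linarith) (by linarith)
      have g2 : ((B : ℝ) + (2 * n + 1)) ^ (n + 1) ≤
          (ρ₂ * Y) ^ (n + 1) + 2 * (n + 1) * (C + n + 1) * (ρ₂ * Y) ^ n := by
        have h1 : ((B : ℝ) + (2 * n + 1)) ^ (n + 1) ≤ (ρ₂ * Y + (C + n + 1)) ^ (n + 1) :=
          pow_le_pow_left₀ (by positivity) (by linarith) _
        refine h1.trans (pow_le_lin (by positivity) n ?_)
        have h2 : 2 * ((n : ℝ) + 1) * (C + n + 1) ≤ 3 * ((n + 1) * C) := by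
          have : 2 * (C + n + 1) ≤ 3 * C := by linarith
          calc 2 * ((n : ℝ) + 1) * (C + n + 1) = (n + 1) * (2 * (C + n + 1)) := by ring
            _ ≤ (n + 1) * (3 * C) := mul_le_mul_of_nonneg_left this (by linarith)
            _ = 3 * ((n + 1) * C) := by ring
        linarith
      have g3 : (ρ * Y) ^ (n + 1) + (n + 1) * (C - n - 2) * (ρ * Y) ^ n ≤ (e : ℝ) ^ (n + 1) := by
        have h1 := tangent hρY (Nat.cast_nonneg (α := ℝ) e) n
        refine le_trans ?_ h1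
        have h2 : (C - n - 2) ≤ e - ρ * Y := by linarith
        have h3 := mul_le_mul_of_nonneg_left h2 (show 0 ≤ ((n : ℝ) + 1) * (ρ * Y) ^ n by positivity)
        linarith
      have g4 : (k : ℝ) * (T * Y) ^ n ≤ 40 * (ρ * Y) ^ n := by
        have h1 : (k : ℝ) ≤ κ ^ (n + 1) := le_trans (by exact_mod_cast hkq) hqκ
        calc (k : ℝ) * (T * Y) ^ n ≤ κ ^ (n + 1) * (T * Y) ^ n :=
              mul_le_mul_of_nonneg_right h1 (by positivity)
          _ = κ * (ρ * Y) ^ n := by rw [hκT]; ring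
          _ ≤ _ := mul_le_mul_of_nonneg_right hκ40 (by positivity)
      have g5 : (ρ₂ * Y) ^ n ≤ (ρ * Y) ^ n / 8 := by
        have h2 : (8 * (ρ₂ * Y)) ^ n ≤ (ρ * Y) ^ n := by
          refine pow_le_pow_left₀ (by positivity) ?_ n
          have : 32 * T * Y ≤ ρ * Y := mul_le_mul_of_nonneg_right hρt hY
          linarith
        rw [mul_pow] at h2
        have h3 : (8 : ℝ) ≤ 8 ^ n := by
          calc (8 : ℝ) = 8 ^ 1 := (pow_one _).symm
            _ ≤ 8 ^ n := pow_le_pow_right₀ (by norm_num) hn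
        have h4 := mul_le_mul_of_nonneg_right h3 (show 0 ≤ (ρ₂ * Y) ^ n by positivity)
        linarith
      have g6 : (ρ * Y) ^ (n + 1) = k * (T * Y) ^ (n + 1) + (ρ₂ * Y) ^ (n + 1) := by
        rw [mul_pow, mul_pow, mul_pow, ← hsum]
        ring
      have g7 := mul_le_mul_of_nonneg_left g1 (Nat.cast_nonneg (α := ℝ) k)
      have g8 := mul_le_mul_of_nonneg_left g4
        (show (0 : ℝ) ≤ 2 * (n + 1) * (2 * n + 2) by positivity)
      have g9 := mul_le_mul_of_nonneg_left g5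
        (show (0 : ℝ) ≤ 2 * (n + 1) * (C + n + 1) by positivity)
      have g10 : 2 * ((n : ℝ) + 1) * (2 * n + 2) * 40 + 2 * (n + 1) * (C + n + 1) / 8 ≤
          (n + 1) * (C - n - 2) := by
        have : 2 * (2 * (n : ℝ) + 2) * 40 + 2 * (C + n + 1) / 8 ≤ C - n - 2 := by linarith
        have := mul_le_mul_of_nonneg_left this (show (0 : ℝ) ≤ n + 1 by positivity)
        linarith
      have g11 := mul_le_mul_of_nonneg_right g10 (show 0 ≤ (ρ * Y) ^ n by positivity)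
      linarith
    have c6 : k * (V₁ + n + (n + 1)) ^ (n + 1) + (B + (2 * n + 1)) ^ (n + 1) ≤ e ^ (n + 1) := by
      exact_mod_cast c5
    rw [hs, he]
    exact F.two' k _ V₁ s B e b1 (hB' ▸ c1) c3 c4 c6

theorem recS {n : ℕ} (hn : 1 ≤ n) {P : ℕ → ℕ → Prop} (F : FamS n P) {m : ℕ} (h1 : P 1 m)
    {Y C : ℝ} (hY : Y = m + n / 2) (hC : 216 * ((n : ℝ) + 1) ≤ C)
    (base : ∀ t : ℕ, 1 ≤ t → ∀ V : ℕ, t * Y ≤ (V : ℝ) → P (t ^ (n + 1)) V)
    (r : ℕ) : ∀ ρ : ℝ, 3 ≤ ρ → ρ ^ (n + 1) = r → ∀ V : ℕ, ρ * Y + C ≤ (V : ℝ) → P r V := by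
  have hn1 : (1 : ℝ) ≤ n := by exact_mod_cast hn
  have hY0 : 0 ≤ Y := by rw [hY]; positivity
  induction r using Nat.strong_induction_on with
  | _ r ih =>
    intro ρ hρ3 hρ V hV
    have h3 : 3 ^ (n + 1) ≤ r := by
      have h : (3 : ℝ) ^ (n + 1) ≤ ρ ^ (n + 1) := pow_le_pow_left₀ (by norm_num) hρ3 _
      rw [hρ] at h
      exact_mod_cast h
    rcases le_or_gt (ρ * (n / 2)) (C - n - 1) with h | h
    · obtain ⟨e, he⟩ : ∃ e : ℕ, V = e + n + 1 := by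
        have : (n + 1 : ℕ) ≤ V := by
          have h0 : 0 ≤ ρ * Y := by positivity
          have : ((n + 1 : ℕ) : ℝ) ≤ V := by push_cast; linarith
          exact_mod_cast this
        exact ⟨V - (n + 1), by omega⟩
      have heR : (V : ℝ) = e + n + 1 := by rw [he]; push_cast; ring
      have h2 : ρ * (m + n) ≤ e := by
        have : ρ * Y + ρ * (n / 2) = ρ * (m + n) := by rw [hY]; ring
        linarith
      have h4 : (r : ℝ) * ((m : ℝ) + n) ^ (n + 1) ≤ (e : ℝ) ^ (n + 1) := by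
        rw [← hρ, ← mul_pow]
        exact pow_le_pow_left₀ (by positivity) h2 _
      have h5 : r * (m + n) ^ (n + 1) ≤ e ^ (n + 1) := by exact_mod_cast h4
      have := F.many r 1 m e h3 h1 h5
      rw [mul_one] at this
      rw [he]
      exact this
    · have h128 : 128 ≤ ρ := by
        by_contra hcon
        push Not at hcon
        have : ρ * (n / 2) ≤ 128 * (n / 2) := mul_le_mul_of_nonneg_right hcon.le (by positivity)
        linarith
      obtain ⟨t, ht⟩ : ∃ t : ℕ, t = ⌊ρ / 32⌋₊ := ⟨_, rfl⟩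
      have ht1 : (t : ℝ) ≤ ρ / 32 := by rw [ht]; exact Nat.floor_le (by linarith)
      have ht2 : ρ / 32 < t + 1 := by rw [ht]; exact Nat.lt_floor_add_one _
      have ht4 : 4 ≤ t := by rw [ht]; exact Nat.le_floor (by push_cast; linarith)
      have ht4' : (4 : ℝ) ≤ t := by exact_mod_cast ht4
      refine stepS hn F (t := t) (by omega) hC hY0 hρ (by linarith) (by linarith)
        (base t (by omega)) ?_ hV
      intro s ρ₂ hs hs3 hs4 V' hV'
      refine ih s ?_ ρ₂ (by linarith) hs V' hV'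
      have : ρ₂ ^ (n + 1) < ρ ^ (n + 1) :=
        pow_lt_pow_left₀ (by linarith) (by linarith) (Nat.succ_ne_zero n)
      rw [hs, hρ] at this
      exact_mod_cast this

end Run7.h526.BW
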