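import Pool.Agent.Run7.h526.BW.Conv
import Pool.Agent.Run7.h526.BW.ChainS
import Pool.Agent.Run7.h526.BW.Prod
import Pool.Agent.Run7.h526.BW.Rec2
import Pool.Agent.Run7.h526.BW.RecS

/-!
# Points of the same multiplicity
-/

set_option autoImplicit false

namespace Run7.h526.BW

open MvPolynomial Finset Pool.Agent.TH3.IR Pool.Agent.H938R2 Pool.Agent.Y55.Col

theorem emp_zero (E : ℕ) (M : Multiset ℕ) : Emp E 0 M := by
  obtain ⟨k, m, rfl⟩ := exists_family M
  refine ⟨Fin k, inferInstance, m, fun _ _ => 0, rfl, fun F hF _ => ?_⟩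
  by_contra hne
  obtain ⟨a, ha⟩ := MvPolynomial.support_nonempty.2 hne
  exact absurd (hF a ha) (Nat.not_lt_zero _)

theorem coll_many {E D μ : ℕ} {M' : Multiset ℕ} (h' : Emp E μ M') (k : ℕ) :
    ∀ M : Multiset ℕ, Emp E D (Multiset.replicate k μ + M) → Emp E D (k • M' + M) := by
  induction k with
  | zero => intro M h; simpa using h
  | succ k ih =>
    intro M h
    rw [Multiset.replicate_succ, Multiset.cons_add] at h
    have h1 := h.collision h'
    have e : M' + (Multiset.replicate k μ + M) = Multiset.replicate k μ + (M' + M) := by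
      rw [← add_assoc, add_comm M', add_assoc]
    rw [e] at h1
    have h2 := ih _ h1
    rwa [← add_assoc, ← succ_nsmul] at h2

theorem coll_manyS {n D μ : ℕ} {M' : Multiset ℕ} (h' : Ind n μ M') (k : ℕ) :
    ∀ M : Multiset ℕ, Ind n D (Multiset.replicate k μ + M) → Ind n D (k • M' + M) := by
  induction k with
  | zero => intro M h; simpa using h
  | succ k ih =>
    intro M h
    rw [Multiset.replicate_succ, Multiset.cons_add] at h
    have h1 := h.collision h'
    have e : M' + (Multiset.replicate k μ + M) = Multiset.replicate k μ + (M' + M) := by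
      rw [← add_assoc, add_comm M', add_assoc]
    rw [e] at h1
    have h2 := ih _ h1
    rwa [← add_assoc, ← succ_nsmul] at h2

/-- two groups of points -/
theorem ind_two {n k₁ k₂ w₁ B e : ℕ} (hn : 1 ≤ n) (hB : 2 * (w₁ + n) ≤ B) (hk₂ : 1 ≤ k₂)
    (h5 : 5 * B ^ (n + 1) ≤ 2 * (k₁ * (w₁ + n) ^ (n + 1)))
    (h3 : 3 ^ (n + 1) * B ^ (n + 1) ≤ k₁ * (w₁ + n) ^ (n + 1) + k₂ * B ^ (n + 1))
    (hd : (B + (2 * n + 1)) ^ (n + 1) * (k₁ * (w₁ + n) ^ (n + 1) + k₂ * B ^ (n + 1)) ≤
      e ^ (n + 1) * B ^ (n + 1)) :
    Ind n (e + (n + 1) + 1) (Multiset.replicate k₁ w₁ + Multiset.replicate k₂ (B + (n + 1))) := by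
  have : Nonempty (Fin n) := ⟨⟨0, hn⟩⟩
  have h := SurS_two (ι₁ := Fin k₁) (ι₂ := Fin k₂) (σ := Fin n) (w₁ := w₁) (B := B) (e := e)
    (by simpa using hB) (by simpa using hk₂) (by simpa using h5) (by simpa using h3)
    (by simpa using hd)
  rw [Fintype.card_fin] at h
  have h' := ind_fin (SurS_equiv finSumFinEquiv.symm h)
  rwa [val_map_elim] at h'

theorem famE {n m : ℕ} (hn : 1 ≤ n) :
    Fam n (fun r V => Emp (n + 1) V (Multiset.replicate r m)) where
  zero := fun r => emp_zero _ _
  mono := by
    intro r r' V V' h hr hV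
    obtain ⟨c, rfl⟩ : ∃ c, r' = r + c := ⟨r' - r, by omega⟩
    clear hr
    induction c with
    | zero => exact h.mono hV
    | succ c ih =>
      rw [← add_assoc, Multiset.replicate_succ]
      exact ih.point m
  many := by
    intro k t V d hk h hd
    have h1 : Emp (n + 1) (d + 1) (Multiset.replicate k V + 0) := by
      rw [add_zero]
      refine manyN_emp hn (by rw [Multiset.card_replicate]; exact hk) ?_
      rw [Multiset.card_replicate, Multiset.sum_replicate, smul_eq_mul]
      have hk0 : 0 < k := lt_of_lt_of_le (by positivity) hk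
      calc k ^ n * d ^ (n + 1) < k ^ n * (k * V ^ (n + 1)) :=
            Nat.mul_lt_mul_of_pos_left hd (by positivity)
        _ = (k * V) ^ (n + 1) := by ring
    have h2 := coll_many h k 0 h1
    rwa [add_zero, Multiset.nsmul_replicate] at h2
  two := by
    intro k t V s W d h1 h2 hV hW h3 hd
    have h4 : 9 ≤ 3 ^ (n + 1) := by
      calc 9 = 3 ^ 2 := by norm_num
        _ ≤ 3 ^ (n + 1) := Nat.pow_le_pow_right (by norm_num) (by omega)
    have h5 : 9 * W ^ (n + 1) ≤ k * V ^ (n + 1) := (Nat.mul_le_mul_right _ h4).trans h3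
    have h6 := emp_two (n := n) (k₁ := k) (k₂ := 1) (w₁ := V) (w₂ := W) (d := d) hn hV hW le_rfl
      (by omega) (by omega) (by omega)
    have h7 := coll_many h1 k _ h6
    have e7 : k • Multiset.replicate t m + Multiset.replicate 1 W =
        W ::ₘ (k • Multiset.replicate t m) := by
      rw [Multiset.replicate_one, add_comm (k • Multiset.replicate t m), Multiset.singleton_add]
    rw [e7] at h7
    have h8 := h7.collision h2
    rw [Multiset.nsmul_replicate, ← Multiset.replicate_add] at h8
    rwa [add_comm s (k * t)] at h8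

theorem famS {n m : ℕ} (hn : 1 ≤ n) :
    FamS n (fun r V => Ind n V (Multiset.replicate r m)) where
  mono := by
    intro r r' V V' h hr hV
    obtain ⟨c, rfl⟩ : ∃ c, r = r' + c := ⟨r - r', by omega⟩
    clear hr
    induction c with
    | zero => exact h.degree hV
    | succ c ih =>
      apply ih
      rw [← add_assoc, Multiset.replicate_succ] at h
      exact h.remove
  many := by
    intro k t V e hk h hd
    have h1 : Ind n (e + n + 1) (Multiset.replicate k V + 0) := by
      rw [add_zero]
      refine manyN_ind hn (by rw [Multiset.card_replicate]; exact hk) ?_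
      intro a ha
      rw [Multiset.eq_of_mem_replicate ha, Multiset.card_replicate, Nat.add_sub_cancel]
      exact hd
    have h2 := coll_manyS h k 0 h1
    rwa [add_zero, Multiset.nsmul_replicate] at h2
  two := by
    intro k t V s B e h1 h2 hV h3 hd
    have h4 : 9 ≤ 3 ^ (n + 1) := by
      calc 9 = 3 ^ 2 := by norm_num
        _ ≤ 3 ^ (n + 1) := Nat.pow_le_pow_right (by norm_num) (by omega)
    have h5 : 9 * B ^ (n + 1) ≤ k * (V + n) ^ (n + 1) := (Nat.mul_le_mul_right _ h4).trans h3
    have h6 := ind_two (n := n) (k₁ := k) (k₂ := 1) (w₁ := V) (B := B) (e := e) hn hV le_rfl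
      (by omega) (by omega) (by rw [one_mul]; exact hd)
    have h7 := coll_manyS h1 k _ h6
    have e7 : k • Multiset.replicate t m + Multiset.replicate 1 (B + (n + 1)) =
        (B + (n + 1)) ::ₘ (k • Multiset.replicate t m) := by
      rw [Multiset.replicate_one, add_comm (k • Multiset.replicate t m), Multiset.singleton_add]
    rw [e7] at h7
    have h8 := h7.collision h2
    rw [Multiset.nsmul_replicate, ← Multiset.replicate_add] at h8
    rwa [add_comm s (k * t)] at h8

end Run7.h526.BW
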