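import Pool.Agent.TH3.IR.SMinor
import Pool.Agent.TH3.IR.SComap

/-!
# Joining two regions

If a finite set of exponents is cut in two by a hyperplane, and the systems on the two parts are empty
for the points of two groups, then the system on the whole set is empty for all the points: the points
of the second group are moved to infinity in the direction of the hyperplane.
-/

set_option autoImplicit false

namespace Run7.h526.BW

open Finset Pool.Agent.TH3.IR Pool.Agent.TH3.IR.SComap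

theorem bdd_below {V W : Type} [Fintype V] [Fintype W] (A : (V → ℝ) →ₗ[ℝ] (W → ℝ))
    (hA : Function.Injective A) : ∃ K : ℝ, 0 ≤ K ∧ ∀ v, ‖v‖ ≤ K * ‖A v‖ := by
  obtain ⟨K, hK, h⟩ := LinearMap.exists_antilipschitzWith A (LinearMap.ker_eq_bot.2 hA)
  refine ⟨K, K.2, fun v => ?_⟩
  have := h.le_mul_dist v 0
  simpa using this

theorem bdd_above {V W : Type} [Fintype V] [Fintype W] (B : (V → ℝ) →ₗ[ℝ] (W → ℝ)) :
    ∃ M : ℝ, 0 ≤ M ∧ ∀ v, ‖B v‖ ≤ M * ‖v‖ := by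
  let B' : (V → ℝ) →L[ℝ] (W → ℝ) := LinearMap.toContinuousLinearMap B
  exact ⟨‖B'‖, norm_nonneg _, fun v => B'.le_opNorm v⟩

/-- the analytic core -/
theorem core {V₁ V₂ W₁ W₂ : Type} [Fintype V₁] [Fintype V₂] [Fintype W₁] [Fintype W₂]
    (A₁ : (V₁ → ℝ) →ₗ[ℝ] (W₁ → ℝ)) (B₁ : (V₂ → ℝ) →ₗ[ℝ] (W₁ → ℝ))
    (A₂ : (V₂ → ℝ) →ₗ[ℝ] (W₂ → ℝ)) (B₂ : (V₁ → ℝ) →ₗ[ℝ] (W₂ → ℝ))
    (hA₁ : Function.Injective A₁) (hA₂ : Function.Injective A₂)
    (e₁ : V₁ → ℝ) (e₂ : V₂ → ℝ) (he₁ : ∀ v, e₁ v < 0) (he₂ : ∀ v, 0 ≤ e₂ v) :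
    ∃ s : ℝ, ∀ (f₁ : V₁ → ℝ) (f₂ : V₂ → ℝ), A₁ f₁ + B₁ f₂ = 0 →
      A₂ (fun v => Real.exp (s * e₂ v) * f₂ v) + B₂ (fun v => Real.exp (s * e₁ v) * f₁ v) = 0 →
      f₁ = 0 ∧ f₂ = 0 := by
  classical
  obtain ⟨K₁, hK₁, h1⟩ := bdd_below A₁ hA₁
  obtain ⟨K₂, hK₂, h2⟩ := bdd_below A₂ hA₂
  obtain ⟨M₁, hM₁, h3⟩ := bdd_above B₁
  obtain ⟨M₂, hM₂, h4⟩ := bdd_above B₂
  obtain ⟨δ, hδ, hδe⟩ : ∃ δ : ℝ, 0 < δ ∧ ∀ v, e₁ v ≤ -δ := by
    rcases isEmpty_or_nonempty V₁ with h | h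
    · exact ⟨1, one_pos, fun v => (IsEmpty.false v).elim⟩
    · obtain ⟨v0, hv0⟩ := Finite.exists_max e₁
      exact ⟨-e₁ v0, by linarith [he₁ v0], fun v => by linarith [hv0 v]⟩
  obtain ⟨C, hC⟩ : ∃ C : ℝ, C = K₂ * M₂ * (K₁ * M₁) := ⟨_, rfl⟩
  have hC0 : 0 ≤ C := by rw [hC]; positivity
  obtain ⟨s, hs0, hs⟩ : ∃ s : ℝ, 0 ≤ s ∧ C * Real.exp (-(s * δ)) < 1 := by
    refine ⟨C / δ, by positivity, ?_⟩
    have e : C / δ * δ = C := by field_simp
    rw [e, Real.exp_neg]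
    have h5 : C < Real.exp C := by linarith [Real.add_one_le_exp C]
    have h6 := Real.exp_pos C
    rw [← div_eq_mul_inv, div_lt_one h6]
    exact h5
  refine ⟨s, fun f₁ f₂ hf hg => ?_⟩
  have n1 : ‖f₁‖ ≤ K₁ * M₁ * ‖f₂‖ := by
    refine (h1 f₁).trans ?_
    rw [eq_neg_of_add_eq_zero_left hf, norm_neg, mul_assoc]
    exact mul_le_mul_of_nonneg_left (h3 f₂) hK₁
  have n2 : ‖fun v => Real.exp (s * e₂ v) * f₂ v‖ ≤
      K₂ * M₂ * ‖fun v => Real.exp (s * e₁ v) * f₁ v‖ := by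
    refine (h2 _).trans ?_
    rw [eq_neg_of_add_eq_zero_left hg, norm_neg, mul_assoc]
    exact mul_le_mul_of_nonneg_left (h4 _) hK₂
  have n3 : ‖f₂‖ ≤ ‖fun v => Real.exp (s * e₂ v) * f₂ v‖ := by
    rw [pi_norm_le_iff_of_nonneg (norm_nonneg _)]
    intro v
    refine le_trans ?_ (norm_le_pi_norm (fun v => Real.exp (s * e₂ v) * f₂ v) v)
    rw [norm_mul, Real.norm_eq_abs (Real.exp _), abs_of_pos (Real.exp_pos _)]
    have : 1 ≤ Real.exp (s * e₂ v) := Real.one_le_exp (mul_nonneg hs0 (he₂ v))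
    nlinarith [norm_nonneg (f₂ v)]
  have n4 : ‖fun v => Real.exp (s * e₁ v) * f₁ v‖ ≤ Real.exp (-(s * δ)) * ‖f₁‖ := by
    rw [pi_norm_le_iff_of_nonneg (by positivity)]
    intro v
    rw [norm_mul, Real.norm_eq_abs (Real.exp _), abs_of_pos (Real.exp_pos _)]
    refine mul_le_mul ?_ (norm_le_pi_norm f₁ v) (norm_nonneg _) (Real.exp_pos _).le
    apply Real.exp_le_exp.2
    nlinarith [hδe v]
  have n5 : ‖f₂‖ ≤ C * Real.exp (-(s * δ)) * ‖f₂‖ := by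
    calc ‖f₂‖ ≤ K₂ * M₂ * (Real.exp (-(s * δ)) * ‖f₁‖) :=
          n3.trans (n2.trans (mul_le_mul_of_nonneg_left n4 (by positivity)))
      _ ≤ K₂ * M₂ * (Real.exp (-(s * δ)) * (K₁ * M₁ * ‖f₂‖)) := by
          refine mul_le_mul_of_nonneg_left (mul_le_mul_of_nonneg_left n1 (Real.exp_pos _).le)
            (by positivity)
      _ = C * Real.exp (-(s * δ)) * ‖f₂‖ := by rw [hC]; ring
  have n6 : ‖f₂‖ = 0 := by
    by_contra hne
    have : 0 < ‖f₂‖ := lt_of_le_of_ne (norm_nonneg _) (Ne.symm hne)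
    nlinarith
  have n7 : f₂ = 0 := norm_eq_zero.1 n6
  have n8 : f₁ = 0 := by
    rw [n6, mul_zero] at n1
    exact norm_eq_zero.1 (le_antisymm n1 (norm_nonneg _))
  exact ⟨n8, n7⟩

theorem exp_zpow (a : ℝ) (k : ℤ) : Real.exp a ^ k = Real.exp (a * k) := by
  rw [← Real.rpow_intCast, ← Real.exp_mul]

theorem exists_pt {τ : Type} [Fintype τ] (G : MvPolynomial τ ℤ) (hG : G ≠ 0) :
    ∃ v : τ → ℝ, (∀ i, v i ≠ 0) ∧ MvPolynomial.eval₂ (Int.castRingHom ℝ) v G ≠ 0 := by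
  classical
  have h1 : MvPolynomial.map (Int.castRingHom ℝ) G ≠ 0 := by
    intro h
    apply hG
    apply MvPolynomial.map_injective (Int.castRingHom ℝ) (by
      intro a b hab
      simpa using hab)
    rw [h, map_zero]
  have h2 : MvPolynomial.map (Int.castRingHom ℝ) G * ∏ i : τ, MvPolynomial.X i ≠ 0 :=
    mul_ne_zero h1 (Finset.prod_ne_zero_iff.2 fun i _ => MvPolynomial.X_ne_zero i)
  obtain ⟨v, hv⟩ : ∃ v : τ → ℝ, MvPolynomial.eval v
      (MvPolynomial.map (Int.castRingHom ℝ) G * ∏ i : τ, MvPolynomial.X i) ≠ 0 := by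
    by_contra hcon
    push Not at hcon
    exact h2 (MvPolynomial.funext fun v => by rw [hcon v, map_zero])
  rw [map_mul, map_prod] at hv
  refine ⟨v, fun i => ?_, ?_⟩
  · have := Finset.prod_ne_zero_iff.1 (right_ne_zero_of_mul hv) i (Finset.mem_univ i)
    simpa using this
  · have := left_ne_zero_of_mul hv
    rwa [MvPolynomial.eval_map] at this

section
variable {ι σ : Type} [Fintype ι] [Fintype σ]

instance (w : ι → ℕ) : Finite (Jet σ w) := by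
  have : ∀ i : ι, Finite {q : ℕ × (σ → ℕ) // q.1 + ∑ j, q.2 j < w i} := fun i => finite_ord σ (w i)
  infer_instance

/-- emptiness as injectivity -/
theorem inj_of_empAt {x : ι → ℝ} {y : ι → σ → ℝ} {w : ι → ℕ} {T : Finset (ℤ × (σ → ℤ))}
    (h : EmpAt x y w (↑T : Set (ℤ × (σ → ℤ)))) :
    Function.Injective (Fintype.linearCombination ℝ
      (fun t : T => jet x y w (t : ℤ × (σ → ℤ)))) := by
  classical
  rw [← LinearMap.ker_eq_bot, LinearMap.ker_eq_bot']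
  intro v hv
  rw [Fintype.linearCombination_apply] at hv
  obtain ⟨f, hf⟩ : ∃ f : (ℤ × (σ → ℤ)) →₀ ℝ, f = ∑ t : T, Finsupp.single (t : ℤ × (σ → ℤ)) (v t) :=
    ⟨_, rfl⟩
  have hval : ∀ s : T, f s = v s := by
    intro s
    rw [hf, Finsupp.finsetSum_apply, Finset.sum_eq_single s]
    · rw [Finsupp.single_eq_same]
    · intro t _ hts
      rw [Finsupp.single_apply, if_neg]
      exact fun h => hts (Subtype.ext h)
    · intro h; exact absurd (Finset.mem_univ _) h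
  have h0 : f = 0 := by
    apply h f
    · intro m hm
      by_contra hmT
      rw [Finset.mem_coe, Finsupp.mem_support_iff] at hm
      apply hm
      rw [hf, Finsupp.finsetSum_apply]
      refine Finset.sum_eq_zero fun t _ => ?_
      rw [Finsupp.single_apply, if_neg]
      rintro rfl
      exact hmT t.2
    · rw [LMS_iff, ← hv, hf, map_sum]
      refine Finset.sum_congr rfl fun t _ => ?_
      rw [Finsupp.linearCombination_single]
  funext s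
  rw [← hval, h0]
  rfl

end

/-- **Join**, for finite sets of nonnegative exponents. -/
theorem EmpS_join_fin {ι₁ ι₂ σ : Type} [Fintype ι₁] [Fintype ι₂] [Fintype σ]
    {w₁ : ι₁ → ℕ} {w₂ : ι₂ → ℕ} (T₁ T₂ : Finset (ℤ × (σ → ℤ)))
    (p₁ : ∀ m ∈ T₁, 0 ≤ m.1 ∧ ∀ j, 0 ≤ m.2 j) (p₂ : ∀ m ∈ T₂, 0 ≤ m.1 ∧ ∀ j, 0 ≤ m.2 j)
    (c : ℝ) (b : σ → ℝ) (s₁ : ∀ m ∈ T₁, (m.1 : ℝ) < c + ∑ j, b j * (m.2 j : ℝ))
    (s₂ : ∀ m ∈ T₂, c + ∑ j, b j * (m.2 j : ℝ) ≤ (m.1 : ℝ))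
    (E₁ : EmpS w₁ (↑T₁ : Set (ℤ × (σ → ℤ)))) (E₂ : EmpS w₂ (↑T₂ : Set (ℤ × (σ → ℤ)))) :
    EmpS (Sum.elim w₁ w₂) ((↑T₁ : Set (ℤ × (σ → ℤ))) ∪ ↑T₂) := by
  classical
  obtain ⟨G₁, hG₁, H₁⟩ := minor_fin T₁ p₁ E₁
  obtain ⟨G₂, hG₂, H₂⟩ := minor_fin T₂ p₂ E₂
  obtain ⟨v₁, hv₁, hv₁'⟩ := exists_pt G₁ hG₁
  obtain ⟨v₂, hv₂, hv₂'⟩ := exists_pt G₂ hG₂
  obtain ⟨x₁, hx₁⟩ : ∃ x : ι₁ → ℝ, x = fun i => v₁ (i, none) := ⟨_, rfl⟩
  obtain ⟨y₁, hy₁⟩ : ∃ y : ι₁ → σ → ℝ, y = fun i j => v₁ (i, some j) := ⟨_, rfl⟩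
  obtain ⟨x₂, hx₂⟩ : ∃ x : ι₂ → ℝ, x = fun i => v₂ (i, none) := ⟨_, rfl⟩
  obtain ⟨y₂, hy₂⟩ : ∃ y : ι₂ → σ → ℝ, y = fun i j => v₂ (i, some j) := ⟨_, rfl⟩
  have F₁ : EmpAt x₁ y₁ w₁ (↑T₁ : Set (ℤ × (σ → ℤ))) := by
    apply H₁
    have : (fun q : ι₁ × Option σ => Option.elim q.2 (x₁ q.1) (y₁ q.1)) = v₁ := by
      funext q
      obtain ⟨i, _ | j⟩ := q
      · simp [hx₁]
      · simp [hy₁]
    rw [this]
    exact hv₁'
  have F₂ : EmpAt x₂ y₂ w₂ (↑T₂ : Set (ℤ × (σ → ℤ))) := by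
    apply H₂
    have : (fun q : ι₂ × Option σ => Option.elim q.2 (x₂ q.1) (y₂ q.1)) = v₂ := by
      funext q
      obtain ⟨i, _ | j⟩ := q
      · simp [hx₂]
      · simp [hy₂]
    rw [this]
    exact hv₂'
  have : Fintype (Jet σ w₁) := Fintype.ofFinite _
  have : Fintype (Jet σ w₂) := Fintype.ofFinite _
  obtain ⟨e, he⟩ : ∃ e : ℤ × (σ → ℤ) → ℝ, e = fun m =>
    (m.1 : ℝ) - ∑ j, b j * (m.2 j : ℝ) - c := ⟨_, rfl⟩
  obtain ⟨s, hs⟩ := core
    (Fintype.linearCombination ℝ (fun t : T₁ => jet x₁ y₁ w₁ (t : ℤ × (σ → ℤ))))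
    (Fintype.linearCombination ℝ (fun t : T₂ => jet x₁ y₁ w₁ (t : ℤ × (σ → ℤ))))
    (Fintype.linearCombination ℝ (fun t : T₂ => jet x₂ y₂ w₂ (t : ℤ × (σ → ℤ))))
    (Fintype.linearCombination ℝ (fun t : T₁ => jet x₂ y₂ w₂ (t : ℤ × (σ → ℤ))))
    (inj_of_empAt F₁) (inj_of_empAt F₂) (fun t => e t) (fun t => e t)
    (fun t => by rw [he]; linarith [s₁ t t.2]) (fun t => by rw [he]; linarith [s₂ t t.2])
  have hdisj : Disjoint T₁ T₂ := by
    rw [Finset.disjoint_left]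
    intro m h1 h2
    exact absurd (s₁ m h1) (not_lt.2 (s₂ m h2))
  refine ⟨ℝ, inferInstance, inferInstance,
    Sum.elim x₁ (fun i => x₂ i * Real.exp s),
    Sum.elim y₁ (fun i j => y₂ i j * Real.exp (-(s * b j))), ?_, ?_, ?_⟩
  · rintro (i | i)
    · simp [hx₁, hv₁]
    · simp only [Sum.elim_inr, hx₂]
      exact mul_ne_zero (hv₂ _) (Real.exp_ne_zero _)
  · rintro (i | i) j
    · simp [hy₁, hv₁]
    · simp only [Sum.elim_inr, hy₂]
      exact mul_ne_zero (hv₂ _) (Real.exp_ne_zero _)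
  · intro f hf hL
    have hf' : f.support ⊆ T₁ ∪ T₂ := by
      intro m hm
      rw [Finset.mem_union]
      exact hf (Finset.mem_coe.2 hm)
    have hsum : ∀ {M : Type} [AddCommMonoid M] [Module ℝ M] (g : ℤ × (σ → ℤ) → M),
        Finsupp.linearCombination ℝ g f = ∑ t : T₁, f t • g t + ∑ t : T₂, f t • g t := by
      intro M _ _ g
      rw [Finsupp.linearCombination_apply, Finsupp.sum_of_support_subset f hf' _ (by simp),
        Finset.sum_union hdisj, Finset.sum_coe_sort T₁ (fun t => f t • g t),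
        Finset.sum_coe_sort T₂ (fun t => f t • g t)]
    have c1 : Finsupp.linearCombination ℝ (jet x₁ y₁ w₁) f = 0 := by
      rw [← LMS_iff]
      intro i
      exact hL (Sum.inl i)
    have c2 : Finsupp.linearCombination ℝ
        (jet (fun i => x₂ i * Real.exp s) (fun i j => y₂ i j * Real.exp (-(s * b j))) w₂) f = 0 := by
      rw [← LMS_iff]
      intro i
      exact hL (Sum.inr i)
    have hjet : ∀ m : ℤ × (σ → ℤ),
        jet (fun i => x₂ i * Real.exp s) (fun i j => y₂ i j * Real.exp (-(s * b j))) w₂ m =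
          (Real.exp (s * c) * Real.exp (s * e m)) • jet x₂ y₂ w₂ m := by
      intro m
      funext q
      rw [Pi.smul_apply, smul_eq_mul]
      unfold jet ch
      have h1 : ∏ j, (y₂ q.1 j * Real.exp (-(s * b j))) ^ m.2 j =
          (∏ j, y₂ q.1 j ^ m.2 j) * Real.exp (-(s * ∑ j, b j * (m.2 j : ℝ))) := by
        rw [Finset.mul_sum, ← Finset.sum_neg_distrib, Real.exp_sum, ← Finset.prod_mul_distrib]
        refine Finset.prod_congr rfl fun j _ => ?_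
        rw [mul_zpow, exp_zpow]
        congr 2
        ring
      have h2 : (x₂ q.1 * Real.exp s) ^ m.1 = x₂ q.1 ^ m.1 * Real.exp (s * (m.1 : ℝ)) := by
        rw [mul_zpow, exp_zpow]
      have h3 : Real.exp (s * (m.1 : ℝ)) * Real.exp (-(s * ∑ j, b j * (m.2 j : ℝ))) =
          Real.exp (s * c) * Real.exp (s * e m) := by
        rw [← Real.exp_add, ← Real.exp_add, he]
        congr 1
        ring
      rw [h1, h2]
      linear_combination (((m.1 : ℝ) ^ q.2.1.1 * ∏ i, (m.2 i : ℝ) ^ q.2.1.2 i) * x₂ q.1 ^ m.1 *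
        (∏ j, y₂ q.1 j ^ m.2 j)) * h3
    have c3 : ∑ t : T₂, (Real.exp (s * e t) * f t) • jet x₂ y₂ w₂ (t : ℤ × (σ → ℤ)) +
        ∑ t : T₁, (Real.exp (s * e t) * f t) • jet x₂ y₂ w₂ (t : ℤ × (σ → ℤ)) = 0 := by
      rw [hsum] at c2
      simp only [hjet] at c2
      have h4 : Real.exp (s * c) • (∑ t : T₂, (Real.exp (s * e t) * f t) • jet x₂ y₂ w₂ (t : ℤ × (σ → ℤ)) +
        ∑ t : T₁, (Real.exp (s * e t) * f t) • jet x₂ y₂ w₂ (t : ℤ × (σ → ℤ))) = 0 := by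
        rw [← c2, smul_add, Finset.smul_sum, Finset.smul_sum, add_comm]
        congr 1
        · refine Finset.sum_congr rfl fun t _ => ?_
          rw [smul_smul, smul_smul]
          congr 1
          ring
        · refine Finset.sum_congr rfl fun t _ => ?_
          rw [smul_smul, smul_smul]
          congr 1
          ring
      exact (smul_eq_zero.1 h4).resolve_left (Real.exp_ne_zero _)
    obtain ⟨z1, z2⟩ := hs (fun t => f t) (fun t => f t) (by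
      rw [Fintype.linearCombination_apply, Fintype.linearCombination_apply, ← hsum, c1]) (by
      rw [Fintype.linearCombination_apply, Fintype.linearCombination_apply]
      exact c3)
    ext m
    rw [Finsupp.zero_apply]
    by_contra hne
    have hm := hf' (Finsupp.mem_support_iff.2 hne)
    rcases Finset.mem_union.1 hm with h | h
    · exact hne (congrFun z1 ⟨m, h⟩)
    · exact hne (congrFun z2 ⟨m, h⟩)

end Run7.h526.BW
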