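import Pool.Agent.Run7.h526.BW.Join

/-!
# Joining two regions: general exponents, and the rank version
-/

set_option autoImplicit false

namespace Run7.h526.BW

open Finset Pool.Agent.TH3.IR Pool.Agent.TH3.IR.SComap

/-- **Join.** -/
theorem EmpS_join {ι₁ ι₂ σ : Type} [Fintype ι₁] [Fintype ι₂] [Fintype σ]
    {w₁ : ι₁ → ℕ} {w₂ : ι₂ → ℕ} {S : Set (ℤ × (σ → ℤ))} (hS : S.Finite)
    (hp : ∀ m ∈ S, ∀ j, 0 ≤ m.2 j) (c : ℝ) (b : σ → ℝ)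
    (E₁ : EmpS w₁ {m | m ∈ S ∧ (m.1 : ℝ) < c + ∑ j, b j * (m.2 j : ℝ)})
    (E₂ : EmpS w₂ {m | m ∈ S ∧ c + ∑ j, b j * (m.2 j : ℝ) ≤ (m.1 : ℝ)}) :
    EmpS (Sum.elim w₁ w₂) S := by
  classical
  obtain ⟨U, rfl⟩ := hS.exists_finset_coe
  obtain ⟨N, hN⟩ : ∃ N : ℤ, ∀ m ∈ U, 0 ≤ m.1 + N := by
    obtain ⟨N, hN⟩ := (U.image fun m => -m.1).bddAbove
    refine ⟨N, fun m hm => ?_⟩
    have := hN (Finset.mem_coe.2 (Finset.mem_image_of_mem (fun m : ℤ × (σ → ℤ) => -m.1) hm))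
    linarith
  let φ : ℤ × (σ → ℤ) → ℤ × (σ → ℤ) := fun m => (m.1 + N, m.2)
  let T₁ := (U.filter fun m => (m.1 : ℝ) < c + ∑ j, b j * (m.2 j : ℝ)).image φ
  let T₂ := (U.filter fun m => c + ∑ j, b j * (m.2 j : ℝ) ≤ (m.1 : ℝ)).image φ
  have q₁ : ∀ m ∈ T₁, ∃ m' ∈ U, (m'.1 : ℝ) < c + ∑ j, b j * (m'.2 j : ℝ) ∧ φ m' = m := by
    intro m hm
    obtain ⟨m', hm', h⟩ := Finset.mem_image.1 hm
    rw [Finset.mem_filter] at hm'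
    exact ⟨m', hm'.1, hm'.2, h⟩
  have q₂ : ∀ m ∈ T₂, ∃ m' ∈ U, c + ∑ j, b j * (m'.2 j : ℝ) ≤ (m'.1 : ℝ) ∧ φ m' = m := by
    intro m hm
    obtain ⟨m', hm', h⟩ := Finset.mem_image.1 hm
    rw [Finset.mem_filter] at hm'
    exact ⟨m', hm'.1, hm'.2, h⟩
  have F₁ : EmpS w₁ (↑T₁ : Set (ℤ × (σ → ℤ))) := by
    refine E₁.comap 1 (Or.inl rfl) (fun _ => 0) (-N) ?_
    intro m hm
    obtain ⟨m', h1, h2, rfl⟩ := q₁ m (Finset.mem_coe.1 hm)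
    have e : (1 * (φ m').1 + ∑ i : σ, 0 * (φ m').2 i + -N, (φ m').2) = m' := by
      refine Prod.ext ?_ rfl
      simp [φ]
    rw [e]
    exact ⟨Finset.mem_coe.2 h1, h2⟩
  have F₂ : EmpS w₂ (↑T₂ : Set (ℤ × (σ → ℤ))) := by
    refine E₂.comap 1 (Or.inl rfl) (fun _ => 0) (-N) ?_
    intro m hm
    obtain ⟨m', h1, h2, rfl⟩ := q₂ m (Finset.mem_coe.1 hm)
    have e : (1 * (φ m').1 + ∑ i : σ, 0 * (φ m').2 i + -N, (φ m').2) = m' := by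
      refine Prod.ext ?_ rfl
      simp [φ]
    rw [e]
    exact ⟨Finset.mem_coe.2 h1, h2⟩
  have H := EmpS_join_fin T₁ T₂ (fun m hm => by
      obtain ⟨m', h1, h2, rfl⟩ := q₁ m hm
      exact ⟨hN m' h1, hp m' (Finset.mem_coe.2 h1)⟩) (fun m hm => by
      obtain ⟨m', h1, h2, rfl⟩ := q₂ m hm
      exact ⟨hN m' h1, hp m' (Finset.mem_coe.2 h1)⟩) (c + N) b (fun m hm => by
      obtain ⟨m', h1, h2, rfl⟩ := q₁ m hm
      simp only [φ]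
      push_cast
      linarith) (fun m hm => by
      obtain ⟨m', h1, h2, rfl⟩ := q₂ m hm
      simp only [φ]
      push_cast
      linarith) F₁ F₂
  refine H.comap 1 (Or.inl rfl) (fun _ => 0) N ?_
  intro m hm
  have e : (1 * m.1 + ∑ i : σ, 0 * m.2 i + N, m.2) = φ m := by
    refine Prod.ext ?_ rfl
    simp [φ]
  rw [e]
  rcases lt_or_ge (m.1 : ℝ) (c + ∑ j, b j * (m.2 j : ℝ)) with h | h
  · exact Or.inl (Finset.mem_coe.2 (Finset.mem_image_of_mem _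
      (Finset.mem_filter.2 ⟨Finset.mem_coe.1 hm, h⟩)))
  · exact Or.inr (Finset.mem_coe.2 (Finset.mem_image_of_mem _
      (Finset.mem_filter.2 ⟨Finset.mem_coe.1 hm, h⟩)))

/-- **Join**, rank version. -/
theorem SurS_join {ι₁ ι₂ σ : Type} [Fintype ι₁] [Fintype ι₂] [Fintype σ]
    {w₁ : ι₁ → ℕ} {w₂ : ι₂ → ℕ} {S S₁ S₂ : Set (ℤ × (σ → ℤ))}
    (hp₁ : ∀ m ∈ S₁, ∀ j, 0 ≤ m.2 j) (hp₂ : ∀ m ∈ S₂, ∀ j, 0 ≤ m.2 j)
    (h₁ : S₁ ⊆ S) (h₂ : S₂ ⊆ S) (c : ℝ) (b : σ → ℝ)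
    (s₁ : ∀ m ∈ S₁, (m.1 : ℝ) ≤ c + ∑ j, b j * (m.2 j : ℝ))
    (s₂ : ∀ m ∈ S₂, c + ∑ j, b j * (m.2 j : ℝ) < (m.1 : ℝ))
    (E₁ : SurS w₁ S₁) (E₂ : SurS w₂ S₂) : SurS (Sum.elim w₁ w₂) S := by
  classical
  obtain ⟨T₁, a₁, b₁, c₁⟩ := E₁
  obtain ⟨T₂, a₂, b₂, c₂⟩ := E₂
  have hdisj : Disjoint T₁ T₂ := by
    rw [Finset.disjoint_left]
    intro m h1 h2
    exact absurd (s₁ m (a₁ (Finset.mem_coe.2 h1))) (not_le.2 (s₂ m (a₂ (Finset.mem_coe.2 h2))))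
  obtain ⟨δ, hδ, hδ2⟩ : ∃ δ : ℝ, 0 < δ ∧ ∀ m ∈ T₂, c + δ + ∑ j, b j * (m.2 j : ℝ) ≤ (m.1 : ℝ) := by
    rcases T₂.eq_empty_or_nonempty with h | h
    · exact ⟨1, one_pos, fun m hm => by rw [h] at hm; exact absurd hm (Finset.notMem_empty m)⟩
    · obtain ⟨m0, hm0, hmin⟩ := T₂.exists_min_image
        (fun m => (m.1 : ℝ) - (c + ∑ j, b j * (m.2 j : ℝ))) h
      refine ⟨(m0.1 : ℝ) - (c + ∑ j, b j * (m0.2 j : ℝ)), ?_, fun m hm => ?_⟩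
      · linarith [s₂ m0 (a₂ (Finset.mem_coe.2 hm0))]
      · linarith [hmin m hm]
  refine ⟨T₁ ∪ T₂, ?_, ?_, ?_⟩
  · rw [Finset.coe_union]
    exact Set.union_subset (a₁.trans h₁) (a₂.trans h₂)
  · rw [Finset.card_union_of_disjoint hdisj, b₁, b₂]
    unfold nc
    rw [Fintype.sum_sum_type]
    rfl
  · refine EmpS_join (Finset.finite_toSet _) ?_ (c + δ) b (c₁.mono ?_) (c₂.mono ?_)
    · intro m hm
      rcases Finset.mem_union.1 (Finset.mem_coe.1 hm) with h | h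
      · exact hp₁ m (a₁ (Finset.mem_coe.2 h))
      · exact hp₂ m (a₂ (Finset.mem_coe.2 h))
    · rintro m ⟨hm, h⟩
      rcases Finset.mem_union.1 (Finset.mem_coe.1 hm) with h' | h'
      · exact Finset.mem_coe.2 h'
      · exact absurd (hδ2 m h') (not_le.2 h)
    · rintro m ⟨hm, h⟩
      rcases Finset.mem_union.1 (Finset.mem_coe.1 hm) with h' | h'
      · have := s₁ m (a₁ (Finset.mem_coe.2 h'))
        linarith
      · exact Finset.mem_coe.2 h'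

end Run7.h526.BW
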