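import Pool.Agent.Run7.h526.BW.LenGrp

/-!
# The length version: emptiness
-/

set_option autoImplicit false

namespace Run7.h526.BW

open Finset Pool.Agent.Y55.Col

theorem ps_cons (N a : ℕ) (B : Multiset ℕ) : ps N (a ::ₘ B) = (a : ℝ) ^ N + ps N B := by
  unfold ps
  rw [Multiset.map_cons, Multiset.sum_cons]

theorem ps_rep (N q V : ℕ) : ps N (Multiset.replicate q V) = q * (V : ℝ) ^ N := by
  unfold ps
  rw [Multiset.map_replicate, Multiset.sum_replicate, nsmul_eq_mul]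

theorem ps_ge_ln {n : ℕ} {t : ℝ} {B : Multiset ℕ}
    (h : ∀ a ∈ B, t * (((n + 1).factorial : ℝ) * cnt n a) ≤ (a : ℝ) ^ (n + 1)) :
    t * (((n + 1).factorial : ℝ) * ln n B) ≤ ps (n + 1) B := by
  induction B using Multiset.induction_on with
  | empty => rw [ln_zero]; simp [ps]
  | cons a B ih =>
    rw [ln_cons, ps_cons]
    have h1 := h a (Multiset.mem_cons_self a B)
    have h2 := ih fun b hb => h b (Multiset.mem_cons_of_mem hb)
    push_cast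
    nlinarith

/-- the constants of the groups -/
theorem grp_facts {n μ D : ℕ} (hμ1 : 1 ≤ μ) (hD2 : ((n + 1) * μ) ^ 2 ≤ D) :
    (μ : ℝ) ≤ ((D + 1 : ℕ) : ℝ) ∧
      ((n + 1).factorial : ℝ) * cnt n μ ≤ ((D + 1 : ℕ) : ℝ) ^ (n + 1) / μ := by
  have hμR : (1 : ℝ) ≤ μ := by exact_mod_cast hμ1
  have h0 : μ ≤ (n + 1) * μ := Nat.le_mul_of_pos_left _ (by omega)
  have h1 : (n + 1) * μ ≤ ((n + 1) * μ) ^ 2 := Nat.le_self_pow (by norm_num) _
  refine ⟨by exact_mod_cast (by omega : μ ≤ D + 1), ?_⟩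
  rw [le_div_iff₀ (by linarith)]
  have h2 := cnt_upper n μ
  have h3 : (μ : ℝ) + n ≤ (n + 1) * μ := by
    have : (0 : ℝ) ≤ n := Nat.cast_nonneg n
    nlinarith
  have h4 : ((μ : ℝ) + n) ^ (n + 1) ≤ (((n : ℝ) + 1) * μ) ^ (n + 1) :=
    pow_le_pow_left₀ (by positivity) h3 _
  have h5 : (μ : ℝ) ≤ (((n : ℝ) + 1) * μ) ^ (n + 1) := by
    have h6 : μ ≤ ((n + 1) * μ) ^ (n + 1) :=
      h0.trans (Nat.le_self_pow (by omega) _)
    exact_mod_cast h6
  have h7 : (((n : ℝ) + 1) * μ) ^ (n + 1) * (((n : ℝ) + 1) * μ) ^ (n + 1) ≤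
      ((D + 1 : ℕ) : ℝ) ^ (n + 1) := by
    rw [← mul_pow]
    refine pow_le_pow_left₀ (by positivity) ?_ _
    have h8 : ((n + 1) * μ) * ((n + 1) * μ) ≤ D + 1 := by
      have : ((n + 1) * μ) ^ 2 = ((n + 1) * μ) * ((n + 1) * μ) := sq _
      omega
    exact_mod_cast h8
  calc ((n + 1).factorial : ℝ) * cnt n μ * μ
      ≤ (((n : ℝ) + 1) * μ) ^ (n + 1) * (((n : ℝ) + 1) * μ) ^ (n + 1) :=
        mul_le_mul (h2.trans h4) h5 (by linarith) (by positivity)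
    _ ≤ _ := h7

theorem lenE {n : ℕ} (hn : 1 ≤ n) : ∃ K : ℝ, 0 < K ∧
    ∀ (d M : ℕ) (z : ℝ) (A : Multiset ℕ), 1 ≤ z → (d : ℝ) ≤ z ^ ((n + 1) ^ 2) → 1 ≤ M →
      (∀ a ∈ A, a ≤ M) →
      (d : ℝ) ^ (n + 1) + K * ((M : ℝ) ^ (n + 1) + z ^ ((n + 1) ^ 3 - 1)) ≤
        ((n + 1).factorial : ℝ) * ln n A → Emp (n + 1) (d + 1) A := by
  classical
  obtain ⟨c, hc⟩ : ∃ c : ℕ, c = (n + 1) ^ 2 + 1 := ⟨_, rfl⟩
  obtain ⟨K₁, hK₁, hpar⟩ := params hn (2 * c) (β := (n : ℝ) + 1) (by positivity)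
  obtain ⟨c6, hc6⟩ : ∃ c6 : ℝ, c6 = 6 ^ (n + 1) + 5 * 4 ^ (n + 1) := ⟨_, rfl⟩
  have hc60 : 0 ≤ c6 := by rw [hc6]; positivity
  have hcR : (c : ℝ) = ((n : ℝ) + 1) ^ 2 + 1 := by rw [hc]; push_cast; ring
  have hcR0 : (0 : ℝ) < c := by rw [hcR]; positivity
  refine ⟨2 * (c6 * (1 + K₁) + c + K₁) + 2, by positivity, ?_⟩
  intro d M z A hz hdz hM hA hS
  obtain ⟨μ, D, hμc, hzμ, hμ1, hD, hD2, hDK⟩ := hpar z hz
  obtain ⟨Z, hZ⟩ : ∃ Z : ℝ, Z = z ^ ((n + 1) ^ 3 - 1) := ⟨_, rfl⟩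
  have hZ1 : 1 ≤ Z := by rw [hZ]; exact one_le_pow₀ hz
  have hMR : (1 : ℝ) ≤ M := by exact_mod_cast hM
  have hμR : (1 : ℝ) ≤ μ := by exact_mod_cast hμ1
  have hμcR : 2 * (c : ℝ) ≤ μ := by exact_mod_cast hμc
  rw [← hZ] at hDK hS
  have hxZ : (d : ℝ) ^ (n + 1) ≤ z * Z := by
    have h1 : (d : ℝ) ^ (n + 1) ≤ (z ^ ((n + 1) ^ 2)) ^ (n + 1) :=
      pow_le_pow_left₀ (Nat.cast_nonneg d) hdz _
    have h2 : (z ^ ((n + 1) ^ 2)) ^ (n + 1) = z * Z := by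
      have h3 : (n + 1) ^ 2 * (n + 1) = (n + 1) ^ 3 - 1 + 1 := by
        have : 1 ≤ (n + 1) ^ 3 := Nat.one_le_pow _ _ (by omega)
        rw [Nat.sub_add_cancel this]
        ring
      rw [← pow_mul, hZ, ← pow_succ', h3]
    linarith
  obtain ⟨hμV, F3⟩ := grp_facts (n := n) hμ1 hD2
  obtain ⟨Vp, hVp⟩ : ∃ Vp : ℝ, Vp = ((D + 1 : ℕ) : ℝ) ^ (n + 1) := ⟨_, rfl⟩
  rw [← hVp] at F3
  have hVp0 : 0 < Vp := by rw [hVp]; positivity
  obtain ⟨L, hL⟩ : ∃ L : ℝ, L = ((n + 1).factorial : ℝ) * cnt n (D + 1) := ⟨_, rfl⟩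
  obtain ⟨l, hl⟩ : ∃ l : ℝ, l = ((n + 1).factorial : ℝ) * cnt n μ := ⟨_, rfl⟩
  rw [← hl] at F3
  have F1 : L ≤ K₁ * Z := by
    refine le_trans ?_ hDK
    rw [hL]
    refine (cnt_upper n (D + 1)).trans (le_of_eq ?_)
    push_cast
    ring
  have F2 : Vp ≤ L := by rw [hVp, hL]; exact cnt_lower n (D + 1)
  obtain ⟨η, hη⟩ : ∃ η : ℝ, η = c / μ := ⟨_, rfl⟩
  have hη0 : 0 < η := by rw [hη]; positivity
  have hη2 : η ≤ 1 / 2 := by rw [hη, div_le_iff₀ (by linarith)]; linarith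
  have hημ : η * μ = c := by rw [hη]; field_simp
  have hηe : η = ((n : ℝ) + 1) ^ 2 / μ + 1 / μ := by rw [hη, hcR]; ring
  have hμinv : 0 < 1 / (μ : ℝ) := by positivity
  have hlow0 : 0 ≤ 1 - ((n : ℝ) + 1) ^ 2 / μ := by linarith
  have F4 : (1 - ((n : ℝ) + 1) ^ 2 / μ) * L ≤ Vp := by
    have h1 := pw_low (n := n) (μ := μ) (y := ((D + 1 : ℕ) : ℝ)) (by linarith) hμV
    rw [hVp]
    refine le_trans ?_ h1
    refine mul_le_mul_of_nonneg_left ?_ hlow0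
    rw [hL]
    exact cnt_upper n (D + 1)
  have F5 : (1 - η) * (L + l) ≤ Vp := by
    have h1 : (1 - η) * l ≤ Vp / μ := by
      have hl0 : 0 ≤ l := by rw [hl]; positivity
      have : 0 ≤ η * l := mul_nonneg hη0.le hl0
      linarith only [this, F3]
    have h2 : (1 - η) * L = (1 - ((n : ℝ) + 1) ^ 2 / μ) * L - L / μ := by rw [hηe]; ring
    have h3 : Vp / μ ≤ L / μ := div_le_div_of_nonneg_right F2 (by linarith)
    have h4 : (1 - η) * (L + l) = (1 - η) * L + (1 - η) * l := by ring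
    rw [h4, h2]
    linarith only [F4, h1, h3]
  -- small and big points
  obtain ⟨As, hAs⟩ : ∃ As, As = A.filter fun a : ℕ => a ≤ μ := ⟨_, rfl⟩
  obtain ⟨Ab, hAb⟩ : ∃ Ab, Ab = A.filter fun a : ℕ => ¬ a ≤ μ := ⟨_, rfl⟩
  have hA' : A = As + Ab := by rw [hAs, hAb]; exact (Multiset.filter_add_not _ _).symm
  have k1 : ∀ a ∈ As, a ≤ μ := fun a ha => by
    rw [hAs] at ha; exact (Multiset.mem_filter.1 ha).2
  have k2 : ∀ a ∈ Ab, μ < a := fun a ha => by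
    rw [hAb] at ha; exact not_le.1 (Multiset.mem_filter.1 ha).2
  have k3 : ∀ a ∈ Ab, a ≤ M := fun a ha => by
    rw [hAb] at ha; exact hA a (Multiset.mem_filter.1 ha).1
  have hΛ : 1 ≤ cnt n (D + 1) := by
    unfold cnt
    exact Nat.choose_pos (by omega)
  obtain ⟨q, hq1, hq2⟩ := groupsE (n := n) (μ := μ) (V := D + 1) hΛ
    (fun G hG hG' => (eff hn hμ1 hD hG).1 hG') _ As rfl k1
  have F7 : ((n + 1).factorial : ℝ) * ln n As ≤ q * (L + l) + L := by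
    have h1 : (ln n As : ℝ) ≤ q * (cnt n (D + 1) + cnt n μ) + cnt n (D + 1) := by
      exact_mod_cast hq2
    have h2 := mul_le_mul_of_nonneg_left h1 (show (0 : ℝ) ≤ ((n + 1).factorial : ℝ) by positivity)
    rw [hL, hl]
    linarith only [h2]
  have F6 : (1 - η) * (((n + 1).factorial : ℝ) * ln n Ab) ≤ ps (n + 1) Ab := by
    refine ps_ge_ln fun a ha => ?_
    have ha' : (μ : ℝ) ≤ a := by exact_mod_cast (k2 a ha).le
    have h1 := pw_low (n := n) (μ := μ) (y := a) (by linarith) ha'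
    have h2 := cnt_upper n a
    have h3 : 0 ≤ ((n + 1).factorial : ℝ) * cnt n a := by positivity
    calc (1 - η) * (((n + 1).factorial : ℝ) * cnt n a)
        ≤ (1 - ((n : ℝ) + 1) ^ 2 / μ) * (((n + 1).factorial : ℝ) * cnt n a) :=
          mul_le_mul_of_nonneg_right (by linarith only [hηe, hμinv]) h3
      _ ≤ (1 - ((n : ℝ) + 1) ^ 2 / μ) * ((a : ℝ) + n) ^ (n + 1) :=
          mul_le_mul_of_nonneg_left h2 hlow0
      _ ≤ _ := h1
  have hle : LeE (n + 1) (Multiset.replicate q (D + 1) + Ab) A := by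
    rw [hA']
    exact hq1.add (LeE.rfl' _ _)
  obtain ⟨m₀, hm₀⟩ : ∃ m₀ : ℕ, m₀ = max M (D + 1) := ⟨_, rfl⟩
  have hmem : ∀ a ∈ Multiset.replicate q (D + 1) + Ab, a ≤ m₀ := by
    intro a ha
    rw [hm₀]
    rcases Multiset.mem_add.1 ha with h | h
    · rw [Multiset.eq_of_mem_replicate h]; exact le_max_right _ _
    · exact (k3 a h).trans (le_max_left _ _)
  have hm₀p : (m₀ : ℝ) ^ (n + 1) ≤ (M : ℝ) ^ (n + 1) + Vp := by
    rw [hm₀, hVp]
    rcases le_total M (D + 1) with h | h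
    · rw [max_eq_right h]
      have : (0 : ℝ) ≤ (M : ℝ) ^ (n + 1) := by positivity
      linarith
    · rw [max_eq_left h]
      have : (0 : ℝ) ≤ ((D + 1 : ℕ) : ℝ) ^ (n + 1) := by positivity
      linarith
  have hm₀1 : (0 : ℝ) < m₀ := by
    have : 1 ≤ m₀ := by rw [hm₀]; exact hM.trans (le_max_left _ _)
    exact_mod_cast this
  have hEmp : Emp (n + 1) (d + 1) (Multiset.replicate q (D + 1) + Ab) := by
    refine emp_any hn (b := m₀) (D := max (d : ℝ) (6 * m₀)) hm₀1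
      (fun a ha => by exact_mod_cast hmem a ha) (le_max_right _ _) (le_max_left _ _) ?_
    have h1 : (max (d : ℝ) (6 * m₀)) ^ (n + 1) ≤ (d : ℝ) ^ (n + 1) + 6 ^ (n + 1) * (m₀ : ℝ) ^ (n + 1) := by
      rcases le_total (d : ℝ) (6 * m₀) with h | h
      · rw [max_eq_right h, mul_pow]
        have : (0 : ℝ) ≤ (d : ℝ) ^ (n + 1) := by positivity
        linarith
      · rw [max_eq_left h]
        have : (0 : ℝ) ≤ 6 ^ (n + 1) * (m₀ : ℝ) ^ (n + 1) := by positivity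
        linarith
    have h2 : 5 * (4 * (m₀ : ℝ)) ^ (n + 1) = 5 * 4 ^ (n + 1) * (m₀ : ℝ) ^ (n + 1) := by
      rw [mul_pow]; ring
    have h3 : (max (d : ℝ) (6 * m₀)) ^ (n + 1) + 5 * (4 * (m₀ : ℝ)) ^ (n + 1) ≤
        (d : ℝ) ^ (n + 1) + c6 * ((M : ℝ) ^ (n + 1) + K₁ * Z) := by
      have h4 : c6 * (m₀ : ℝ) ^ (n + 1) ≤ c6 * ((M : ℝ) ^ (n + 1) + K₁ * Z) :=
        mul_le_mul_of_nonneg_left (by linarith) hc60
      rw [h2]
      rw [hc6] at h4 ⊢
      linarith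
    refine lt_of_le_of_lt h3 ?_
    rw [ps_add, ps_rep]
    push_cast
    have h5 : (1 - η) * (((n + 1).factorial : ℝ) * ln n As - L) ≤ q * Vp := by
      have h6 : (1 - η) * (((n + 1).factorial : ℝ) * ln n As - L) ≤ (1 - η) * (q * (L + l)) :=
        mul_le_mul_of_nonneg_left (by linarith only [F7]) (by linarith only [hη2])
      have h7 := mul_le_mul_of_nonneg_left F5 (Nat.cast_nonneg (α := ℝ) q)
      have h8 : (1 - η) * (q * (L + l)) = q * ((1 - η) * (L + l)) := by ring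
      rw [h8] at h6
      exact h6.trans h7
    have h8 : ((n + 1).factorial : ℝ) * ln n A =
        ((n + 1).factorial : ℝ) * ln n As + ((n + 1).factorial : ℝ) * ln n Ab := by
      rw [hA', ln_add]; push_cast; ring
    have h9 : (1 - η) * (((n + 1).factorial : ℝ) * ln n A - L) ≤ q * Vp + ps (n + 1) Ab := by
      rw [h8]
      linarith only [h5, F6]
    obtain ⟨U, hU⟩ : ∃ U : ℝ, U = (M : ℝ) ^ (n + 1) + Z := ⟨_, rfl⟩
    have hMp : 0 ≤ (M : ℝ) ^ (n + 1) := by positivity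
    have hU0 : 0 < U := by rw [hU]; linarith only [hMp, hZ1]
    rw [← hU] at hS
    obtain ⟨x, hx⟩ : ∃ x : ℝ, x = (d : ℝ) ^ (n + 1) := ⟨_, rfl⟩
    have hx0 : 0 ≤ x := by rw [hx]; positivity
    rw [← hx] at hxZ hS ⊢
    have h10 : η * x ≤ c * Z := by
      have h11 : η * x ≤ η * (μ * Z) := by
        refine mul_le_mul_of_nonneg_left (hxZ.trans ?_) hη0.le
        exact mul_le_mul_of_nonneg_right hzμ (by linarith)
      rwa [← mul_assoc, hημ] at h11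
    obtain ⟨k, hk⟩ : ∃ k : ℝ, k = c6 * (1 + K₁) + c + K₁ + 1 := ⟨_, rfl⟩
    have hk2 : 2 * (c6 * (1 + K₁) + c + K₁) + 2 = 2 * k := by rw [hk]; ring
    have hk0 : 0 ≤ k := by rw [hk]; positivity
    rw [hk2] at hS
    have h12 : (1 - η) * (x + 2 * k * U - L) ≤
        (1 - η) * (((n + 1).factorial : ℝ) * ln n A - L) :=
      mul_le_mul_of_nonneg_left (by linarith only [hS]) (by linarith only [hη2])
    have hL0 : 0 ≤ L := hVp0.le.trans F2
    have h13 : (1 - η) * L ≤ K₁ * Z := by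
      have : 0 ≤ η * L := mul_nonneg hη0.le hL0
      linarith only [this, F1]
    have h14 : k * U ≤ (1 - η) * (2 * k * U) := by
      have h15 : 0 ≤ k * U := by positivity
      have h16 : η * (2 * (k * U)) ≤ 1 / 2 * (2 * (k * U)) :=
        mul_le_mul_of_nonneg_right hη2 (by linarith only [h15])
      linarith only [h16]
    have h16 : c6 * ((M : ℝ) ^ (n + 1) + K₁ * Z) + c * Z + K₁ * Z < k * U := by
      have g1 : c6 * ((M : ℝ) ^ (n + 1) + K₁ * Z) ≤ c6 * ((1 + K₁) * U) := by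
        refine mul_le_mul_of_nonneg_left ?_ hc60
        rw [hU]
        have : 0 ≤ K₁ * (M : ℝ) ^ (n + 1) := by positivity
        linarith only [this, hZ1]
      have g2 : (c : ℝ) * Z ≤ c * U :=
        mul_le_mul_of_nonneg_left (by rw [hU]; linarith only [hMp]) hcR0.le
      have g3 : K₁ * Z ≤ K₁ * U :=
        mul_le_mul_of_nonneg_left (by rw [hU]; linarith only [hMp]) hK₁
      rw [hk]
      linarith only [g1, g2, g3, hU0]
    have h17 : (1 - η) * (x + 2 * k * U - L) =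
        x - η * x + (1 - η) * (2 * k * U) - (1 - η) * L := by ring
    have h18 : (((D : ℝ) + 1)) ^ (n + 1) = Vp := by rw [hVp]; push_cast; ring
    rw [h18]
    rw [h17] at h12
    linarith only [h9, h10, h12, h13, h14, h16]
  have := hle (d + 1) 0 (by rwa [add_zero])
  rwa [add_zero] at this

end Run7.h526.BW
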