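import Pool.Agent.Run7.h526.BW.Num
import Pool.Agent.Run7.h526.BW.Prod

/-!
# Numbers for the length version
-/

set_option autoImplicit false

namespace Run7.h526.BW

open Finset

/-- the exponent -/
theorem exp_le {n : ℕ} (hn : 1 ≤ n) :
    (n + 1) * (n + 1 + 1) / 2 * (n + 1) + 1 ≤ (n + 1) ^ 3 := by
  have h1 : 2 * ((n + 1) * (n + 1 + 1) / 2) ≤ (n + 1) * (n + 1 + 1) := Nat.mul_div_le _ _
  have h2 : 2 * ((n + 1) * (n + 1 + 1) / 2 * (n + 1)) ≤ (n + 1) * (n + 1 + 1) * (n + 1) := by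
    rw [← mul_assoc]
    exact Nat.mul_le_mul_right _ h1
  have h3 : (n + 1) * (n + 1 + 1) * (n + 1) + 2 ≤ 2 * (n + 1) ^ 3 := by
    obtain ⟨m, rfl⟩ : ∃ m, n = m + 1 := ⟨n - 1, by omega⟩
    ring_nf
    nlinarith
  omega

theorem params {n : ℕ} (hn : 1 ≤ n) (c₀ : ℕ) {β : ℝ} (hβ : 0 ≤ β) :
    ∃ K₁ : ℝ, 0 ≤ K₁ ∧ ∀ z : ℝ, 1 ≤ z → ∃ μ D : ℕ, c₀ ≤ μ ∧ z ≤ μ ∧ 1 ≤ μ ∧
      D = ((n + 1) * μ) ^ ((n + 1) * (n + 1 + 1) / 2) ∧ ((n + 1) * μ) ^ 2 ≤ D ∧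
      ((D : ℝ) + β) ^ (n + 1) ≤ K₁ * z ^ ((n + 1) ^ 3 - 1) := by
  obtain ⟨P, hP⟩ : ∃ P, P = (n + 1) * (n + 1 + 1) / 2 := ⟨_, rfl⟩
  have hPN : P * (n + 1) ≤ (n + 1) ^ 3 - 1 := by
    have := exp_le hn
    rw [← hP] at this
    omega
  have hP2 : 2 ≤ P := by
    rw [hP, Nat.le_div_iff_mul_le (by norm_num)]
    nlinarith
  refine ⟨((1 + β) * (((n : ℝ) + 1) * (c₀ + 3)) ^ P) ^ (n + 1), by positivity, fun z hz => ?_⟩
  obtain ⟨μ, hμ⟩ : ∃ μ : ℕ, μ = c₀ + ⌈z⌉₊ + 1 := ⟨_, rfl⟩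
  have h1 : z ≤ ⌈z⌉₊ := Nat.le_ceil z
  have h2 : (⌈z⌉₊ : ℝ) < z + 1 := Nat.ceil_lt_add_one (by linarith)
  have hμR : (μ : ℝ) = c₀ + ⌈z⌉₊ + 1 := by rw [hμ]; push_cast; ring
  have hc0 : (0 : ℝ) ≤ c₀ := Nat.cast_nonneg _
  have hμz : (μ : ℝ) ≤ (c₀ + 3) * z := by
    rw [hμR]
    nlinarith
  refine ⟨μ, ((n + 1) * μ) ^ P, by omega, by rw [hμR]; linarith, by omega, by rw [hP], ?_, ?_⟩
  · exact Nat.pow_le_pow_right (Nat.mul_pos (by omega) (by omega)) hP2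
  · have hD1 : (1 : ℝ) ≤ ((((n + 1) * μ) ^ P : ℕ) : ℝ) := by
      have : 1 ≤ ((n + 1) * μ) ^ P := Nat.one_le_pow _ _ (Nat.mul_pos (by omega) (by omega))
      exact_mod_cast this
    have h3 : ((((n + 1) * μ) ^ P : ℕ) : ℝ) + β ≤ (1 + β) * ((((n + 1) * μ) ^ P : ℕ) : ℝ) := by
      nlinarith
    have h4 : ((((n + 1) * μ) ^ P : ℕ) : ℝ) ≤ (((n : ℝ) + 1) * (c₀ + 3)) ^ P * z ^ P := by
      rw [← mul_pow]
      push_cast
      refine pow_le_pow_left₀ (by positivity) ?_ _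
      calc ((n : ℝ) + 1) * μ ≤ (n + 1) * ((c₀ + 3) * z) :=
            mul_le_mul_of_nonneg_left hμz (by positivity)
        _ = _ := by ring
    calc (((((n + 1) * μ) ^ P : ℕ) : ℝ) + β) ^ (n + 1)
        ≤ ((1 + β) * ((((n : ℝ) + 1) * (c₀ + 3)) ^ P * z ^ P)) ^ (n + 1) := by
          refine pow_le_pow_left₀ (by positivity) (h3.trans ?_) _
          exact mul_le_mul_of_nonneg_left h4 (by positivity)
      _ = ((1 + β) * (((n : ℝ) + 1) * (c₀ + 3)) ^ P) ^ (n + 1) * z ^ (P * (n + 1)) := by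
          rw [← mul_assoc, mul_pow _ (z ^ P), ← pow_mul]
      _ ≤ _ := mul_le_mul_of_nonneg_left (pow_le_pow_right₀ hz hPN) (by positivity)

/-- lower bound for a power -/
theorem pw_low {n : ℕ} {μ y : ℝ} (hμ : 0 < μ) (hy : μ ≤ y) :
    (1 - ((n : ℝ) + 1) ^ 2 / μ) * (y + n) ^ (n + 1) ≤ y ^ (n + 1) := by
  have hn : (0 : ℝ) ≤ n := Nat.cast_nonneg n
  have hy0 : 0 < y := by linarith
  have h1 := tangent (show 0 ≤ y + n by linarith) hy0.le n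
  refine le_trans ?_ h1
  have h2 : ((n : ℝ) + 1) * n ≤ ((n : ℝ) + 1) ^ 2 / μ * (y + n) := by
    have h3 : ((n : ℝ) + 1) ^ 2 ≤ ((n : ℝ) + 1) ^ 2 / μ * (y + n) := by
      rw [div_mul_eq_mul_div, le_div_iff₀ hμ]
      exact mul_le_mul_of_nonneg_left (by linarith) (by positivity)
    nlinarith
  have h4 := mul_le_mul_of_nonneg_right h2 (show 0 ≤ (y + n) ^ n by positivity)
  have h5 : (1 - ((n : ℝ) + 1) ^ 2 / μ) * (y + n) ^ (n + 1) =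
      (y + n) ^ (n + 1) - ((n : ℝ) + 1) ^ 2 / μ * (y + n) * (y + n) ^ n := by ring
  have h6 : ((n : ℝ) + 1) * (y + n) ^ n * (y - (y + n)) = -(((n : ℝ) + 1) * n * (y + n) ^ n) := by
    ring
  rw [h5, h6]
  linarith

/-- upper bound for a power -/
theorem pw_up {n : ℕ} {μ y α : ℝ} (hμ : 0 < μ) (hα : 0 ≤ α) (hy : μ ≤ y)
    (h : 2 * ((n : ℝ) + 1) * α ≤ μ) :
    (y + α) ^ (n + 1) ≤ (1 + 2 * ((n : ℝ) + 1) * α / μ) * y ^ (n + 1) := by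
  have hy0 : 0 < y := by linarith
  refine (pow_le_lin hα n (h.trans hy)).trans ?_
  have h2 : 2 * ((n : ℝ) + 1) * α ≤ 2 * ((n : ℝ) + 1) * α / μ * y := by
    rw [div_mul_eq_mul_div, le_div_iff₀ hμ]
    exact mul_le_mul_of_nonneg_left hy (by positivity)
  have h4 := mul_le_mul_of_nonneg_right h2 (show 0 ≤ y ^ n by positivity)
  have h5 : (1 + 2 * ((n : ℝ) + 1) * α / μ) * y ^ (n + 1) =
      y ^ (n + 1) + 2 * ((n : ℝ) + 1) * α / μ * y * y ^ n := by ring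
  rw [h5]
  linarith

end Run7.h526.BW
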