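import Pool.Agent.Run7.h526.BW.RoundS
import Pool.Agent.Run7.h526.BW.LenNum
import Pool.Agent.W608.PR.Final

/-!
# Groups of points of small multiplicity
-/

set_option autoImplicit false

namespace Run7.h526.BW

open Finset MvPolynomial Pool.Agent.H938R2 Pool.Agent.Y55.Col

/-- the number of conditions -/
def ln (n : ℕ) (A : Multiset ℕ) : ℕ := (A.map (cnt n)).sum

theorem ln_add (n : ℕ) (A B : Multiset ℕ) : ln n (A + B) = ln n A + ln n B := by
  unfold ln
  rw [Multiset.map_add, Multiset.sum_add]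

theorem ln_cons (n a : ℕ) (B : Multiset ℕ) : ln n (a ::ₘ B) = cnt n a + ln n B := by
  unfold ln
  rw [Multiset.map_cons, Multiset.sum_cons]

theorem ln_zero (n : ℕ) : ln n 0 = 0 := rfl

theorem cnt_mono (n : ℕ) {a b : ℕ} (h : a ≤ b) : cnt n a ≤ cnt n b := by
  unfold cnt
  exact Nat.choose_le_choose _ (by omega)

theorem cnt_prod (n a : ℕ) : ((n + 1).factorial : ℝ) * (cnt n a : ℝ) =
    ∏ i ∈ range (n + 1), ((a : ℝ) + i) := by
  rcases Nat.eq_zero_or_pos a with h | h
  · subst h
    unfold cnt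
    rw [zero_add, Nat.choose_succ_self, Nat.cast_zero, mul_zero]
    symm
    exact Finset.prod_eq_zero (Finset.mem_range.2 (Nat.succ_pos n)) (by simp)
  · exact choose_prod' h n

theorem cnt_upper (n a : ℕ) : ((n + 1).factorial : ℝ) * (cnt n a : ℝ) ≤ ((a : ℝ) + n) ^ (n + 1) := by
  rw [cnt_prod]
  calc ∏ i ∈ range (n + 1), ((a : ℝ) + i) ≤ ∏ _i ∈ range (n + 1), ((a : ℝ) + n) := by
        refine Finset.prod_le_prod (fun i _ => by positivity) fun i hi => ?_
        have : i ≤ n := by have := Finset.mem_range.1 hi; omega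
        have : (i : ℝ) ≤ n := by exact_mod_cast this
        linarith
    _ = _ := by rw [Finset.prod_const, Finset.card_range]

theorem cnt_lower (n a : ℕ) : (a : ℝ) ^ (n + 1) ≤ ((n + 1).factorial : ℝ) * (cnt n a : ℝ) := by
  rw [cnt_prod]
  calc (a : ℝ) ^ (n + 1) = ∏ _i ∈ range (n + 1), (a : ℝ) := by
        rw [Finset.prod_const, Finset.card_range]
    _ ≤ ∏ i ∈ range (n + 1), ((a : ℝ) + i) := by
        refine Finset.prod_le_prod (fun i _ => by positivity) fun i hi => ?_
        have : (0 : ℝ) ≤ i := Nat.cast_nonneg i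
        linarith

theorem eff {n μ D : ℕ} (hn : 1 ≤ n) (hμ : 1 ≤ μ)
    (hD : D = ((n + 1) * μ) ^ ((n + 1) * (n + 1 + 1) / 2)) {A : Multiset ℕ}
    (hA : ∀ a ∈ A, a ≤ μ) :
    (cnt n (D + 1) ≤ ln n A → Emp (n + 1) (D + 1) A) ∧
      (ln n A ≤ cnt n (D + 1) → Ind n (D + 1) A) := by
  obtain ⟨k, w, rfl⟩ := exists_family A
  have hw : ∀ i, w i ≤ μ := fun i => hA _ (Multiset.mem_map_of_mem w (mem_univ_val i))
  have hG := Pool.Agent.W608.PR.G_all ℂ hμ n hn
  have hDd : Pool.Agent.W608.PR.Dd (n + 1) μ = D := hD.symm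
  rw [hDd] at hG
  obtain ⟨F, hF, hF'⟩ := Pool.Agent.W608.PR.all_degrees hμ hG w hw
  obtain ⟨P, hP⟩ := exists_eval hF
  obtain ⟨h1, h2⟩ := hF' P hP D (Or.inl le_rfl)
  have e1 : ln n ((univ : Finset (Fin k)).val.map w) = ∑ i, (w i + n).choose (n + 1) := by
    unfold ln
    rw [Multiset.map_map]
    rfl
  have e2 : cnt n (D + 1) = (D + n + 1).choose (n + 1) := by
    unfold cnt
    congr 1
    omega
  rw [e1, e2]
  constructor
  · intro h
    refine emp_of_point w (fun i => Fin.cons 1 (P i)) (fun i => by simp) ?_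
    refine (finrank_zero_iff _ _).1 ?_
    rw [forms_cons]
    exact (h1 h).finrank
  · intro h
    refine ind_of_point w (fun i => Fin.cons 1 (P i)) (fun i => by simp) ?_
    rw [forms_cons, add_comm]
    exact (h2 h).finrank

theorem take_group {n Λ μ : ℕ} : ∀ A : Multiset ℕ, (∀ a ∈ A, a ≤ μ) → Λ ≤ ln n A →
    ∃ G B, A = G + B ∧ Λ ≤ ln n G ∧ ln n G ≤ Λ + cnt n μ := by
  intro A
  induction A using Multiset.induction_on with
  | empty =>
    intro _ h
    rw [ln_zero] at h
    exact ⟨0, 0, by simp, by rw [ln_zero]; exact h, by rw [ln_zero]; omega⟩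
  | cons a A ih =>
    intro hA h
    rcases le_or_gt Λ (ln n A) with h1 | h1
    · obtain ⟨G, B, h2, h3, h4⟩ := ih (fun b hb => hA b (Multiset.mem_cons_of_mem hb)) h1
      refine ⟨G, a ::ₘ B, ?_, h3, h4⟩
      rw [h2, Multiset.add_cons]
    · refine ⟨a ::ₘ A, 0, by simp, h, ?_⟩
      rw [ln_cons]
      have := cnt_mono n (hA a (Multiset.mem_cons_self a A))
      omega

theorem take_group' {n Λ μ : ℕ} : ∀ A : Multiset ℕ, (∀ a ∈ A, a ≤ μ) → Λ < ln n A →
    ∃ G B, A = G + B ∧ ln n G ≤ Λ ∧ Λ ≤ ln n G + cnt n μ := by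
  intro A
  induction A using Multiset.induction_on with
  | empty =>
    intro _ h
    rw [ln_zero] at h
    omega
  | cons a A ih =>
    intro hA h
    rcases lt_or_ge Λ (ln n A) with h1 | h1
    · obtain ⟨G, B, h2, h3, h4⟩ := ih (fun b hb => hA b (Multiset.mem_cons_of_mem hb)) h1
      refine ⟨G, a ::ₘ B, ?_, h3, h4⟩
      rw [h2, Multiset.add_cons]
    · refine ⟨A, {a}, ?_, h1, ?_⟩
      · rw [add_comm, Multiset.singleton_add]
      · rw [ln_cons] at h
        have := cnt_mono n (hA a (Multiset.mem_cons_self a A))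
        omega

theorem groupsE {n μ Λ V : ℕ} (hΛ : 1 ≤ Λ)
    (h : ∀ G : Multiset ℕ, (∀ a ∈ G, a ≤ μ) → Λ ≤ ln n G → Emp (n + 1) V G) (c : ℕ) :
    ∀ A : Multiset ℕ, A.card = c → (∀ a ∈ A, a ≤ μ) →
      ∃ q, LeE (n + 1) (Multiset.replicate q V) A ∧ ln n A ≤ q * (Λ + cnt n μ) + Λ := by
  induction c using Nat.strong_induction_on with
  | _ c ih =>
    intro A hc hA
    rcases lt_or_ge (ln n A) Λ with h1 | h1
    · exact ⟨0, LeE.zero _ _, by omega⟩
    · obtain ⟨G, B, h2, h3, h4⟩ := take_group A hA h1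
      have hG : G ≠ 0 := by
        rintro rfl
        rw [ln_zero] at h3
        omega
      have hcard : B.card < c := by
        have h5 := congrArg Multiset.card h2
        rw [Multiset.card_add] at h5
        have := Multiset.card_pos.2 hG
        omega
      obtain ⟨q, h5, h6⟩ := ih _ hcard B rfl
        (fun a ha => hA a (by rw [h2]; exact Multiset.mem_add.2 (Or.inr ha)))
      refine ⟨q + 1, ?_, ?_⟩
      · rw [h2, Multiset.replicate_succ, ← Multiset.singleton_add]
        refine LeE.add ?_ h5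
        intro D C hE
        rw [Multiset.singleton_add] at hE
        exact hE.collision (h G
          (fun a ha => hA a (by rw [h2]; exact Multiset.mem_add.2 (Or.inl ha))) h3)
      · rw [h2, ln_add]
        have : (q + 1) * (Λ + cnt n μ) = q * (Λ + cnt n μ) + (Λ + cnt n μ) := by ring
        omega

theorem groupsI {n μ Λ V : ℕ} (hΛ : cnt n μ < Λ)
    (h : ∀ G : Multiset ℕ, (∀ a ∈ G, a ≤ μ) → ln n G ≤ Λ → Ind n V G) (c : ℕ) :
    ∀ A : Multiset ℕ, A.card = c → (∀ a ∈ A, a ≤ μ) →
      ∃ q, LeI n (Multiset.replicate q V) A ∧ q * Λ ≤ ln n A + q * cnt n μ + Λ := by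
  have key : ∀ G : Multiset ℕ, (∀ a ∈ G, a ≤ μ) → ln n G ≤ Λ → LeI n {V} G := by
    intro G h1 h2 D C hE
    rw [Multiset.singleton_add] at hE
    exact hE.collision (h G h1 h2)
  induction c using Nat.strong_induction_on with
  | _ c ih =>
    intro A hc hA
    rcases le_or_gt (ln n A) Λ with h1 | h1
    · refine ⟨1, ?_, by omega⟩
      rw [Multiset.replicate_one]
      exact key A hA h1
    · obtain ⟨G, B, h2, h3, h4⟩ := take_group' A hA h1
      have hG : G ≠ 0 := by
        rintro rfl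
        rw [ln_zero] at h4
        omega
      have hcard : B.card < c := by
        have h5 := congrArg Multiset.card h2
        rw [Multiset.card_add] at h5
        have := Multiset.card_pos.2 hG
        omega
      obtain ⟨q, h5, h6⟩ := ih _ hcard B rfl
        (fun a ha => hA a (by rw [h2]; exact Multiset.mem_add.2 (Or.inr ha)))
      refine ⟨q + 1, ?_, ?_⟩
      · rw [h2, Multiset.replicate_succ, ← Multiset.singleton_add]
        exact LeI.add (key G
          (fun a ha => hA a (by rw [h2]; exact Multiset.mem_add.2 (Or.inl ha))) h3) h5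
      · rw [h2, ln_add]
        have e1 : (q + 1) * Λ = q * Λ + Λ := by ring
        have e2 : (q + 1) * cnt n μ = q * cnt n μ + cnt n μ := by ring
        omega

end Run7.h526.BW
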