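import Pool.Agent.Run7.h526.BW.LenE

/-!
# The length version: independence
-/

set_option autoImplicit false

namespace Run7.h526.BW

open Finset Pool.Agent.Y55.Col

theorem qs_cons (n a : ℕ) (B : Multiset ℕ) :
    qs n (a ::ₘ B) = ((a : ℝ) + (3 * n + 1)) ^ (n + 1) + qs n B := by
  unfold qs
  rw [Multiset.map_cons, Multiset.sum_cons]

theorem qs_rep (n q V : ℕ) :
    qs n (Multiset.replicate q V) = q * ((V : ℝ) + (3 * n + 1)) ^ (n + 1) := by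
  unfold qs
  rw [Multiset.map_replicate, Multiset.sum_replicate, nsmul_eq_mul]

theorem qs_le_ln {n : ℕ} {t : ℝ} {B : Multiset ℕ}
    (h : ∀ a ∈ B, ((a : ℝ) + (3 * n + 1)) ^ (n + 1) ≤ t * (((n + 1).factorial : ℝ) * cnt n a)) :
    qs n B ≤ t * (((n + 1).factorial : ℝ) * ln n B) := by
  induction B using Multiset.induction_on with
  | empty => rw [ln_zero]; simp [qs]
  | cons a B ih =>
    rw [ln_cons, qs_cons]
    have h1 := h a (Multiset.mem_cons_self a B)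
    have h2 := ih fun b hb => h b (Multiset.mem_cons_of_mem hb)
    push_cast
    nlinarith

theorem forms_up {n : ℕ} {d : ℕ} {z : ℝ} (hz : 1 ≤ z) (hdz : (d : ℝ) ≤ z ^ ((n + 1) ^ 2)) :
    ((d : ℝ) + (n + 1)) ^ (n + 1) ≤ (d : ℝ) ^ (n + 1) +
      ((2 * ((n : ℝ) + 1) ^ 2 + (n + 1)) ^ (n + 1) + 2 * ((n : ℝ) + 1) ^ 2) *
        z ^ ((n + 1) ^ 3 - 1) := by
  have hZ1 : 1 ≤ z ^ ((n + 1) ^ 3 - 1) := one_le_pow₀ hz
  have hdn : (d : ℝ) ^ n ≤ z ^ ((n + 1) ^ 3 - 1) := by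
    calc (d : ℝ) ^ n ≤ (z ^ ((n + 1) ^ 2)) ^ n := pow_le_pow_left₀ (Nat.cast_nonneg d) hdz _
      _ = z ^ ((n + 1) ^ 2 * n) := (pow_mul _ _ _).symm
      _ ≤ _ := by
        refine pow_le_pow_right₀ hz ?_
        have : (n + 1) ^ 3 = (n + 1) ^ 2 * n + (n + 1) ^ 2 := by ring
        have h1 : 1 ≤ (n + 1) ^ 2 := Nat.one_le_pow _ _ (by omega)
        omega
  obtain ⟨Z, hZ⟩ : ∃ Z : ℝ, Z = z ^ ((n + 1) ^ 3 - 1) := ⟨_, rfl⟩
  rw [← hZ] at hZ1 hdn ⊢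
  have hx0 : 0 ≤ (d : ℝ) ^ (n + 1) := by positivity
  have hc0 : 0 ≤ (2 * ((n : ℝ) + 1) ^ 2 + (n + 1)) ^ (n + 1) := by positivity
  rcases le_or_gt (2 * ((n : ℝ) + 1) * (n + 1)) d with h | h
  · have h1 := pow_le_lin (x := (d : ℝ)) (a := (n : ℝ) + 1) (by positivity) n h
    have h2 : 2 * ((n : ℝ) + 1) * (n + 1) * (d : ℝ) ^ n ≤ 2 * ((n : ℝ) + 1) * (n + 1) * Z :=
      mul_le_mul_of_nonneg_left hdn (by positivity)
    have h3 : 0 ≤ (2 * ((n : ℝ) + 1) ^ 2 + (n + 1)) ^ (n + 1) * Z := by positivity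
    nlinarith
  · have h1 : ((d : ℝ) + (n + 1)) ^ (n + 1) ≤ (2 * ((n : ℝ) + 1) ^ 2 + (n + 1)) ^ (n + 1) :=
      pow_le_pow_left₀ (by positivity) (by nlinarith) _
    have h2 : (2 * ((n : ℝ) + 1) ^ 2 + (n + 1)) ^ (n + 1) ≤
        (2 * ((n : ℝ) + 1) ^ 2 + (n + 1)) ^ (n + 1) * Z := le_mul_of_one_le_right hc0 hZ1
    have h3 : 0 ≤ 2 * ((n : ℝ) + 1) ^ 2 * Z := by positivity
    nlinarith

theorem lenS {n : ℕ} (hn : 1 ≤ n) : ∃ K : ℝ, 0 < K ∧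
    ∀ (d M : ℕ) (z : ℝ) (A : Multiset ℕ), 1 ≤ z → (d : ℝ) ≤ z ^ ((n + 1) ^ 2) → 1 ≤ M →
      (∀ a ∈ A, a ≤ M) →
      ((n + 1).factorial : ℝ) * ln n A + K * ((M : ℝ) ^ (n + 1) + z ^ ((n + 1) ^ 3 - 1)) ≤
        ((d : ℝ) + (n + 1)) ^ (n + 1) → Ind n (d + 1) A := by
  classical
  obtain ⟨α, hα⟩ : ∃ α : ℝ, α = 3 * (n : ℝ) + 1 := ⟨_, rfl⟩
  have hα0 : 0 ≤ α := by rw [hα]; positivity
  obtain ⟨c₀, hc₀⟩ : ∃ c₀ : ℕ, c₀ = 2 * (n + 1) * (3 * n + 1) + 2 := ⟨_, rfl⟩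
  have hc₀R : (c₀ : ℝ) = 2 * ((n : ℝ) + 1) * α + 2 := by rw [hc₀, hα]; push_cast; ring
  obtain ⟨K₁, hK₁, hpar⟩ := params hn c₀ (β := 3 * (n : ℝ) + 2) (by positivity)
  obtain ⟨c, hc⟩ : ∃ c : ℝ, c = 6 * ((n : ℝ) + 1) * α + 2 := ⟨_, rfl⟩
  have hc0 : 0 ≤ c := by rw [hc]; positivity
  obtain ⟨K₂, hK₂⟩ : ∃ K₂ : ℝ,
    K₂ = (2 * ((n : ℝ) + 1) ^ 2 + (n + 1)) ^ (n + 1) + 2 * ((n : ℝ) + 1) ^ 2 := ⟨_, rfl⟩
  have hK₂0 : 0 ≤ K₂ := by rw [hK₂]; positivity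
  obtain ⟨e8, he8⟩ : ∃ e8 : ℝ, e8 = 5 * 8 ^ (n + 1) := ⟨_, rfl⟩
  have he80 : 0 ≤ e8 := by rw [he8]; positivity
  obtain ⟨e12, he12⟩ : ∃ e12 : ℝ, e12 = 12 ^ (n + 1) := ⟨_, rfl⟩
  have he120 : 0 ≤ e12 := by rw [he12]; positivity
  refine ⟨K₂ + c * (1 + K₂) + (1 + c) * K₁ + e8 * (1 + K₁) + e12 * (1 + K₁) + 1, by positivity, ?_⟩
  intro d M z A hz hdz hM hA hS
  obtain ⟨μ, D, hμc, hzμ, hμ1, hD, hD2, hDK⟩ := hpar z hz
  have hup := forms_up (n := n) hz hdz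
  have hxZ : (d : ℝ) ^ (n + 1) ≤ z * z ^ ((n + 1) ^ 3 - 1) := by
    have h1 : (d : ℝ) ^ (n + 1) ≤ (z ^ ((n + 1) ^ 2)) ^ (n + 1) :=
      pow_le_pow_left₀ (Nat.cast_nonneg d) hdz _
    have h2 : (z ^ ((n + 1) ^ 2)) ^ (n + 1) = z * z ^ ((n + 1) ^ 3 - 1) := by
      have h3 : (n + 1) ^ 2 * (n + 1) = (n + 1) ^ 3 - 1 + 1 := by
        have : 1 ≤ (n + 1) ^ 3 := Nat.one_le_pow _ _ (by omega)
        rw [Nat.sub_add_cancel this]
        ring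
      rw [← pow_mul, ← pow_succ', h3]
    linarith
  obtain ⟨Z, hZ⟩ : ∃ Z : ℝ, Z = z ^ ((n + 1) ^ 3 - 1) := ⟨_, rfl⟩
  have hZ1 : 1 ≤ Z := by rw [hZ]; exact one_le_pow₀ hz
  have hMR : (1 : ℝ) ≤ M := by exact_mod_cast hM
  have hμR : (1 : ℝ) ≤ μ := by exact_mod_cast hμ1
  have hμcR : 2 * ((n : ℝ) + 1) * α + 2 ≤ μ := by rw [← hc₀R]; exact_mod_cast hμc
  rw [← hZ] at hDK hS hup hxZ
  rw [← hK₂] at hup
  obtain ⟨x, hx⟩ : ∃ x : ℝ, x = (d : ℝ) ^ (n + 1) := ⟨_, rfl⟩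
  have hx0 : 0 ≤ x := by rw [hx]; positivity
  rw [← hx] at hup hxZ
  obtain ⟨hμV, F3⟩ := grp_facts (n := n) hμ1 hD2
  obtain ⟨Vp, hVp⟩ : ∃ Vp : ℝ, Vp = ((D + 1 : ℕ) : ℝ) ^ (n + 1) := ⟨_, rfl⟩
  rw [← hVp] at F3
  have hVp0 : 0 < Vp := by rw [hVp]; positivity
  obtain ⟨L, hL⟩ : ∃ L : ℝ, L = ((n + 1).factorial : ℝ) * cnt n (D + 1) := ⟨_, rfl⟩
  obtain ⟨l, hl⟩ : ∃ l : ℝ, l = ((n + 1).factorial : ℝ) * cnt n μ := ⟨_, rfl⟩
  rw [← hl] at F3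
  have hn0 : (0 : ℝ) ≤ n := Nat.cast_nonneg n
  have F1 : L ≤ K₁ * Z := by
    refine le_trans ?_ hDK
    rw [hL]
    refine (cnt_upper n (D + 1)).trans (pow_le_pow_left₀ (by positivity) ?_ _)
    push_cast
    linarith
  have F2 : Vp ≤ L := by rw [hVp, hL]; exact cnt_lower n (D + 1)
  have hL0 : 0 ≤ L := hVp0.le.trans F2
  have hμinv : 0 < 1 / (μ : ℝ) := by positivity
  have hμinv2 : 1 / (μ : ℝ) ≤ 1 / 2 := by
    refine one_div_le_one_div_of_le (by norm_num) ?_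
    have : 0 ≤ 2 * ((n : ℝ) + 1) * α := by positivity
    linarith
  -- small and big points
  obtain ⟨As, hAs⟩ : ∃ As, As = A.filter fun a : ℕ => a ≤ μ := ⟨_, rfl⟩
  obtain ⟨Ab, hAb⟩ : ∃ Ab, Ab = A.filter fun a : ℕ => ¬ a ≤ μ := ⟨_, rfl⟩
  have hA' : A = As + Ab := by rw [hAs, hAb]; exact (Multiset.filter_add_not _ _).symm
  have k1 : ∀ a ∈ As, a ≤ μ := fun a ha => by
    rw [hAs] at ha; exact (Multiset.mem_filter.1 ha).2
  have k2 : ∀ a ∈ Ab, μ < a := fun a ha => by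
    rw [hAb] at ha; exact not_le.1 (Multiset.mem_filter.1 ha).2
  have k3 : ∀ a ∈ Ab, a ≤ M := fun a ha => by
    rw [hAb] at ha; exact hA a (Multiset.mem_filter.1 ha).1
  have hlL : l < L := by
    have h1 : Vp / μ ≤ Vp / 2 := div_le_div_of_nonneg_left hVp0.le (by norm_num) (by
      have : 0 ≤ 2 * ((n : ℝ) + 1) * α := by positivity
      linarith only [this, hμcR])
    linarith only [h1, F2, F3, hVp0]
  have hΛ : cnt n μ < cnt n (D + 1) := by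
    have h1 : (0 : ℝ) < ((n + 1).factorial : ℝ) := by exact_mod_cast Nat.factorial_pos _
    rw [hl, hL] at hlL
    have h2 := lt_of_mul_lt_mul_left hlL h1.le
    exact_mod_cast h2
  obtain ⟨q, hq1, hq2⟩ := groupsI (n := n) (μ := μ) (V := D + 1) hΛ
    (fun G hG hG' => (eff hn hμ1 hD hG).2 hG') _ As rfl k1
  obtain ⟨sA, hsA⟩ : ∃ sA : ℝ, sA = ((n + 1).factorial : ℝ) * ln n As := ⟨_, rfl⟩
  obtain ⟨sB, hsB⟩ : ∃ sB : ℝ, sB = ((n + 1).factorial : ℝ) * ln n Ab := ⟨_, rfl⟩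
  have hsA0 : 0 ≤ sA := by rw [hsA]; positivity
  have hsB0 : 0 ≤ sB := by rw [hsB]; positivity
  have hsum : ((n + 1).factorial : ℝ) * ln n A = sA + sB := by
    rw [hsA, hsB, hA', ln_add]; push_cast; ring
  rw [hsum] at hS
  have F7 : q * (L - l) ≤ sA + L := by
    have h1 : (q : ℝ) * cnt n (D + 1) ≤ ln n As + q * cnt n μ + cnt n (D + 1) := by
      exact_mod_cast hq2
    have h2 := mul_le_mul_of_nonneg_left h1 (show (0 : ℝ) ≤ ((n + 1).factorial : ℝ) by positivity)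
    rw [hL, hl, hsA]
    linarith
  have hq0 : (0 : ℝ) ≤ q := Nat.cast_nonneg q
  have F8 : q * Vp ≤ (1 + 2 / μ) * (sA + L) := by
    have h1 : q * (Vp - Vp / μ) ≤ sA + L := by
      refine le_trans (mul_le_mul_of_nonneg_left ?_ hq0) F7
      linarith only [F2, F3]
    have h2 := mul_le_mul_of_nonneg_left h1 (show (0 : ℝ) ≤ 1 + 2 / μ by positivity)
    have h3 : (1 + 2 / (μ : ℝ)) * (q * (Vp - Vp / μ)) =
        q * Vp * ((1 + 2 * (1 / μ)) * (1 - 1 / μ)) := by ring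
    have h4 : 1 ≤ (1 + 2 * (1 / (μ : ℝ))) * (1 - 1 / μ) := by
      nlinarith only [hμinv, hμinv2]
    have h5 : q * Vp ≤ q * Vp * ((1 + 2 * (1 / μ)) * (1 - 1 / μ)) :=
      le_mul_of_one_le_right (by positivity) h4
    linarith only [h2, h3, h5]
  have F4 : (((D + 1 : ℕ) : ℝ) + α) ^ (n + 1) ≤ (1 + 2 * ((n : ℝ) + 1) * α / μ) * Vp := by
    rw [hVp]
    exact pw_up (by linarith only [hμR]) hα0 hμV (by linarith only [hμcR])
  have F6 : qs n Ab ≤ (1 + 2 * ((n : ℝ) + 1) * α / μ) * sB := by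
    rw [hsB]
    refine qs_le_ln fun a ha => ?_
    have ha' : (μ : ℝ) ≤ a := by exact_mod_cast (k2 a ha).le
    have h1 := pw_up (n := n) (μ := μ) (y := a) (by linarith only [hμR]) hα0 ha'
      (by linarith only [hμcR])
    have h2 : ((a : ℝ) + (3 * n + 1)) ^ (n + 1) ≤
        (1 + 2 * ((n : ℝ) + 1) * α / μ) * (a : ℝ) ^ (n + 1) := by
      rw [← hα]
      exact h1
    refine h2.trans (mul_le_mul_of_nonneg_left (cnt_lower n a) ?_)
    positivity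
  obtain ⟨τ, hτ⟩ : ∃ τ : ℝ, τ = 2 * ((n : ℝ) + 1) * α / μ := ⟨_, rfl⟩
  have hτ0 : 0 ≤ τ := by rw [hτ]; positivity
  rw [← hτ] at F4 F6
  obtain ⟨η, hη⟩ : ∃ η : ℝ, η = c / μ := ⟨_, rfl⟩
  have hη0 : 0 ≤ η := by rw [hη]; positivity
  have hημ : η * μ = c := by rw [hη]; field_simp
  have hηc : η ≤ c := by
    rw [hη]
    exact div_le_self hc0 hμR
  have hprod : (1 + τ) * (1 + 2 / μ) ≤ 1 + η := by
    have h1 : η = 3 * τ + 2 / μ := by rw [hη, hc, hτ]; ring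
    have h2 : 2 / (μ : ℝ) ≤ 1 := by
      have : 2 / (μ : ℝ) = 2 * (1 / μ) := by ring
      linarith only [this, hμinv2]
    have h3 : 0 ≤ 2 / (μ : ℝ) := by positivity
    rw [h1]
    have h4 : τ * (2 / (μ : ℝ)) ≤ τ * 1 := mul_le_mul_of_nonneg_left h2 hτ0
    have h5 : (1 + τ) * (1 + 2 / (μ : ℝ)) = 1 + τ + 2 / μ + τ * (2 / μ) := by ring
    rw [h5]
    linarith only [h4, hτ0]
  have F9 : qs n (Multiset.replicate q (D + 1) + Ab) ≤ (1 + η) * (sA + sB + L) := by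
    rw [qs_add, qs_rep, ← hα]
    have h1 := mul_le_mul_of_nonneg_left F4 hq0
    have h2 : q * ((1 + τ) * Vp) ≤ (1 + τ) * ((1 + 2 / μ) * (sA + L)) := by
      have := mul_le_mul_of_nonneg_left F8 (show 0 ≤ 1 + τ by linarith only [hτ0])
      have e : q * ((1 + τ) * Vp) = (1 + τ) * (q * Vp) := by ring
      rw [e]
      exact this
    have h3 : (1 + τ) * ((1 + 2 / μ) * (sA + L)) ≤ (1 + η) * (sA + L) := by
      rw [← mul_assoc]
      exact mul_le_mul_of_nonneg_right hprod (by linarith only [hsA0, hL0])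
    have h4 : (1 + τ) * sB ≤ (1 + η) * sB := by
      refine mul_le_mul_of_nonneg_right ?_ hsB0
      have : 1 + τ ≤ (1 + τ) * (1 + 2 / μ) :=
        le_mul_of_one_le_right (by linarith only [hτ0]) (by
          have : 0 ≤ 2 / (μ : ℝ) := by positivity
          linarith only [this])
      exact this.trans hprod
    have h5 : (1 + η) * (sA + sB + L) = (1 + η) * (sA + L) + (1 + η) * sB := by ring
    rw [h5]
    linarith only [h1, h2, h3, h4, F6]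
  obtain ⟨U, hU⟩ : ∃ U : ℝ, U = (M : ℝ) ^ (n + 1) + Z := ⟨_, rfl⟩
  have hMp : 0 ≤ (M : ℝ) ^ (n + 1) := by positivity
  have hU0 : 0 < U := by rw [hU]; linarith only [hMp, hZ1]
  have hZU : Z ≤ U := by rw [hU]; linarith only [hMp]
  rw [← hU] at hS
  obtain ⟨m₀, hm₀⟩ : ∃ m₀ : ℕ, m₀ = max M (D + 1) := ⟨_, rfl⟩
  have hmem : ∀ a ∈ Multiset.replicate q (D + 1) + Ab, a ≤ m₀ := by
    intro a ha
    rw [hm₀]
    rcases Multiset.mem_add.1 ha with h | h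
    · rw [Multiset.eq_of_mem_replicate h]; exact le_max_right _ _
    · exact (k3 a h).trans (le_max_left _ _)
  obtain ⟨b, hb⟩ : ∃ b : ℝ, b = (m₀ : ℝ) + (3 * n + 1) := ⟨_, rfl⟩
  have hb0 : 0 < b := by rw [hb]; positivity
  have hbp : b ^ (n + 1) ≤ 2 ^ (n + 1) * ((1 + K₁) * U) := by
    have h1 : b ≤ 2 * max (M : ℝ) ((D : ℝ) + (3 * n + 2)) := by
      have h2 : (m₀ : ℝ) ≤ (M : ℝ) + (D + 1) := by
        have : m₀ ≤ M + (D + 1) := by rw [hm₀]; exact max_le (by omega) (by omega)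
        exact_mod_cast this
      have h3 := le_max_left (M : ℝ) ((D : ℝ) + (3 * n + 2))
      have h4 := le_max_right (M : ℝ) ((D : ℝ) + (3 * n + 2))
      rw [hb]
      linarith only [h2, h3, h4]
    have h5 : (max (M : ℝ) ((D : ℝ) + (3 * n + 2))) ^ (n + 1) ≤ (1 + K₁) * U := by
      have h6 : (M : ℝ) ^ (n + 1) + K₁ * Z ≤ (1 + K₁) * U := by
        rw [hU]
        have : 0 ≤ K₁ * (M : ℝ) ^ (n + 1) := by positivity
        have e : (1 + K₁) * ((M : ℝ) ^ (n + 1) + Z) =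
          (M : ℝ) ^ (n + 1) + K₁ * Z + (Z + K₁ * (M : ℝ) ^ (n + 1)) := by ring
        rw [e]
        linarith only [this, hZ1]
      rcases le_total (M : ℝ) ((D : ℝ) + (3 * n + 2)) with h | h
      · rw [max_eq_right h]
        linarith only [hDK, h6, hMp]
      · rw [max_eq_left h]
        have : 0 ≤ K₁ * Z := by positivity
        linarith only [this, h6]
    calc b ^ (n + 1) ≤ (2 * max (M : ℝ) ((D : ℝ) + (3 * n + 2))) ^ (n + 1) :=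
          pow_le_pow_left₀ hb0.le h1 _
      _ = 2 ^ (n + 1) * (max (M : ℝ) ((D : ℝ) + (3 * n + 2))) ^ (n + 1) := mul_pow _ _ _
      _ ≤ _ := mul_le_mul_of_nonneg_left h5 (by positivity)
  have hKU : (K₂ + c * (1 + K₂) + (1 + c) * K₁ + e8 * (1 + K₁) + e12 * (1 + K₁) + 1) * U ≤
      x + K₂ * Z - (sA + sB) := by linarith only [hS, hup]
  have hK₂Z : K₂ * Z ≤ K₂ * U := mul_le_mul_of_nonneg_left hZU hK₂0
  have hle : LeI n (Multiset.replicate q (D + 1) + Ab) A := by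
    rw [hA']
    exact hq1.add (LeI.rfl' _ _)
  obtain ⟨a1, ha1⟩ : ∃ a1 : ℝ, a1 = c * (1 + K₂) * U := ⟨_, rfl⟩
  obtain ⟨a2, ha2⟩ : ∃ a2 : ℝ, a2 = (1 + c) * K₁ * U := ⟨_, rfl⟩
  obtain ⟨a3, ha3⟩ : ∃ a3 : ℝ, a3 = e8 * (1 + K₁) * U := ⟨_, rfl⟩
  obtain ⟨a4, ha4⟩ : ∃ a4 : ℝ, a4 = e12 * (1 + K₁) * U := ⟨_, rfl⟩
  have p1 : 0 ≤ a1 := by rw [ha1]; positivity
  have p2 : 0 ≤ a2 := by rw [ha2]; positivity
  have p3 : 0 ≤ a3 := by rw [ha3]; positivity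
  have p4 : 0 ≤ a4 := by rw [ha4]; positivity
  have hKU' : K₂ * U + a1 + a2 + a3 + a4 + U ≤ x + K₂ * Z - (sA + sB) := by
    refine le_trans (le_of_eq ?_) hKU
    rw [ha1, ha2, ha3, ha4]
    ring
  have hsAB : sA + sB ≤ x + K₂ * Z := by
    have : 0 ≤ K₂ * U := by positivity
    linarith only [hKU', p1, p2, p3, p4, hU0, this]
  have q1 : (6 : ℝ) ^ (n + 1) * b ^ (n + 1) ≤ a4 := by
    have h1 := mul_le_mul_of_nonneg_left hbp (show (0 : ℝ) ≤ 6 ^ (n + 1) by positivity)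
    refine h1.trans (le_of_eq ?_)
    rw [ha4, he12]
    have : (12 : ℝ) ^ (n + 1) = 6 ^ (n + 1) * 2 ^ (n + 1) := by rw [← mul_pow]; norm_num
    rw [this]
    ring
  have q2 : 5 * ((4 : ℝ) ^ (n + 1) * b ^ (n + 1)) ≤ a3 := by
    have h1 := mul_le_mul_of_nonneg_left hbp (show (0 : ℝ) ≤ 5 * 4 ^ (n + 1) by positivity)
    have h2 : 5 * ((4 : ℝ) ^ (n + 1) * b ^ (n + 1)) = 5 * 4 ^ (n + 1) * b ^ (n + 1) := by ring
    rw [h2]
    refine h1.trans (le_of_eq ?_)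
    rw [ha3, he8]
    have : (8 : ℝ) ^ (n + 1) = 4 ^ (n + 1) * 2 ^ (n + 1) := by rw [← mul_pow]; norm_num
    rw [this]
    ring
  have q3 : η * (sA + sB) ≤ a1 := by
    have g1 : η * (sA + sB) ≤ η * (x + K₂ * Z) := mul_le_mul_of_nonneg_left hsAB hη0
    have g2 : η * x ≤ c * Z := by
      have g3 : η * x ≤ η * (μ * Z) := by
        refine mul_le_mul_of_nonneg_left (hxZ.trans ?_) hη0
        exact mul_le_mul_of_nonneg_right hzμ (by linarith only [hZ1])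
      rwa [← mul_assoc, hημ] at g3
    have g4 : η * (K₂ * Z) ≤ c * (K₂ * Z) :=
      mul_le_mul_of_nonneg_right hηc (by positivity)
    have g5 : c * (1 + K₂) * Z ≤ c * (1 + K₂) * U :=
      mul_le_mul_of_nonneg_left hZU (by positivity)
    rw [ha1]
    refine g1.trans (le_trans ?_ g5)
    have e1 : η * (x + K₂ * Z) = η * x + η * (K₂ * Z) := by ring
    have e2 : c * (1 + K₂) * Z = c * Z + c * (K₂ * Z) := by ring
    rw [e1, e2]
    exact add_le_add g2 g4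
  have q4 : (1 + η) * L ≤ a2 := by
    have h4 : (1 + η) * L ≤ (1 + c) * (K₁ * Z) :=
      mul_le_mul (by linarith only [hηc]) F1 hL0 (by linarith only [hc0])
    have h6 : (1 + c) * K₁ * Z ≤ (1 + c) * K₁ * U :=
      mul_le_mul_of_nonneg_left hZU (by positivity)
    rw [ha2]
    refine h4.trans (le_trans (le_of_eq ?_) h6)
    ring
  have hInd : Ind n (d + 1) (Multiset.replicate q (D + 1) + Ab) := by
    refine ind_any hn (b := b) hb0 (fun a ha => ?_) ?_ ?_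
    · have : (a : ℝ) ≤ m₀ := by exact_mod_cast hmem a ha
      rw [hb]
      linarith only [this]
    · refine le_of_pow_le_pow_left₀ (n := n + 1) (Nat.succ_ne_zero n) (Nat.cast_nonneg d) ?_
      rw [← hx, mul_pow]
      linarith only [q1, hKU', p1, p2, p3, hU0, hK₂Z, hsA0, hsB0]
    · rw [mul_pow, ← hx]
      have e : (1 + η) * (sA + sB + L) = sA + sB + η * (sA + sB) + (1 + η) * L := by ring
      rw [e] at F9
      linarith only [F9, q2, q3, q4, hKU', hU0, hK₂Z, p4]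
  have := hle (d + 1) 0 (by rwa [add_zero])
  rwa [add_zero] at this

end Run7.h526.BW
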