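import Pool.Agent.Run7.h526.BW.Base

/-!
# The three clauses
-/

set_option autoImplicit false

namespace Run7.h526.BW

open MvPolynomial Finset Pool.Agent.H938R2 Pool.Agent.Y55.Col

/-- one point -/
theorem emp_one (E m : ℕ) : Emp E m (Multiset.replicate 1 m) := by
  refine ⟨Fin 1, inferInstance, fun _ => m, fun _ _ => 0, map_const_replicate, fun F hF h => ?_⟩
  exact one le_rfl _ hF (h 0)

/-- independence -/
theorem main1 {n r m d : ℕ} (hn : 1 ≤ n) (hr : 3 ^ (n + 1) ≤ r) (hm : 1 ≤ m) {ρ : ℝ}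
    (hρ0 : 0 ≤ ρ) (hρ : ρ ^ (n + 1) = r)
    (hd : ρ * (m + n / 2) + 110 * ((n : ℝ) + 1) ^ 2 ≤ d) :
    Ind n (d + 1) (Multiset.replicate r m) := by
  have hn1 : (1 : ℝ) ≤ n := by exact_mod_cast hn
  have hρ3 : 3 ≤ ρ := by
    refine le_of_pow_le_pow_left₀ (Nat.succ_ne_zero n) hρ0 ?_
    rw [hρ]
    exact_mod_cast hr
  refine recS hn (famS (m := m) hn) (m := m) ?_ (Y := m + n / 2) rfl
    (C := 216 * ((n : ℝ) + 1)) le_rfl (fun t ht V hV => base1 ht hm hV) r ρ hρ3 hρ (d + 1) ?_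
  · exact ind_one le_rfl
  · push_cast
    nlinarith

/-- emptiness, all multiplicities -/
theorem main2 {n r m d : ℕ} (hn : 1 ≤ n) (hr : 3 ^ (n + 1) ≤ r) (hm : 1 ≤ m) {ρ f : ℝ}
    (hρ0 : 0 ≤ ρ) (hρ : ρ ^ (n + 1) = r) (hf : 0 ≤ f) (hfn : f ^ (n + 1) = (n + 1).factorial)
    (hd : (d : ℝ) ≤ ρ * (m - 1 + f) - 110 * ((n : ℝ) + 1) ^ 2) :
    Emp (n + 1) (d + 1) (Multiset.replicate r m) := by
  have hn1 : (1 : ℝ) ≤ n := by exact_mod_cast hn
  have hm1 : (1 : ℝ) ≤ m := by exact_mod_cast hm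
  have hρ3 : 3 ≤ ρ := by
    refine le_of_pow_le_pow_left₀ (Nat.succ_ne_zero n) hρ0 ?_
    rw [hρ]
    exact_mod_cast hr
  have hf1 := factorial_root n hfn
  refine recA hn (famE (m := m) hn) (m := m) (emp_one _ _) (X := m - 1 + f) (by linarith)
    (by linarith) (T := ⌈ρ⌉₊) (C := 110 * ((n : ℝ) + 1) ^ 2 - 1) rfl
    (fun t ht _ V hV => base2 ht hm hf hfn hV) r ρ hρ3 hρ ?_ (d + 1) ?_
  · have := Nat.le_ceil ρ
    linarith
  · push_cast
    linarith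

/-- emptiness, large multiplicities: `θ = ρ / μ`, `μ ^ (n + 1) = m` -/
theorem main3 {n r m d : ℕ} (hn : 1 ≤ n) (hr : 3 ^ (n + 1) ≤ r) (hm : 1 ≤ m) {ρ μ : ℝ}
    (hρ0 : 0 ≤ ρ) (hρ : ρ ^ (n + 1) = r) (hμ0 : 0 ≤ μ) (hμ : μ ^ (n + 1) = m)
    (hd : (d : ℝ) ≤ ρ * (m + n / 2) - 110 * ((n : ℝ) + 1) ^ 2 * (1 + ρ / μ)) :
    Emp (n + 1) (d + 1) (Multiset.replicate r m) := by
  have hn1 : (1 : ℝ) ≤ n := by exact_mod_cast hn
  have hm1 : (1 : ℝ) ≤ m := by exact_mod_cast hm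
  have hρ3 : 3 ≤ ρ := by
    refine le_of_pow_le_pow_left₀ (Nat.succ_ne_zero n) hρ0 ?_
    rw [hρ]
    exact_mod_cast hr
  have hμ1 : 1 ≤ μ := by
    refine le_of_pow_le_pow_left₀ (Nat.succ_ne_zero n) hμ0 ?_
    rw [hμ, one_pow]
    exact hm1
  obtain ⟨ν, hν0, hν⟩ : ∃ ν : ℝ, 0 ≤ ν ∧ ν ^ (n + 1) = n := by
    refine ⟨(n : ℝ) ^ ((1 : ℝ) / ((n + 1 : ℕ) : ℝ)), by positivity, ?_⟩
    rw [← Real.rpow_natCast, ← Real.rpow_mul (by positivity), one_div_mul_cancel (by positivity),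
      Real.rpow_one]
  have hν2 : ν ≤ 2 := by
    refine le_of_pow_le_pow_left₀ (Nat.succ_ne_zero n) (by norm_num) ?_
    rw [hν]
    have : n ≤ 2 ^ (n + 1) := by
      have := Nat.lt_two_pow_self (n := n)
      rw [pow_succ]
      omega
    exact_mod_cast this
  have hν1 : 1 ≤ ν := by
    refine le_of_pow_le_pow_left₀ (Nat.succ_ne_zero n) hν0 ?_
    rw [hν, one_pow]
    exact hn1
  obtain ⟨T, hT⟩ : ∃ T : ℕ, T = ⌊μ / ν⌋₊ := ⟨_, rfl⟩
  have hT1 : (T : ℝ) ≤ μ / ν := by rw [hT]; exact Nat.floor_le (by positivity)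
  have hT2 : μ / ν < T + 1 := by rw [hT]; exact Nat.lt_floor_add_one _
  have hθ : 0 < ρ / μ := by positivity
  rcases Nat.eq_zero_or_pos T with h0 | hpos
  · -- small multiplicities
    rw [h0] at hT2
    have h1 : μ < 2 := by
      rw [div_lt_iff₀ (by linarith)] at hT2
      push_cast at hT2
      linarith
    have h2 : ρ / 2 ≤ ρ / μ := div_le_div_of_nonneg_left hρ0 (by linarith) h1.le
    refine small (famE (m := m) hn) (emp_one _ _) hρ3 hρ ?_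
    have h3 : (n : ℝ) + 1 ≤ ((n : ℝ) + 1) ^ 2 := by nlinarith
    have h4 : ((n : ℝ) + 1) * (ρ / 2) ≤ ((n : ℝ) + 1) ^ 2 * (ρ / μ) :=
      mul_le_mul h3 h2 (by positivity) (by positivity)
    have h5 : ρ * (m + n / 2) = ρ * m + n * (ρ / 2) := by ring
    push_cast
    rw [h5] at hd
    nlinarith
  · have hTn : n * T ^ (n + 1) ≤ m := by
      have h1 : (T : ℝ) * ν ≤ μ := by rwa [le_div_iff₀ (by linarith)] at hT1
      have h2 : ((T : ℝ) * ν) ^ (n + 1) ≤ μ ^ (n + 1) := pow_le_pow_left₀ (by positivity) h1 _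
      rw [mul_pow, hν, hμ] at h2
      have h3 : (n : ℝ) * T ^ (n + 1) ≤ m := by linarith
      exact_mod_cast h3
    have hT1' : (1 : ℝ) ≤ T := by exact_mod_cast hpos
    have hTμ : μ ≤ 4 * T := by
      rw [div_lt_iff₀ (by linarith)] at hT2
      nlinarith
    have hρT : ρ / T ≤ 4 * (ρ / μ) := by
      rw [div_le_iff₀ (by linarith)]
      have h1 : ρ = ρ / μ * μ := by field_simp
      have h2 : ρ / μ * μ ≤ ρ / μ * (4 * T) := mul_le_mul_of_nonneg_left hTμ hθ.le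
      linarith
    refine recB hn (famE (m := m) hn) (m := m) (emp_one _ _) (X := m + n / 2) (by positivity)
      le_rfl (T := T) hpos (C := 110 * ((n : ℝ) + 1) ^ 2 - 1) rfl
      (fun t ht htT V hV => base3 hn ht (le_trans (Nat.mul_le_mul_left _
        (Nat.pow_le_pow_left htT _)) hTn) hV) r ρ hρ3 hρ (d + 1) ?_
    have h1 : ((n : ℝ) + 1) * (n + 2) * (ρ / T) ≤ 110 * ((n : ℝ) + 1) ^ 2 * (ρ / μ) := by
      calc ((n : ℝ) + 1) * (n + 2) * (ρ / T) ≤ (n + 1) * (n + 2) * (4 * (ρ / μ)) :=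
            mul_le_mul_of_nonneg_left hρT (by positivity)
        _ = ((n + 1) * (n + 2) * 4) * (ρ / μ) := by ring
        _ ≤ 110 * ((n : ℝ) + 1) ^ 2 * (ρ / μ) := by
            refine mul_le_mul_of_nonneg_right ?_ hθ.le
            nlinarith
    push_cast
    linarith

end Run7.h526.BW
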