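import Pool.Agent.Run7.h526.BW.Conv
import Pool.Agent.Run7.h526.BW.ChainS

/-!
# Regions for multisets of multiplicities
-/

set_option autoImplicit false

namespace Run7.h526.BW

open Finset Pool.Agent.TH3.IR

variable {σ : Type} [Fintype σ]

/-- regions are finite -/
theorem regS_finite' {L R s : ℝ} {μ ν : σ → ℝ} (hs : 0 < s) (hsum : ∀ i, μ i + ν i = s) :
    (RegS L R μ ν).Finite := by
  classical
  obtain ⟨c, hc0, hc⟩ : ∃ c : ℝ, 0 ≤ c ∧ ∀ i, |μ i| ≤ c := by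
    rcases isEmpty_or_nonempty σ with h | h
    · exact ⟨0, le_rfl, fun i => (IsEmpty.false i).elim⟩
    · obtain ⟨i0, hi0⟩ := Finite.exists_max fun i => |μ i|
      exact ⟨|μ i0|, abs_nonneg _, hi0⟩
  obtain ⟨B, hB⟩ : ∃ B : ℝ, B = (R - L) / s := ⟨_, rfl⟩
  have hfin : (Set.Icc ⌈L - c * B⌉ ⌊R + (s + c) * B⌋ ×ˢ
      Set.pi Set.univ fun _ : σ => Set.Icc (0 : ℤ) ⌊B⌋).Finite :=
    (Set.finite_Icc _ _).prod (Set.Finite.pi fun i => Set.finite_Icc _ _)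
  refine hfin.subset ?_
  rintro m ⟨h1, h2, h3⟩
  have h1' : ∀ i, (0 : ℝ) ≤ (m.2 i : ℝ) := fun i => by exact_mod_cast h1 i
  have hS0 : 0 ≤ ∑ i, (m.2 i : ℝ) := Finset.sum_nonneg fun i _ => h1' i
  have e3 : ∑ i, ν i * (m.2 i : ℝ) = s * ∑ i, (m.2 i : ℝ) - ∑ i, μ i * (m.2 i : ℝ) := by
    rw [Finset.mul_sum, ← Finset.sum_sub_distrib]
    refine Finset.sum_congr rfl fun i _ => ?_
    have := hsum i
    linear_combination (m.2 i : ℝ) * this
  rw [e3] at h3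
  have h4 : ∑ i, (m.2 i : ℝ) ≤ B := by
    rw [hB, le_div_iff₀ hs]
    linarith
  have h5 : |∑ i, μ i * (m.2 i : ℝ)| ≤ c * ∑ i, (m.2 i : ℝ) := by
    refine (Finset.abs_sum_le_sum_abs _ _).trans ?_
    rw [Finset.mul_sum]
    refine Finset.sum_le_sum fun i _ => ?_
    rw [abs_mul, abs_of_nonneg (h1' i)]
    exact mul_le_mul_of_nonneg_right (hc i) (h1' i)
  have h6 := abs_le.1 h5
  have h7 : c * ∑ i, (m.2 i : ℝ) ≤ c * B := mul_le_mul_of_nonneg_left h4 hc0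
  have h8 : s * ∑ i, (m.2 i : ℝ) ≤ s * B := mul_le_mul_of_nonneg_left h4 hs.le
  refine ⟨⟨?_, ?_⟩, ?_⟩
  · rw [Int.ceil_le]; linarith
  · rw [Int.le_floor]
    have h9 : 0 ≤ s * ∑ i, (m.2 i : ℝ) := mul_nonneg hs.le hS0
    have h10 : 0 ≤ s * B := h9.trans h8
    nlinarith
  · intro i _
    refine ⟨h1 i, ?_⟩
    rw [Int.le_floor]
    exact (Finset.single_le_sum (f := fun i => (m.2 i : ℝ)) (fun j _ => h1' j)
      (Finset.mem_univ i)).trans h4

/-- emptiness for a multiset of multiplicities -/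
def EmpM (σ : Type) [Fintype σ] (M : Multiset ℕ) (S : Set (ℤ × (σ → ℤ))) : Prop :=
  ∃ (ι : Type) (_ : Fintype ι) (w : ι → ℕ), (univ : Finset ι).val.map w = M ∧ EmpS w S

theorem EmpM.rep {ι : Type} [Fintype ι] {w : ι → ℕ} {S : Set (ℤ × (σ → ℤ))}
    (h : EmpM σ ((univ : Finset ι).val.map w) S) : EmpS w S := by
  obtain ⟨ι', _, w', h1, h2⟩ := h
  obtain ⟨e, he⟩ := Pool.Agent.Y55.Col.transport w w' h1.symm
  have h3 := EmpS_equiv e h2
  have h4 : (fun k => w' (e k)) = w := funext he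
  rwa [h4] at h3

/-- height `h` and slope `s` -/
def GE (σ : Type) [Fintype σ] (M : Multiset ℕ) (h s : ℝ) : Prop :=
  ∀ (L R : ℝ) (μ ν : σ → ℝ), R - L < h * s → (∀ i, μ i + ν i = s) → EmpM σ M (RegS L R μ ν)

theorem GE.of_good {ι : Type} [Fintype ι] {w : ι → ℕ} {h s : ℝ} (hs : 1 ≤ s)
    (H : ∀ W < h * s, Asm.Good w W (fun _ : σ => s)) : GE σ ((univ : Finset ι).val.map w) h s :=
  fun _ _ _ _ hW hsum => ⟨ι, inferInstance, w, rfl, good_sheared hs (H _ hW) rfl hsum⟩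

theorem GE.good {ι : Type} [Fintype ι] {w : ι → ℕ} {h s : ℝ}
    (H : GE σ ((univ : Finset ι).val.map w) h s) {W : ℝ} (hW : W < h * s) :
    Asm.Good w W (fun _ : σ => s) :=
  fun L R μ ν _ _ hWW hsum => (H L R μ ν (by rw [hWW]; exact hW) hsum).rep

theorem GE.final {k w : ℕ} (hk : 1 ≤ k) : GE σ (Multiset.replicate k w) w k := by
  have hk1 : (1 : ℝ) ≤ k := by exact_mod_cast hk
  have h := GE.of_good (σ := σ) (w := fun _ : Fin k => w) (h := w) (s := k) hk1 (by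
    intro W hW
    refine good_final ?_ ?_
    · rw [Fintype.card_fin]
    · rw [Fintype.card_fin, mul_comm]
      exact hW)
  rwa [Multiset.map_const', Finset.card_val, Finset.card_univ, Fintype.card_fin] at h

theorem GE.scale {M : Multiset ℕ} {h s lam : ℝ} (hlam : 2 ≤ lam) (hs : 5 / 2 ≤ s)
    (H : GE σ M h (lam ^ (Fintype.card σ + 1) * s)) : GE σ M (lam * h) s := by
  obtain ⟨k, w, rfl⟩ := Pool.Agent.Y55.Col.exists_family M
  refine GE.of_good (by linarith) fun W hW => ?_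
  refine Run7.h526.BW.scale hlam hs (H.good ?_)
  have h1 : lam ^ Fintype.card σ * W < lam ^ Fintype.card σ * (lam * h * s) :=
    mul_lt_mul_of_pos_left hW (by positivity)
  calc lam ^ Fintype.card σ * W < lam ^ Fintype.card σ * (lam * h * s) := h1
    _ = h * (lam ^ (Fintype.card σ + 1) * s) := by ring

theorem GE.join {M₁ M₂ : Multiset ℕ} {h s₁ s₂ : ℝ} (hs₁ : 0 < s₁) (hs₂ : 0 < s₂)
    (H₁ : GE σ M₁ h s₁) (H₂ : GE σ M₂ h s₂) : GE σ (M₁ + M₂) h (s₁ + s₂) := by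
  intro L R μ ν hW hsum
  obtain ⟨h', hh'⟩ : ∃ h' : ℝ, h' = (R - L) / (s₁ + s₂) := ⟨_, rfl⟩
  have hh : R - L = h' * (s₁ + s₂) := by rw [hh']; field_simp
  have hlt : h' < h := by
    rw [hh] at hW
    exact lt_of_mul_lt_mul_right hW (by linarith)
  obtain ⟨ι₁, _, w₁, h1, E₁⟩ := H₁ L (L + h' * s₁) μ (fun i => s₁ - μ i) (by
    rw [add_sub_cancel_left]
    exact mul_lt_mul_of_pos_right hlt hs₁) (fun i => by ring)
  obtain ⟨ι₂, _, w₂, h2, E₂⟩ := H₂ (L + h' * s₁) R (fun i => μ i - s₁) ν (by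
    have : R - (L + h' * s₁) = h' * s₂ := by linarith
    rw [this]
    exact mul_lt_mul_of_pos_right hlt hs₂) (fun i => by linarith [hsum i])
  refine ⟨ι₁ ⊕ ι₂, inferInstance, Sum.elim w₁ w₂, ?_, ?_⟩
  · have h3 : (univ : Finset (ι₁ ⊕ ι₂)).val = (univ : Finset ι₁).val.disjSum
      (univ : Finset ι₂).val := rfl
    rw [h3, Multiset.disjSum, Multiset.map_add, Multiset.map_map, Multiset.map_map, ← h1, ← h2]
    rfl
  · refine EmpS_join (regS_finite' (by linarith) hsum) (fun m hm => hm.1)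
      (L + h' * s₁) (fun i => μ i - s₁) (E₁.mono ?_) (E₂.mono ?_)
    · rintro m ⟨⟨k1, k2, k3⟩, k4⟩
      refine ⟨k1, k2, ?_⟩
      have e : ∑ i, (s₁ - μ i) * (m.2 i : ℝ) = - ∑ i, (μ i - s₁) * (m.2 i : ℝ) := by
        rw [← Finset.sum_neg_distrib]
        exact Finset.sum_congr rfl fun i _ => by ring
      rw [e]
      linarith
    · rintro m ⟨⟨k1, k2, k3⟩, k4⟩
      exact ⟨k1, k4, k3⟩

theorem GE.top [Nonempty σ] {M : Multiset ℕ} {h ρ : ℝ} (hρ : 3 ≤ ρ)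
    (H : GE σ M h (ρ ^ (Fintype.card σ + 1))) {d : ℕ} (hd : (d : ℝ) < ρ * h) :
    EmpM σ M (RegS (0 : ℝ) d (fun _ : σ => 0) (fun _ => 1)) := by
  obtain ⟨k, w, rfl⟩ := Pool.Agent.Y55.Col.exists_family M
  refine ⟨Fin k, inferInstance, w, rfl, Run7.h526.BW.top d hρ (H.good ?_)⟩
  have h1 : ρ ^ Fintype.card σ * d < ρ ^ Fintype.card σ * (ρ * h) :=
    mul_lt_mul_of_pos_left hd (by positivity)
  calc ρ ^ Fintype.card σ * d < ρ ^ Fintype.card σ * (ρ * h) := h1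
    _ = h * ρ ^ (Fintype.card σ + 1) := by ring

theorem emp_of_empM {n d : ℕ} {M : Multiset ℕ}
    (h : EmpM (Fin n) M (RegS (0 : ℝ) d (fun _ : Fin n => 0) (fun _ => 1))) :
    Pool.Agent.Y55.Col.Emp (n + 1) (d + 1) M := by
  obtain ⟨k, w, rfl⟩ := Pool.Agent.Y55.Col.exists_family M
  exact emp_fin h.rep

/-! ### Independence -/

/-- independence for a multiset of multiplicities -/
def SurM (σ : Type) [Fintype σ] (M : Multiset ℕ) (S : Set (ℤ × (σ → ℤ))) : Prop :=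
  ∃ (ι : Type) (_ : Fintype ι) (w : ι → ℕ), (univ : Finset ι).val.map w = M ∧ SurS w S

theorem SurM.rep {ι : Type} [Fintype ι] {w : ι → ℕ} {S : Set (ℤ × (σ → ℤ))}
    (h : SurM σ ((univ : Finset ι).val.map w) S) : SurS w S := by
  obtain ⟨ι', _, w', h1, h2⟩ := h
  obtain ⟨e, he⟩ := Pool.Agent.Y55.Col.transport w w' h1.symm
  have h3 := SurS_equiv e h2
  have h4 : (fun k => w' (e k)) = w := funext he
  rwa [h4] at h3

/-- height `h` (the multiplicities are increased by `3 n + 1`) and slope `s` -/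
def GS (σ : Type) [Fintype σ] (M : Multiset ℕ) (h s : ℝ) : Prop :=
  ∀ (L R : ℝ) (μ ν : σ → ℝ), (h - (3 * Fintype.card σ + 1)) * s < R - L →
    (∀ i, μ i + ν i = s) → SurM σ M (RegS L R μ ν)

theorem GS.of_good {ι : Type} [Fintype ι] {w : ι → ℕ} {h s : ℝ} (hs : 1 ≤ s)
    (H : ∀ W, (h - (3 * Fintype.card σ + 1)) * s < W → SAsm.Good w W (fun _ : σ => s)) :
    GS σ ((univ : Finset ι).val.map w) h s :=
  fun _ _ _ _ hW hsum => ⟨ι, inferInstance, w, rfl, good_shearedS hs (H _ hW) le_rfl hsum⟩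

theorem GS.good {ι : Type} [Fintype ι] {w : ι → ℕ} {h s : ℝ}
    (H : GS σ ((univ : Finset ι).val.map w) h s) {W : ℝ}
    (hW : (h - (3 * Fintype.card σ + 1)) * s < W) : SAsm.Good w W (fun _ : σ => s) :=
  fun L R μ ν _ _ hWW hsum => (H L R μ ν (hW.trans_le hWW) hsum).rep

theorem GS.final {k w : ℕ} (hk : 1 ≤ k) :
    GS σ (Multiset.replicate k w) (w + (3 * Fintype.card σ + 1)) k := by
  have hk1 : (1 : ℝ) ≤ k := by exact_mod_cast hk
  have h := GS.of_good (σ := σ) (w := fun _ : Fin k => w) (h := w + (3 * Fintype.card σ + 1))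
    (s := k) hk1 (by
    intro W hW
    rw [add_sub_cancel_right] at hW
    refine good_finalS ?_ ?_
    · rw [Fintype.card_fin]
    · rw [Fintype.card_fin, mul_comm]
      exact hW.le)
  rwa [Multiset.map_const', Finset.card_val, Finset.card_univ, Fintype.card_fin] at h

theorem GS.zero {h s : ℝ} (hs : 1 ≤ s) : GS σ 0 h s := by
  have h := GS.of_good (σ := σ) (w := fun _ : Fin 0 => 0) (h := h) (s := s) hs (by
    intro W hW L R μ ν hμ hν hWW hsum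
    refine ⟨∅, by simp, by simp [nc], ?_⟩
    refine ⟨ℚ, inferInstance, inferInstance, fun i => i.elim0, fun i => i.elim0,
      fun i => i.elim0, fun i => i.elim0, fun f hf _ => ?_⟩
    rw [Finset.coe_empty, Set.subset_empty_iff, Finset.coe_eq_empty] at hf
    exact Finsupp.support_eq_empty.1 hf)
  simpa using h

theorem GS.scale {M : Multiset ℕ} {h s lam : ℝ} (hlam : 2 ≤ lam) (hs : 5 / 2 ≤ s)
    (H : GS σ M h (lam ^ (Fintype.card σ + 1) * s)) : GS σ M (lam * h) s := by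
  obtain ⟨k, w, rfl⟩ := Pool.Agent.Y55.Col.exists_family M
  refine GS.of_good (by linarith) fun W hW => ?_
  obtain ⟨n, hn⟩ : ∃ n : ℕ, n = Fintype.card σ := ⟨_, rfl⟩
  rw [← hn] at hW
  have hlam0 : 0 < lam := by linarith
  have hn0 : (0 : ℝ) ≤ n := Nat.cast_nonneg n
  obtain ⟨V, hV⟩ : ∃ V : ℝ, V = lam ^ n * (W - n * (s * (1 + lam)) - 1) := ⟨_, rfl⟩
  refine goodS_mono (Run7.h526.BW.scaleS hlam hs (H.good (W := V) ?_)) ?_
  · rw [← hn, hV]
    have h1 : (h - (3 * n + 1)) * (lam ^ (n + 1) * s) =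
        lam ^ n * ((h - (3 * n + 1)) * (lam * s)) := by ring
    rw [h1]
    refine mul_lt_mul_of_pos_left ?_ (by positivity)
    have h2 : 0 ≤ (lam - 2) * (2 * n + 1) * s := by
      have : 0 ≤ lam - 2 := by linarith
      have : 0 ≤ s := by linarith
      positivity
    nlinarith
  · rw [← hn, hV]
    have : lam ^ n * (W - n * (s * (1 + lam)) - 1) / lam ^ n = W - n * (s * (1 + lam)) - 1 := by
      field_simp
    rw [this]
    linarith

theorem GS.mono_slope {M : Multiset ℕ} {h s s' : ℝ} (hs : 0 < s) (hss : s ≤ s')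
    (H : GS σ M h s) : GS σ M h s' := by
  intro L R μ ν hW hsum
  have hs' : 0 < s' := by linarith
  obtain ⟨h', hh'⟩ : ∃ h' : ℝ, h' = (R - L) / s' := ⟨_, rfl⟩
  have hh : R - L = h' * s' := by rw [hh']; field_simp
  have hlt : h - (3 * Fintype.card σ + 1) < h' := by
    rw [hh] at hW
    exact lt_of_mul_lt_mul_right hW hs'.le
  obtain ⟨ι, _, w, h1, h2⟩ := H L (L + h' * s) μ (fun i => s - μ i) (by
    rw [add_sub_cancel_left]
    exact mul_lt_mul_of_pos_right hlt hs) (fun i => by ring)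
  refine ⟨ι, inferInstance, w, h1, h2.mono ?_⟩
  rintro m ⟨k1, k2, k3⟩
  refine ⟨k1, k2, ?_⟩
  have e1 : ∑ i, (s - μ i) * (m.2 i : ℝ) =
      s * ∑ i, (m.2 i : ℝ) - ∑ i, μ i * (m.2 i : ℝ) := by
    rw [Finset.mul_sum, ← Finset.sum_sub_distrib]
    exact Finset.sum_congr rfl fun i _ => by ring
  have e3 : ∑ i, ν i * (m.2 i : ℝ) = s' * ∑ i, (m.2 i : ℝ) - ∑ i, μ i * (m.2 i : ℝ) := by
    rw [Finset.mul_sum, ← Finset.sum_sub_distrib]
    refine Finset.sum_congr rfl fun i _ => ?_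
    have := hsum i
    linear_combination (m.2 i : ℝ) * this
  rw [e1] at k3
  rw [e3]
  have h3 : s * ∑ i, (m.2 i : ℝ) ≤ s * h' := by linarith
  have h4 : ∑ i, (m.2 i : ℝ) ≤ h' := le_of_mul_le_mul_left h3 hs
  have h5 : (s' - s) * ∑ i, (m.2 i : ℝ) ≤ (s' - s) * h' :=
    mul_le_mul_of_nonneg_left h4 (by linarith)
  nlinarith

theorem GS.join {M₁ M₂ : Multiset ℕ} {h s₁ s₂ : ℝ} (hs₁ : 0 < s₁) (hs₂ : 0 < s₂)
    (H₁ : GS σ M₁ h s₁) (H₂ : GS σ M₂ h s₂) : GS σ (M₁ + M₂) h (s₁ + s₂) := by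
  intro L R μ ν hW hsum
  obtain ⟨h', hh'⟩ : ∃ h' : ℝ, h' = (R - L) / (s₁ + s₂) := ⟨_, rfl⟩
  have hh : R - L = h' * (s₁ + s₂) := by rw [hh']; field_simp
  have hlt : h - (3 * Fintype.card σ + 1) < h' := by
    rw [hh] at hW
    exact lt_of_mul_lt_mul_right hW (by linarith)
  obtain ⟨g, hg1, hg2⟩ := exists_between hlt
  obtain ⟨ε, hε⟩ : ∃ ε : ℝ, ε = (h' - g) * (s₁ + s₂) := ⟨_, rfl⟩
  have hε0 : 0 < ε := by rw [hε]; exact mul_pos (by linarith) (by linarith)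
  obtain ⟨κ, hκ⟩ : ∃ κ : ℝ, κ = L + g * s₁ := ⟨_, rfl⟩
  obtain ⟨ι₁, _, w₁, h1, E₁⟩ := H₁ L κ μ (fun i => s₁ - μ i) (by
    rw [hκ, add_sub_cancel_left]
    exact mul_lt_mul_of_pos_right hg1 hs₁) (fun i => by ring)
  obtain ⟨ι₂, _, w₂, h2, E₂⟩ := H₂ (κ + ε) R (fun i => μ i - s₁) ν (by
    have : R - (κ + ε) = g * s₂ := by rw [hκ, hε]; linarith
    rw [this]
    exact mul_lt_mul_of_pos_right hg1 hs₂) (fun i => by linarith [hsum i])
  refine ⟨ι₁ ⊕ ι₂, inferInstance, Sum.elim w₁ w₂, ?_, ?_⟩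
  · have h3 : (univ : Finset (ι₁ ⊕ ι₂)).val = (univ : Finset ι₁).val.disjSum
      (univ : Finset ι₂).val := rfl
    rw [h3, Multiset.disjSum, Multiset.map_add, Multiset.map_map, Multiset.map_map, ← h1, ← h2]
    rfl
  have e1 : ∀ m : ℤ × (σ → ℤ), ∑ i, (s₁ - μ i) * (m.2 i : ℝ) =
      s₁ * ∑ i, (m.2 i : ℝ) - ∑ i, μ i * (m.2 i : ℝ) := fun m => by
    rw [Finset.mul_sum, ← Finset.sum_sub_distrib]
    exact Finset.sum_congr rfl fun i _ => by ring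
  have e2 : ∀ m : ℤ × (σ → ℤ), ∑ i, (μ i - s₁) * (m.2 i : ℝ) =
      ∑ i, μ i * (m.2 i : ℝ) - s₁ * ∑ i, (m.2 i : ℝ) := fun m => by
    rw [Finset.mul_sum, ← Finset.sum_sub_distrib]
    exact Finset.sum_congr rfl fun i _ => by ring
  have e3 : ∀ m : ℤ × (σ → ℤ), ∑ i, ν i * (m.2 i : ℝ) =
      (s₁ + s₂) * ∑ i, (m.2 i : ℝ) - ∑ i, μ i * (m.2 i : ℝ) := fun m => by
    rw [Finset.mul_sum, ← Finset.sum_sub_distrib]
    refine Finset.sum_congr rfl fun i _ => ?_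
    have := hsum i
    linear_combination (m.2 i : ℝ) * this
  have eR : R = κ + ε + g * s₂ := by rw [hκ, hε]; linarith
  refine SurS_join (fun m hm => hm.1) (fun m hm => hm.1) ?_ ?_ κ (fun i => μ i - s₁) ?_ ?_ E₁ E₂
  · rintro m ⟨k1, k2, k3⟩
    rw [e1] at k3
    refine ⟨k1, k2, ?_⟩
    rw [e3]
    have h1 : s₁ * ∑ i, (m.2 i : ℝ) ≤ s₁ * g := by linarith
    have h2 : ∑ i, (m.2 i : ℝ) ≤ g := le_of_mul_le_mul_left h1 hs₁
    have h3 : s₂ * ∑ i, (m.2 i : ℝ) ≤ s₂ * g := mul_le_mul_of_nonneg_left h2 hs₂.le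
    nlinarith
  · rintro m ⟨k1, k2, k3⟩
    rw [e2] at k2
    rw [e3] at k3
    refine ⟨k1, ?_, ?_⟩
    · have h1 : s₂ * ∑ i, (m.2 i : ℝ) ≤ s₂ * g := by linarith
      have h2 : ∑ i, (m.2 i : ℝ) ≤ g := le_of_mul_le_mul_left h1 hs₂
      have h3 : s₁ * ∑ i, (m.2 i : ℝ) ≤ s₁ * g := mul_le_mul_of_nonneg_left h2 hs₁.le
      nlinarith
    · rw [e3]
      exact k3
  · rintro m ⟨k1, k2, k3⟩
    rw [e1] at k3
    rw [e2]
    linarith
  · rintro m ⟨k1, k2, k3⟩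
    linarith

theorem GS.top [Nonempty σ] {M : Multiset ℕ} {h ρ : ℝ} (hρ : 3 ≤ ρ)
    (H : GS σ M h (ρ ^ (Fintype.card σ + 1))) {d : ℕ} (hd : ρ * h ≤ d) :
    SurM σ M (RegS (0 : ℝ) d (fun _ : σ => 0) (fun _ => 1)) := by
  obtain ⟨k, w, rfl⟩ := Pool.Agent.Y55.Col.exists_family M
  obtain ⟨n, hn⟩ : ∃ n : ℕ, n = Fintype.card σ := ⟨_, rfl⟩
  have hn0 : (0 : ℝ) ≤ n := Nat.cast_nonneg n
  have hρ0 : 0 < ρ := by linarith
  refine ⟨Fin k, inferInstance, w, rfl, Run7.h526.BW.topS d (W := (d - n * (ρ + 1)) * ρ ^ n)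
    hρ (H.good ?_) ?_⟩
  · rw [← hn]
    have h1 : (h - (3 * n + 1)) * ρ ^ (n + 1) = ((h - (3 * n + 1)) * ρ) * ρ ^ n := by ring
    rw [h1]
    refine mul_lt_mul_of_pos_right ?_ (by positivity)
    nlinarith
  · rw [← hn]
    have : ((d : ℝ) - n * (ρ + 1)) * ρ ^ n / ρ ^ n = d - n * (ρ + 1) := by field_simp
    rw [this]
    linarith

theorem ind_of_surM {n d : ℕ} {M : Multiset ℕ}
    (h : SurM (Fin n) M (RegS (0 : ℝ) d (fun _ : Fin n => 0) (fun _ => 1))) :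
    Pool.Agent.Y55.Col.Ind n (d + 1) M := by
  obtain ⟨k, w, rfl⟩ := Pool.Agent.Y55.Col.exists_family M
  exact ind_fin h.rep

end Run7.h526.BW
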