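import Mathlib

/-!
# Elementary inequalities
-/

set_option autoImplicit false

namespace Run7.h526.BW

/-- the tangent line of `x ^ (n + 1)` -/
theorem tangent {y v : ℝ} (hy : 0 ≤ y) (hv : 0 ≤ v) (n : ℕ) :
    y ^ (n + 1) + (n + 1) * y ^ n * (v - y) ≤ v ^ (n + 1) := by
  induction n with
  | zero => simp
  | succ n ih =>
    have h1 : v * (y ^ (n + 1) + (n + 1) * y ^ n * (v - y)) ≤ v * v ^ (n + 1) :=
      mul_le_mul_of_nonneg_left ih hv
    have h2 : v * v ^ (n + 1) = v ^ (n + 1 + 1) := by ring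
    have h3 : v * (y ^ (n + 1) + (n + 1) * y ^ n * (v - y)) -
        (y ^ (n + 1 + 1) + ((n + 1 : ℕ) + 1) * y ^ (n + 1) * (v - y)) =
        (n + 1) * y ^ n * (v - y) ^ 2 := by push_cast; ring
    have h4 : 0 ≤ (n + 1) * y ^ n * (v - y) ^ 2 := by positivity
    rw [← h2]
    linarith

/-- lower bound -/
theorem pow_ge {y v a : ℝ} (hy : 0 ≤ y) (hv : 0 ≤ v) (h : y - a ≤ v) (n : ℕ) :
    y ^ (n + 1) - (n + 1) * a * y ^ n ≤ v ^ (n + 1) := by
  have h1 := tangent hy hv n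
  have h2 : 0 ≤ (n + 1) * y ^ n := by positivity
  nlinarith [mul_le_mul_of_nonneg_left (show -a ≤ v - y by linarith) h2]

/-- upper bound -/
theorem pow_le_lin {x a : ℝ} (ha : 0 ≤ a) (n : ℕ) :
    2 * (n + 1) * a ≤ x → (x + a) ^ (n + 1) ≤ x ^ (n + 1) + 2 * (n + 1) * a * x ^ n := by
  induction n with
  | zero => intro h; simp; nlinarith
  | succ n ih =>
    intro h
    push_cast at h
    have hn : (0 : ℝ) ≤ n := Nat.cast_nonneg n
    have hx : 0 ≤ x := le_trans (by positivity) h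
    have h0 : 2 * (n + 1) * a ≤ x := by nlinarith
    have h1 := ih h0
    have h2 : (x + a) ^ (n + 1 + 1) = (x + a) ^ (n + 1) * (x + a) := by ring
    rw [h2]
    refine (mul_le_mul_of_nonneg_right h1 (by linarith)).trans ?_
    push_cast
    have h3 : (x ^ (n + 1) + 2 * (n + 1) * a * x ^ n) * (x + a) =
        x ^ (n + 1 + 1) + (2 * (n + 1) + 1) * a * x ^ (n + 1) + (2 * (n + 1) * a) * (a * x ^ n) := by
      ring
    have h4 : (2 * (n + 1) * a) * (a * x ^ n) ≤ x * (a * x ^ n) :=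
      mul_le_mul_of_nonneg_right h0 (by positivity)
    have h5 : x * (a * x ^ n) = a * x ^ (n + 1) := by ring
    rw [h3]
    nlinarith

theorem num1 (n : ℕ) (hn : 1 ≤ n) : 4 * (n + 1) ≤ 8 ^ n := by
  induction n, hn using Nat.le_induction with
  | base => norm_num
  | succ k hk ih => rw [pow_succ]; omega

theorem num2 (n : ℕ) (hn : 1 ≤ n) : 16 * (n + 1) ≤ 32 ^ n := by
  induction n, hn using Nat.le_induction with
  | base => norm_num
  | succ k hk ih => rw [pow_succ]; omega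

theorem num3 (n : ℕ) : 24 ^ (n + 1) + 3 ^ (n + 1) ≤ 32 ^ (n + 1) := by
  have h : 24 ^ (n + 1) + 8 ^ (n + 1) ≤ (24 + 8) ^ (n + 1) := by
    exact pow_add_pow_le (by norm_num) (by norm_num) (by omega)
  have h2 : 3 ^ (n + 1) ≤ 8 ^ (n + 1) := Nat.pow_le_pow_left (by norm_num) _
  norm_num at h
  omega

theorem num4 (n : ℕ) : 3 ^ (n + 1) + 1 ≤ 4 ^ (n + 1) := by
  have h : 3 ^ (n + 1) < 4 ^ (n + 1) := Nat.pow_lt_pow_left (by norm_num) (by omega)
  omega

end Run7.h526.BW
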