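import Pool.Agent.Run7.h526.BW.Num

/-!
# The recursion for emptiness
-/

set_option autoImplicit false

namespace Run7.h526.BW

/-- the properties of emptiness that are used -/
structure Fam (n : ℕ) (P : ℕ → ℕ → Prop) : Prop where
  zero : ∀ r, P r 0
  mono : ∀ r r' V V', P r V → r ≤ r' → V' ≤ V → P r' V'
  many : ∀ k t V d, 3 ^ (n + 1) ≤ k → P t V → d ^ (n + 1) < k * V ^ (n + 1) → P (k * t) (d + 1)
  two : ∀ k t V s W d, P t V → P s W → 1 ≤ V → 2 * V ≤ W →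
    3 ^ (n + 1) * W ^ (n + 1) ≤ k * V ^ (n + 1) →
    d ^ (n + 1) < k * V ^ (n + 1) + W ^ (n + 1) → P (k * t + s) (d + 1)

/-- the division -/
theorem div_facts {n t r : ℕ} (ht : 1 ≤ t) {ρ : ℝ} (hρ : ρ ^ (n + 1) = r) (hρt : 32 * (t : ℝ) ≤ ρ) :
    (r / t ^ (n + 1)) * t ^ (n + 1) ≤ r ∧ r < (r / t ^ (n + 1) + 1) * t ^ (n + 1) ∧
      32 ^ (n + 1) ≤ r / t ^ (n + 1) := by
  have htp : 0 < t ^ (n + 1) := by positivity
  refine ⟨Nat.div_mul_le_self _ _, ?_, ?_⟩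
  · rw [add_mul, one_mul]
    exact Nat.lt_div_mul_add htp
  · rw [Nat.le_div_iff_mul_le htp, ← mul_pow]
    have h : ((32 * t : ℕ) : ℝ) ^ (n + 1) ≤ ρ ^ (n + 1) :=
      pow_le_pow_left₀ (by positivity) (by push_cast; exact hρt) _
    rw [hρ] at h
    exact_mod_cast h

theorem step {n : ℕ} (hn : 1 ≤ n) {P : ℕ → ℕ → Prop} (F : Fam n P) {t : ℕ} (ht : 1 ≤ t)
    {X C C' : ℝ} (hC : 2 * ((n : ℝ) + 2) ≤ C) (hX : 0 ≤ X)
    {ρ : ℝ} {r : ℕ} (hρ : ρ ^ (n + 1) = r) (hρt : 32 * (t : ℝ) ≤ ρ)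
    (base : ∀ V : ℕ, (V : ℝ) ≤ t * X - (n + 1) → P (t ^ (n + 1)) V)
    (IH : ∀ (s : ℕ) (ρ₂ : ℝ), ρ₂ ^ (n + 1) = s → 3 * (t : ℝ) ≤ ρ₂ → ρ₂ ≤ 4 * t →
      ∀ V : ℕ, (V : ℝ) ≤ ρ₂ * X - C → P s V)
    (hC' : ((n : ℝ) + 1) * (n + 2) * (ρ / t) + (C + 1) / 4 ≤ C') {V : ℕ}
    (hV : (V : ℝ) ≤ ρ * X - C') : P r V := by
  rcases V with _ | d
  · exact F.zero r
  obtain ⟨T, hT⟩ : ∃ T : ℝ, T = t := ⟨_, rfl⟩
  have hT1 : 1 ≤ T := by rw [hT]; exact_mod_cast ht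
  have hT0 : 0 < T := by linarith
  rw [← hT] at hρt base hC'
  have hρ0 : 0 < ρ := by linarith
  have hn1 : (1 : ℝ) ≤ n := by exact_mod_cast hn
  have hC0 : 0 ≤ C := by linarith
  obtain ⟨κ, hκ⟩ : ∃ κ : ℝ, κ = ρ / T := ⟨_, rfl⟩
  have hκT : ρ = κ * T := by rw [hκ]; field_simp
  have hκ0 : 0 < κ := by rw [hκ]; positivity
  rw [← hκ] at hC'
  have hC'0 : 0 ≤ C' := le_trans (by positivity) hC'
  -- the quotient
  obtain ⟨hq1, hq2, hq3⟩ := div_facts ht hρ (hT ▸ hρt)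
  obtain ⟨q, hq⟩ : ∃ q, q = r / t ^ (n + 1) := ⟨_, rfl⟩
  rw [← hq] at hq1 hq2 hq3
  have rq1 : (q : ℝ) * T ^ (n + 1) ≤ ρ ^ (n + 1) := by
    rw [hρ, hT]; exact_mod_cast hq1
  have rq2 : ρ ^ (n + 1) ≤ ((q : ℝ) + 1) * T ^ (n + 1) := by
    rw [hρ, hT]; exact_mod_cast hq2.le
  have hqκ : (q : ℝ) ≤ κ ^ (n + 1) := by
    rw [hκT, mul_pow] at rq1
    exact le_of_mul_le_mul_right rq1 (by positivity)
  -- the multiplicity of a cluster
  obtain ⟨V₁, hV₁⟩ : ∃ V₁ : ℕ, V₁ = ⌊T * X - (n + 1)⌋₊ := ⟨_, rfl⟩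
  have b1 : P (t ^ (n + 1)) V₁ := by
    rcases le_or_gt 0 (T * X - (n + 1)) with h | h
    · exact base V₁ (by rw [hV₁]; exact Nat.floor_le h)
    · have : V₁ = 0 := by rw [hV₁]; exact Nat.floor_of_nonpos h.le
      rw [this]
      exact F.zero _
  have b2 : T * X - (n + 2) ≤ V₁ := by
    have := (Nat.lt_floor_add_one (T * X - (n + 1))).le
    rw [← hV₁] at this
    linarith
  have hTX : 0 ≤ T * X := by positivity
  have hρX : 0 ≤ ρ * X := by positivity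
  have b3 := pow_ge hTX (Nat.cast_nonneg V₁) b2 n
  -- the degree
  push_cast at hV
  have d1 : (d : ℝ) ^ (n + 1) < (ρ * X) ^ (n + 1) - C' * (ρ * X) ^ n := by
    have h1 : (d : ℝ) < ρ * X - C' := by linarith
    have h0 : 0 ≤ ρ * X - C' := le_trans (Nat.cast_nonneg d) h1.le
    calc (d : ℝ) ^ (n + 1) < (ρ * X - C') ^ (n + 1) :=
          pow_lt_pow_left₀ h1 (Nat.cast_nonneg d) (Nat.succ_ne_zero n)
      _ = (ρ * X - C') ^ n * (ρ * X - C') := pow_succ _ _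
      _ ≤ (ρ * X) ^ n * (ρ * X - C') := by
          refine mul_le_mul_of_nonneg_right (pow_le_pow_left₀ h0 (by linarith) n) h0
      _ = (ρ * X) ^ (n + 1) - C' * (ρ * X) ^ n := by ring
  have hpn : 0 ≤ (ρ * X) ^ n := by positivity
  have e0 : ∀ k : ℕ, k ≤ q → (k : ℝ) * (T * X) ^ n ≤ κ * (ρ * X) ^ n := by
    intro k hk
    have h1 : (k : ℝ) ≤ κ ^ (n + 1) := le_trans (by exact_mod_cast hk) hqκ
    calc (k : ℝ) * (T * X) ^ n ≤ κ ^ (n + 1) * (T * X) ^ n :=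
          mul_le_mul_of_nonneg_right h1 (by positivity)
      _ = κ * (ρ * X) ^ n := by rw [hκT]; ring
  have h3q : 3 ^ (n + 1) ≤ q := le_trans (Nat.pow_le_pow_left (by norm_num) _) hq3
  rcases lt_or_ge (T * X) ((n + 1) * C) with hcase | hcase
  · -- only clusters
    have e1 : (T * X) ^ n * 32 ^ n ≤ (ρ * X) ^ n := by
      rw [← mul_pow]
      refine pow_le_pow_left₀ (by positivity) ?_ n
      have : 32 * T * X ≤ ρ * X := mul_le_mul_of_nonneg_right hρt hX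
      linarith
    have e2 : (T * X) ^ (n + 1) ≤ C / 16 * (ρ * X) ^ n := by
      have h1 : (16 * ((n : ℝ) + 1)) ≤ 32 ^ n := by exact_mod_cast num2 n hn
      have h2 : 0 ≤ (T * X) ^ n := by positivity
      have h3 : (T * X) ^ (n + 1) ≤ (T * X) ^ n * ((n + 1) * C) := by
        rw [pow_succ]
        exact mul_le_mul_of_nonneg_left hcase.le h2
      have h4 : (T * X) ^ n * ((n + 1) * C) ≤ (T * X) ^ n * (32 ^ n * (C / 16)) := by
        refine mul_le_mul_of_nonneg_left ?_ h2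
        nlinarith
      calc (T * X) ^ (n + 1) ≤ (T * X) ^ n * (32 ^ n * (C / 16)) := h3.trans h4
        _ = C / 16 * ((T * X) ^ n * 32 ^ n) := by ring
        _ ≤ _ := mul_le_mul_of_nonneg_left e1 (by positivity)
    have e3 : (ρ * X) ^ (n + 1) - (T * X) ^ (n + 1) ≤ q * (T * X) ^ (n + 1) := by
      have h2 : 0 ≤ X ^ (n + 1) := by positivity
      have := mul_le_mul_of_nonneg_right rq2 h2
      rw [mul_pow, mul_pow]
      linarith
    have e4 : (q : ℝ) * ((T * X) ^ (n + 1) - (n + 1) * (n + 2) * (T * X) ^ n) ≤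
        q * (V₁ : ℝ) ^ (n + 1) := mul_le_mul_of_nonneg_left b3 (Nat.cast_nonneg q)
    have e5 := e0 q le_rfl
    have e6 : (d : ℝ) ^ (n + 1) < q * (V₁ : ℝ) ^ (n + 1) := by
      refine d1.trans_le (le_trans ?_ e4)
      have h1 : ((n : ℝ) + 1) * (n + 2) * (q * (T * X) ^ n) ≤
          (n + 1) * (n + 2) * (κ * (ρ * X) ^ n) := mul_le_mul_of_nonneg_left e5 (by positivity)
      have h2 := mul_le_mul_of_nonneg_right hC' hpn
      have h3 : C / 16 * (ρ * X) ^ n ≤ (C + 1) / 4 * (ρ * X) ^ n :=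
        mul_le_mul_of_nonneg_right (by linarith) hpn
      nlinarith
    have e7 : d ^ (n + 1) < q * V₁ ^ (n + 1) := by exact_mod_cast e6
    exact F.mono _ _ _ _ (F.many q _ V₁ d h3q b1 e7) hq1 le_rfl
  · -- clusters and the rest
    obtain ⟨k, hk⟩ : ∃ k, q = k + 3 ^ (n + 1) := ⟨q - 3 ^ (n + 1), by omega⟩
    have hk24 : 24 ^ (n + 1) ≤ k := by have := num3 n; omega
    have hkq : k ≤ q := hk ▸ Nat.le_add_right _ _
    have hkr : k * t ^ (n + 1) ≤ r := le_trans (Nat.mul_le_mul_right _ hkq) hq1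
    obtain ⟨s, hs⟩ : ∃ s, r = k * t ^ (n + 1) + s := ⟨r - k * t ^ (n + 1), by omega⟩
    have hs1 : 3 ^ (n + 1) * t ^ (n + 1) ≤ s := by
      rw [hk, hs, add_mul] at hq1
      omega
    have hs2 : s ≤ 4 ^ (n + 1) * t ^ (n + 1) := by
      have h4 := Nat.mul_le_mul_right (t ^ (n + 1)) (num4 n)
      have h5 : (k + 3 ^ (n + 1) + 1) * t ^ (n + 1) =
          k * t ^ (n + 1) + (3 ^ (n + 1) + 1) * t ^ (n + 1) := by ring
      rw [hk, h5] at hq2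
      omega
    obtain ⟨ρ₂, hρ₂0, hρ₂⟩ : ∃ ρ₂ : ℝ, 0 ≤ ρ₂ ∧ ρ₂ ^ (n + 1) = s := by
      refine ⟨(s : ℝ) ^ ((1 : ℝ) / ((n + 1 : ℕ) : ℝ)), by positivity, ?_⟩
      rw [← Real.rpow_natCast, ← Real.rpow_mul (by positivity), one_div_mul_cancel (by positivity),
        Real.rpow_one]
    have hρ3 : 3 * T ≤ ρ₂ := by
      refine le_of_pow_le_pow_left₀ (Nat.succ_ne_zero n) hρ₂0 ?_
      rw [hρ₂, mul_pow, hT]
      exact_mod_cast hs1
    have hρ4 : ρ₂ ≤ 4 * T := by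
      refine le_of_pow_le_pow_left₀ (Nat.succ_ne_zero n) (by positivity) ?_
      rw [hρ₂, mul_pow, hT]
      exact_mod_cast hs2
    have hsum : (k : ℝ) * T ^ (n + 1) + ρ₂ ^ (n + 1) = ρ ^ (n + 1) := by
      rw [hρ, hρ₂, hT, hs]
      push_cast
      ring
    have hB : 2 * C ≤ T * X := by
      refine le_trans ?_ hcase
      exact mul_le_mul_of_nonneg_right (by linarith) hC0
    have hρ₂X : 3 * (T * X) ≤ ρ₂ * X := by
      rw [← mul_assoc]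
      exact mul_le_mul_of_nonneg_right hρ3 hX
    have hρ₂X' : ρ₂ * X ≤ 4 * (T * X) := by
      rw [← mul_assoc]
      exact mul_le_mul_of_nonneg_right hρ4 hX
    have hρ₂X0 : 0 ≤ ρ₂ * X := by positivity
    obtain ⟨W, hW⟩ : ∃ W : ℕ, W = ⌊ρ₂ * X - C⌋₊ := ⟨_, rfl⟩
    have hW1 : (W : ℝ) ≤ ρ₂ * X - C := by rw [hW]; exact Nat.floor_le (by linarith)
    have hW2 : ρ₂ * X - (C + 1) ≤ W := by
      have := (Nat.lt_floor_add_one (ρ₂ * X - C)).le
      rw [← hW] at this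
      linarith
    have c1 : P s W := IH s ρ₂ hρ₂ (hT ▸ hρ3) (hT ▸ hρ4) W hW1
    have hV₁2 : (V₁ : ℝ) ≤ T * X - (n + 1) := by
      rw [hV₁]
      exact Nat.floor_le (by linarith)
    have c2 : 1 ≤ V₁ := by
      have : (0 : ℝ) < V₁ := by linarith
      exact_mod_cast this
    have c3 : 2 * V₁ ≤ W := by
      have : (2 : ℝ) * V₁ ≤ W := by linarith
      exact_mod_cast this
    have c4 : 3 ^ (n + 1) * W ^ (n + 1) ≤ k * V₁ ^ (n + 1) := by
      have h1 : (3 : ℝ) * W ≤ 24 * V₁ := by linarith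
      have h2 : 3 * W ≤ 24 * V₁ := by exact_mod_cast h1
      calc 3 ^ (n + 1) * W ^ (n + 1) = (3 * W) ^ (n + 1) := (mul_pow _ _ _).symm
        _ ≤ (24 * V₁) ^ (n + 1) := Nat.pow_le_pow_left h2 _
        _ = 24 ^ (n + 1) * V₁ ^ (n + 1) := mul_pow _ _ _
        _ ≤ k * V₁ ^ (n + 1) := Nat.mul_le_mul_right _ hk24
    have c5 : (d : ℝ) ^ (n + 1) < k * (V₁ : ℝ) ^ (n + 1) + (W : ℝ) ^ (n + 1) := by
      have g1 := pow_ge hρ₂X0 (Nat.cast_nonneg W) hW2 n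
      have g2 := mul_le_mul_of_nonneg_left b3 (Nat.cast_nonneg (α := ℝ) k)
      have g3 := mul_le_mul_of_nonneg_left (e0 k hkq)
        (show (0 : ℝ) ≤ (n + 1) * (n + 2) by positivity)
      have g4 : ((n : ℝ) + 1) * (C + 1) * (ρ₂ * X) ^ n ≤ (C + 1) / 4 * (ρ * X) ^ n := by
        have h1 : (4 * ((n : ℝ) + 1)) ≤ 8 ^ n := by exact_mod_cast num1 n hn
        have h2 : (8 * (ρ₂ * X)) ^ n ≤ (ρ * X) ^ n := by
          refine pow_le_pow_left₀ (by positivity) ?_ n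
          have : 32 * T * X ≤ ρ * X := mul_le_mul_of_nonneg_right hρt hX
          linarith
        rw [mul_pow] at h2
        have h3 : 0 ≤ (ρ₂ * X) ^ n := by positivity
        calc ((n : ℝ) + 1) * (C + 1) * (ρ₂ * X) ^ n
            = (C + 1) / 4 * (4 * (n + 1)) * (ρ₂ * X) ^ n := by ring
          _ ≤ (C + 1) / 4 * 8 ^ n * (ρ₂ * X) ^ n := by
              refine mul_le_mul_of_nonneg_right (mul_le_mul_of_nonneg_left h1 (by linarith)) h3
          _ = (C + 1) / 4 * (8 ^ n * (ρ₂ * X) ^ n) := by ring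
          _ ≤ (C + 1) / 4 * (ρ * X) ^ n := mul_le_mul_of_nonneg_left h2 (by linarith)
      have g5 : (ρ * X) ^ (n + 1) = k * (T * X) ^ (n + 1) + (ρ₂ * X) ^ (n + 1) := by
        rw [mul_pow, mul_pow, mul_pow, ← hsum]
        ring
      have g6 := mul_le_mul_of_nonneg_right hC' hpn
      nlinarith
    have c6 : d ^ (n + 1) < k * V₁ ^ (n + 1) + W ^ (n + 1) := by exact_mod_cast c5
    rw [hs]
    exact F.two k _ V₁ s W d b1 c1 c2 c3 c4 c6

end Run7.h526.BW
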