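import Pool.Agent.Run7.h526.BW.RoundS

/-!
# Multiplicities each of which occurs often
-/

set_option autoImplicit false

namespace Run7.h526.BW

open Finset Pool.Agent.Y55.Col

theorem GE.rep {n v k : ℕ} {H : ℝ} (hv : 0 < v) (h2 : 2 * (v : ℝ) ≤ H)
    (hk : 5 / 2 ≤ k * ((v : ℝ) / H) ^ (n + 1)) :
    GE (Fin n) (Multiset.replicate k v) H (k * ((v : ℝ) / H) ^ (n + 1)) := by
  have hv0 : (0 : ℝ) < v := by exact_mod_cast hv
  have hH : 0 < H := by linarith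
  have hk0 : 1 ≤ k := by
    rcases Nat.eq_zero_or_pos k with h | h
    · rw [h] at hk
      norm_num at hk
    · exact h
  have h3 := GE.final (σ := Fin n) (k := k) (w := v) hk0
  have h4 : (H / v) ^ (Fintype.card (Fin n) + 1) * (k * ((v : ℝ) / H) ^ (n + 1)) = k := by
    rw [Fintype.card_fin, mul_left_comm, ← mul_pow]
    have : H / (v : ℝ) * (v / H) = 1 := by field_simp
    rw [this, one_pow, mul_one]
  have h5 := GE.scale (σ := Fin n) (M := Multiset.replicate k v) (h := v) (lam := H / v)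
    (s := k * ((v : ℝ) / H) ^ (n + 1)) (by rw [le_div_iff₀ hv0]; exact h2) hk (by rw [h4]; exact h3)
  have h6 : H / (v : ℝ) * v = H := by field_simp
  rwa [h6] at h5

theorem GS.rep {n v k : ℕ} {H : ℝ} (h2 : 2 * ((v : ℝ) + (3 * n + 1)) ≤ H)
    (hk : 5 / 2 ≤ k * (((v : ℝ) + (3 * n + 1)) / H) ^ (n + 1)) :
    GS (Fin n) (Multiset.replicate k v) H (k * (((v : ℝ) + (3 * n + 1)) / H) ^ (n + 1)) := by
  have hv0 : (0 : ℝ) < v + (3 * n + 1) := by positivity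
  have hH : 0 < H := by linarith
  have hk0 : 1 ≤ k := by
    rcases Nat.eq_zero_or_pos k with h | h
    · rw [h] at hk
      norm_num at hk
    · exact h
  have h3 := GS.final (σ := Fin n) (k := k) (w := v) hk0
  rw [Fintype.card_fin] at h3
  have h4 : (H / ((v : ℝ) + (3 * n + 1))) ^ (Fintype.card (Fin n) + 1) *
      (k * (((v : ℝ) + (3 * n + 1)) / H) ^ (n + 1)) = k := by
    rw [Fintype.card_fin, mul_left_comm, ← mul_pow]
    have : H / ((v : ℝ) + (3 * n + 1)) * (((v : ℝ) + (3 * n + 1)) / H) = 1 := by field_simp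
    rw [this, one_pow, mul_one]
  have h5 := GS.scale (σ := Fin n) (M := Multiset.replicate k v) (h := (v : ℝ) + (3 * n + 1))
    (lam := H / ((v : ℝ) + (3 * n + 1)))
    (s := k * (((v : ℝ) + (3 * n + 1)) / H) ^ (n + 1)) (by rw [le_div_iff₀ hv0]; exact h2) hk
    (by rw [h4]; exact h3)
  have h6 : H / ((v : ℝ) + (3 * n + 1)) * ((v : ℝ) + (3 * n + 1)) = H := by field_simp
  rwa [h6] at h5

theorem GE.values {n : ℕ} {H : ℝ} {c : ℕ → ℕ} {V : Finset ℕ} (hV : V.Nonempty)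
    (h0 : ∀ v ∈ V, 0 < v) (h2 : ∀ v ∈ V, 2 * (v : ℝ) ≤ H)
    (hk : ∀ v ∈ V, 5 / 2 ≤ (c v : ℝ) * ((v : ℝ) / H) ^ (n + 1)) :
    GE (Fin n) (∑ v ∈ V, Multiset.replicate (c v) v) H
      (∑ v ∈ V, (c v : ℝ) * ((v : ℝ) / H) ^ (n + 1)) := by
  induction hV using Finset.Nonempty.cons_induction with
  | singleton a =>
    rw [Finset.sum_singleton, Finset.sum_singleton]
    exact GE.rep (h0 a (by simp)) (h2 a (by simp)) (hk a (by simp))
  | cons a s ha hs ih =>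
    rw [Finset.sum_cons, Finset.sum_cons]
    have k1 := hk a (by simp)
    have k2 : ∀ v ∈ s, 5 / 2 ≤ (c v : ℝ) * ((v : ℝ) / H) ^ (n + 1) :=
      fun v hv => hk v (by simp [hv])
    have k3 : 0 < ∑ v ∈ s, (c v : ℝ) * ((v : ℝ) / H) ^ (n + 1) :=
      Finset.sum_pos (fun v hv => by have := k2 v hv; linarith) hs
    exact (GE.rep (h0 a (by simp)) (h2 a (by simp)) k1).join (by linarith) k3
      (ih (fun v hv => h0 v (by simp [hv])) (fun v hv => h2 v (by simp [hv])) k2)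

theorem GS.values {n : ℕ} {H : ℝ} {c : ℕ → ℕ} {V : Finset ℕ} (hV : V.Nonempty)
    (h2 : ∀ v ∈ V, 2 * ((v : ℝ) + (3 * n + 1)) ≤ H)
    (hk : ∀ v ∈ V, 5 / 2 ≤ (c v : ℝ) * (((v : ℝ) + (3 * n + 1)) / H) ^ (n + 1)) :
    GS (Fin n) (∑ v ∈ V, Multiset.replicate (c v) v) H
      (∑ v ∈ V, (c v : ℝ) * (((v : ℝ) + (3 * n + 1)) / H) ^ (n + 1)) := by
  induction hV using Finset.Nonempty.cons_induction with
  | singleton a =>
    rw [Finset.sum_singleton, Finset.sum_singleton]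
    exact GS.rep (h2 a (by simp)) (hk a (by simp))
  | cons a s ha hs ih =>
    rw [Finset.sum_cons, Finset.sum_cons]
    have k1 := hk a (by simp)
    have k2 : ∀ v ∈ s, 5 / 2 ≤ (c v : ℝ) * (((v : ℝ) + (3 * n + 1)) / H) ^ (n + 1) :=
      fun v hv => hk v (by simp [hv])
    have k3 : 0 < ∑ v ∈ s, (c v : ℝ) * (((v : ℝ) + (3 * n + 1)) / H) ^ (n + 1) :=
      Finset.sum_pos (fun v hv => by have := k2 v hv; linarith) hs
    exact (GS.rep (h2 a (by simp)) k1).join (by linarith) k3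
      (ih (fun v hv => h2 v (by simp [hv])) k2)

theorem sum_rep (A : Multiset ℕ) : ∑ v ∈ A.toFinset, Multiset.replicate (A.count v) v = A := by
  have h := Multiset.toFinset_sum_count_nsmul_eq A
  simp only [Multiset.nsmul_singleton] at h
  exact h

theorem sum_map (A : Multiset ℕ) (f : ℕ → ℝ) :
    ∑ v ∈ A.toFinset, (A.count v : ℝ) * f v = (A.map f).sum := by
  rw [Finset.sum_multiset_map_count]
  exact Finset.sum_congr rfl fun v _ => (nsmul_eq_mul _ _).symm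

/-- **Emptiness, if every multiplicity occurs often.** -/
theorem emp_rep {n : ℕ} (hn : 1 ≤ n) {b D : ℝ} (hb : 0 < b) {A : Multiset ℕ}
    (hA : ∀ a ∈ A, (a : ℝ) ≤ b) (hA0 : ∀ a ∈ A, 0 < a)
    (hk : ∀ a ∈ A, 5 * (2 * b) ^ (n + 1) ≤ 2 * (a : ℝ) ^ (n + 1) * A.count a)
    (hD : 6 * b ≤ D) {d : ℕ} (hd : (d : ℝ) ≤ D) (h : D ^ (n + 1) < ps (n + 1) A) :
    Emp (n + 1) (d + 1) A := by
  have : Nonempty (Fin n) := ⟨⟨0, hn⟩⟩
  have hA1 : A.toFinset.Nonempty := by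
    rw [Finset.nonempty_iff_ne_empty]
    intro h0
    have h1 : A = 0 := Multiset.toFinset_eq_empty.1 h0
    rw [h1] at h
    have : (0 : ℝ) ≤ D ^ (n + 1) := by
      have : 0 ≤ D := by linarith
      positivity
    simp [ps] at h
    linarith
  have hp : (0 : ℝ) < (2 * b) ^ (n + 1) := by positivity
  have h1 := GE.values (n := n) (H := 2 * b) (c := fun v => A.count v) hA1
    (fun v hv => hA0 v (Multiset.mem_toFinset.1 hv))
    (fun v hv => by have := hA v (Multiset.mem_toFinset.1 hv); linarith)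
    (fun v hv => by
      have := hk v (Multiset.mem_toFinset.1 hv)
      rw [div_pow, mul_div_assoc', le_div_iff₀ hp]
      linarith)
  rw [sum_rep] at h1
  have h2 : ∑ v ∈ A.toFinset, (A.count v : ℝ) * ((v : ℝ) / (2 * b)) ^ (n + 1) =
      ps (n + 1) A / (2 * b) ^ (n + 1) := by
    rw [sum_map A fun v : ℕ => ((v : ℝ) / (2 * b)) ^ (n + 1)]
    unfold ps
    rw [← Multiset.sum_map_div]
    simp only [div_pow]
  rw [h2] at h1
  obtain ⟨s, hs⟩ : ∃ s : ℝ, s = ps (n + 1) A / (2 * b) ^ (n + 1) := ⟨_, rfl⟩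
  rw [← hs] at h1
  have hs' : s * (2 * b) ^ (n + 1) = ps (n + 1) A := by rw [hs]; field_simp
  rw [← hs'] at h
  have h3 : (3 : ℝ) ^ (n + 1) < s := by
    refine lt_of_mul_lt_mul_right ?_ hp.le
    refine lt_of_le_of_lt ?_ h
    rw [← mul_pow]
    exact pow_le_pow_left₀ (by positivity) (by linarith) _
  have h3' : (0 : ℝ) < 3 ^ (n + 1) := by positivity
  obtain ⟨ρ, hρ0, hρ⟩ : ∃ ρ : ℝ, 0 ≤ ρ ∧ ρ ^ (n + 1) = s := by
    refine ⟨s ^ ((1 : ℝ) / ((n + 1 : ℕ) : ℝ)), Real.rpow_nonneg (by linarith) _, ?_⟩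
    rw [← Real.rpow_natCast, ← Real.rpow_mul (by linarith), one_div_mul_cancel (by positivity),
      Real.rpow_one]
  have hρ3 : 3 ≤ ρ := by
    refine le_of_pow_le_pow_left₀ (Nat.succ_ne_zero n) hρ0 ?_
    rw [hρ]
    exact h3.le
  have hdρ : (d : ℝ) < ρ * (2 * b) := by
    refine lt_of_pow_lt_pow_left₀ (n + 1) (by positivity) ?_
    rw [mul_pow, hρ]
    exact lt_of_le_of_lt (pow_le_pow_left₀ (Nat.cast_nonneg d) hd _) h
  exact emp_of_empM (GE.top (σ := Fin n) (ρ := ρ) hρ3 (by rw [Fintype.card_fin, hρ]; exact h1) hdρ)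

/-- **Independence, if every multiplicity occurs often.** -/
theorem ind_rep {n : ℕ} (hn : 1 ≤ n) {b : ℝ} (hb : 0 < b) {A : Multiset ℕ} (hA1 : A ≠ 0)
    (hA : ∀ a ∈ A, (a : ℝ) + (3 * n + 1) ≤ b)
    (hk : ∀ a ∈ A, 5 * (2 * b) ^ (n + 1) ≤ 2 * ((a : ℝ) + (3 * n + 1)) ^ (n + 1) * A.count a)
    {d : ℕ} (hd : 6 * b ≤ d) (h : qs n A ≤ (d : ℝ) ^ (n + 1)) : Ind n (d + 1) A := by
  have : Nonempty (Fin n) := ⟨⟨0, hn⟩⟩
  have hA1 : A.toFinset.Nonempty := by
    rw [Finset.nonempty_iff_ne_empty]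
    intro h0
    exact hA1 (Multiset.toFinset_eq_empty.1 h0)
  have hp : (0 : ℝ) < (2 * b) ^ (n + 1) := by positivity
  have hk' : ∀ v ∈ A.toFinset,
      5 / 2 ≤ (A.count v : ℝ) * (((v : ℝ) + (3 * n + 1)) / (2 * b)) ^ (n + 1) := fun v hv => by
    have := hk v (Multiset.mem_toFinset.1 hv)
    rw [div_pow, mul_div_assoc', le_div_iff₀ hp]
    linarith
  have h1 := GS.values (n := n) (H := 2 * b) (c := fun v => A.count v) hA1
    (fun v hv => by have := hA v (Multiset.mem_toFinset.1 hv); linarith) hk'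
  rw [sum_rep] at h1
  have h2 : ∑ v ∈ A.toFinset, (A.count v : ℝ) * (((v : ℝ) + (3 * n + 1)) / (2 * b)) ^ (n + 1) =
      qs n A / (2 * b) ^ (n + 1) := by
    rw [sum_map A fun v : ℕ => (((v : ℝ) + (3 * n + 1)) / (2 * b)) ^ (n + 1)]
    unfold qs
    rw [← Multiset.sum_map_div]
    simp only [div_pow]
  have h0 : 0 < ∑ v ∈ A.toFinset, (A.count v : ℝ) * (((v : ℝ) + (3 * n + 1)) / (2 * b)) ^ (n + 1) :=
    Finset.sum_pos (fun v hv => by have := hk' v hv; linarith) hA1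
  rw [h2] at h1 h0
  obtain ⟨ρ, hρ⟩ : ∃ ρ : ℝ, ρ = d / (2 * b) := ⟨_, rfl⟩
  have hρd : ρ * (2 * b) = d := by rw [hρ]; field_simp
  have hρ3 : 3 ≤ ρ := by rw [hρ, le_div_iff₀ (by linarith)]; linarith
  have h3 : qs n A / (2 * b) ^ (n + 1) ≤ ρ ^ (n + 1) := by
    rw [div_le_iff₀ hp, ← mul_pow, hρd]
    exact h
  exact ind_of_surM (GS.top (σ := Fin n) (ρ := ρ) hρ3
    (by rw [Fintype.card_fin]; exact h1.mono_slope h0 h3) hρd.le)

end Run7.h526.BW
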