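import Pool.Agent.Run7.h526.BW.Multi
import Pool.Agent.Run7.h526.BW.FamE

/-!
# Arbitrary multiplicities
-/

set_option autoImplicit false

namespace Run7.h526.BW

open Finset Pool.Agent.TH3.IR Pool.Agent.Y55.Col

/-! ### Multisets -/

theorem split (G : ℕ) : ∀ (B : Multiset ℕ) (b : ℕ), (∀ a ∈ B, a ≤ b) → G ≤ B.card →
    ∃ (T B' : Multiset ℕ) (w : ℕ), B = T + B' ∧ T.card = G ∧ (∀ a ∈ T, w ≤ a) ∧
      (∀ a ∈ B', a ≤ w) ∧ w ≤ b ∧ (0 < G → w ∈ B) := by
  induction G with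
  | zero =>
    intro B b hb _
    exact ⟨0, B, b, by simp, by simp, by simp, hb, le_rfl, fun h => absurd h (lt_irrefl _)⟩
  | succ G ih =>
    intro B b hb hG
    obtain ⟨T, B', w, h1, h2, h3, h4, h5, h6⟩ := ih B b hb (by omega)
    have hc : 0 < B'.card := by
      have := congrArg Multiset.card h1
      rw [Multiset.card_add] at this
      omega
    have hne : B' ≠ 0 := by
      rintro rfl
      simp at hc
    obtain ⟨x, hx, hmax⟩ : ∃ x ∈ B', ∀ a ∈ B', a ≤ x := by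
      obtain ⟨x, hx, hmax⟩ := B'.toFinset.exists_max_image id
        (Multiset.toFinset_nonempty.2 hne)
      exact ⟨x, Multiset.mem_toFinset.1 hx, fun a ha => hmax a (Multiset.mem_toFinset.2 ha)⟩
    refine ⟨x ::ₘ T, B'.erase x, x, ?_, ?_, ?_, ?_, ?_, ?_⟩
    · rw [h1, Multiset.cons_add, ← Multiset.add_cons, Multiset.cons_erase hx]
    · rw [Multiset.card_cons, h2]
    · intro a ha
      rcases Multiset.mem_cons.1 ha with rfl | ha
      · exact le_rfl
      · exact (h4 x hx).trans (h3 a ha)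
    · intro a ha
      exact hmax a (Multiset.mem_of_mem_erase ha)
    · exact (h4 x hx).trans h5
    · intro _
      rw [h1]
      exact Multiset.mem_add.2 (Or.inr hx)

/-- power sums -/
noncomputable def ps (N : ℕ) (M : Multiset ℕ) : ℝ := (M.map fun a : ℕ => (a : ℝ) ^ N).sum

theorem ps_add (N : ℕ) (A B : Multiset ℕ) : ps N (A + B) = ps N A + ps N B := by
  unfold ps
  rw [Multiset.map_add, Multiset.sum_add]

theorem ps_nonneg (N : ℕ) (A : Multiset ℕ) : 0 ≤ ps N A := by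
  unfold ps
  refine Multiset.sum_nonneg fun x hx => ?_
  obtain ⟨a, _, rfl⟩ := Multiset.mem_map.1 hx
  positivity

theorem ps_le (N : ℕ) {A : Multiset ℕ} {b : ℝ} (h : ∀ a ∈ A, (a : ℝ) ≤ b) :
    ps N A ≤ A.card * b ^ N := by
  unfold ps
  have h1 : ∀ x ∈ A.map (fun a : ℕ => (a : ℝ) ^ N), x ≤ b ^ N := by
    intro x hx
    obtain ⟨a, ha, rfl⟩ := Multiset.mem_map.1 hx
    exact pow_le_pow_left₀ (Nat.cast_nonneg a) (h a ha) N
  have := Multiset.sum_le_card_nsmul _ _ h1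
  rwa [Multiset.card_map, nsmul_eq_mul] at this

theorem le_ps (N : ℕ) {A : Multiset ℕ} {b : ℝ} (hb : 0 ≤ b) (h : ∀ a ∈ A, b ≤ (a : ℝ)) :
    A.card * b ^ N ≤ ps N A := by
  unfold ps
  have h1 : ∀ x ∈ A.map (fun a : ℕ => (a : ℝ) ^ N), b ^ N ≤ x := by
    intro x hx
    obtain ⟨a, ha, rfl⟩ := Multiset.mem_map.1 hx
    exact pow_le_pow_left₀ hb (h a ha) N
  have := Multiset.card_nsmul_le_sum h1
  rwa [Multiset.card_map, nsmul_eq_mul] at this

/-! ### Domination -/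

/-- domination -/
def LeE (N : ℕ) (A B : Multiset ℕ) : Prop :=
  ∀ (D : ℕ) (C : Multiset ℕ), Emp N D (A + C) → Emp N D (B + C)

theorem LeE.add {N : ℕ} {A A' B B' : Multiset ℕ} (h : LeE N A A') (h' : LeE N B B') :
    LeE N (A + B) (A' + B') := by
  intro D C hE
  rw [add_assoc] at hE
  have h1 := h D _ hE
  have e : A' + (B + C) = B + (A' + C) := by
    rw [← add_assoc, add_comm A' B, add_assoc]
  rw [e] at h1
  have h2 := h' D _ h1
  have e2 : B' + (A' + C) = A' + B' + C := by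
    rw [← add_assoc, add_comm B' A']
  rwa [e2] at h2

theorem LeE.rfl' (N : ℕ) (A : Multiset ℕ) : LeE N A A := fun _ _ h => h

theorem LeE.zero (N : ℕ) (B : Multiset ℕ) : LeE N 0 B := by
  intro D C h
  rw [zero_add] at h
  induction B using Multiset.induction_on with
  | empty => rwa [zero_add]
  | cons a B ih => rw [Multiset.cons_add]; exact ih.point a

theorem emp_pt {E w a : ℕ} (h : w ≤ a) : Emp E w {a} := by
  refine ⟨Fin 1, inferInstance, fun _ => a, fun _ _ => 0, by simp, fun F hF h' => ?_⟩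
  exact one h _ hF (h' 0)

theorem LeE.single {N w a : ℕ} (h : w ≤ a) : LeE N {w} {a} := by
  intro D C hE
  rw [Multiset.singleton_add] at hE
  exact hE.collision (emp_pt h)

theorem LeE.rep {N : ℕ} {w : ℕ} : ∀ (T : Multiset ℕ), (∀ a ∈ T, w ≤ a) →
    LeE N (Multiset.replicate T.card w) T := by
  intro T
  induction T using Multiset.induction_on with
  | empty => intro _; exact LeE.rfl' _ _
  | cons a T ih =>
    intro h
    rw [Multiset.card_cons, Multiset.replicate_succ, ← Multiset.singleton_add,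
      ← Multiset.singleton_add a T]
    exact (LeE.single (h a (Multiset.mem_cons_self a T))).add
      (ih fun b hb => h b (Multiset.mem_cons_of_mem hb))

/-- domination -/
def LeI (n : ℕ) (A B : Multiset ℕ) : Prop :=
  ∀ (D : ℕ) (C : Multiset ℕ), Ind n D (A + C) → Ind n D (B + C)

theorem LeI.add {N : ℕ} {A A' B B' : Multiset ℕ} (h : LeI N A A') (h' : LeI N B B') :
    LeI N (A + B) (A' + B') := by
  intro D C hE
  rw [add_assoc] at hE
  have h1 := h D _ hE
  have e : A' + (B + C) = B + (A' + C) := by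
    rw [← add_assoc, add_comm A' B, add_assoc]
  rw [e] at h1
  have h2 := h' D _ h1
  have e2 : B' + (A' + C) = A' + B' + C := by
    rw [← add_assoc, add_comm B' A']
  rwa [e2] at h2

theorem LeI.rfl' (N : ℕ) (A : Multiset ℕ) : LeI N A A := fun _ _ h => h

theorem LeI.zero (N : ℕ) (B : Multiset ℕ) : LeI N B 0 := by
  intro D C h
  rw [zero_add]
  induction B using Multiset.induction_on with
  | empty => rwa [zero_add] at h
  | cons a B ih =>
    rw [Multiset.cons_add] at h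
    exact ih h.remove

theorem LeI.single {N w a : ℕ} (h : a ≤ w) : LeI N {w} {a} := by
  intro D C hE
  rw [Multiset.singleton_add] at hE
  exact hE.collision (ind_one h)

theorem LeI.rep {N : ℕ} {w : ℕ} : ∀ (T : Multiset ℕ), (∀ a ∈ T, a ≤ w) →
    LeI N (Multiset.replicate T.card w) T := by
  intro T
  induction T using Multiset.induction_on with
  | empty => intro _; exact LeI.rfl' _ _
  | cons a T ih =>
    intro h
    rw [Multiset.card_cons, Multiset.replicate_succ, ← Multiset.singleton_add,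
      ← Multiset.singleton_add a T]
    exact (LeI.single (h a (Multiset.mem_cons_self a T))).add
      (ih fun b hb => h b (Multiset.mem_cons_of_mem hb))

theorem LeI.rep' {N : ℕ} {w k : ℕ} (T : Multiset ℕ) (hk : T.card ≤ k) (h : ∀ a ∈ T, a ≤ w) :
    LeI N (Multiset.replicate k w) T := by
  obtain ⟨c, rfl⟩ : ∃ c, k = T.card + c := ⟨k - T.card, by omega⟩
  rw [Multiset.replicate_add]
  have := (LeI.rep (N := N) T h).add (LeI.zero N (Multiset.replicate c w))
  rwa [add_zero] at this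

/-! ### Emptiness -/

/-- a region for a multiset which is dominated -/
def RE (n : ℕ) (M : Multiset ℕ) (h s : ℝ) : Prop :=
  ∃ M₀, LeE (n + 1) M₀ M ∧ GE (Fin n) M₀ h s

theorem RE.join {n : ℕ} {A B : Multiset ℕ} {h s₁ s₂ : ℝ} (hs₁ : 0 < s₁) (hs₂ : 0 < s₂)
    (H₁ : RE n A h s₁) (H₂ : RE n B h s₂) : RE n (A + B) h (s₁ + s₂) := by
  obtain ⟨M₁, a1, b1⟩ := H₁
  obtain ⟨M₂, a2, b2⟩ := H₂
  exact ⟨M₁ + M₂, a1.add a2, b1.join hs₁ hs₂ b2⟩

theorem RE.scale {n : ℕ} {A : Multiset ℕ} {h s lam : ℝ} (hlam : 2 ≤ lam) (hs : 5 / 2 ≤ s)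
    (H : RE n A h (lam ^ (n + 1) * s)) : RE n A (lam * h) s := by
  obtain ⟨M₁, a1, b1⟩ := H
  refine ⟨M₁, a1, GE.scale hlam hs ?_⟩
  rw [Fintype.card_fin]
  exact b1

theorem RE.more {n : ℕ} {A B : Multiset ℕ} {h s : ℝ} (H : RE n A h s) : RE n (A + B) h s := by
  obtain ⟨M₁, a1, b1⟩ := H
  refine ⟨M₁, ?_, b1⟩
  have := a1.add (LeE.zero (n + 1) B)
  rwa [add_zero] at this

theorem RE.group {n G w : ℕ} {h : ℝ} (hG : 1 ≤ G) {T : Multiset ℕ} (hT : T.card = G)
    (hw : ∀ a ∈ T, w ≤ a) (hw0 : 0 < w) (hh : 2 * (w : ℝ) ≤ h)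
    (hs : 5 / 2 ≤ G * ((w : ℝ) / h) ^ (n + 1)) :
    RE n T h (G * ((w : ℝ) / h) ^ (n + 1)) := by
  have hw1 : (0 : ℝ) < w := by exact_mod_cast hw0
  have hh0 : 0 < h := by linarith
  obtain ⟨lam, hlam⟩ : ∃ lam : ℝ, lam = h / w := ⟨_, rfl⟩
  have h2 : 2 ≤ lam := by rw [hlam, le_div_iff₀ hw1]; exact hh
  have e : lam * w = h := by rw [hlam]; field_simp
  have e2 : lam ^ (n + 1) * (G * ((w : ℝ) / h) ^ (n + 1)) = G := by
    rw [hlam, div_pow, div_pow]
    field_simp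
  rw [← e]
  rw [← e] at hs e2
  refine RE.scale h2 hs ⟨Multiset.replicate G w, ?_, ?_⟩
  · rw [← hT]
    exact LeE.rep T hw
  · rw [e2]
    exact GE.final hG

/-- the number of points of a group -/
def grp (n : ℕ) : ℕ := 10 * 4 ^ n

theorem grp_pos (n : ℕ) : 1 ≤ grp n := by
  unfold grp
  have : 1 ≤ 4 ^ n := Nat.one_le_pow _ _ (by norm_num)
  omega

theorem grp_slope {n : ℕ} {w h : ℝ} (hh : 0 < h) (hw : h / 4 ≤ w) :
    5 / 2 ≤ (grp n : ℝ) * (w / h) ^ (n + 1) := by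
  have h1 : 1 / 4 ≤ w / h := by rw [le_div_iff₀ hh]; linarith
  have h2 : (1 / 4 : ℝ) ^ (n + 1) ≤ (w / h) ^ (n + 1) := pow_le_pow_left₀ (by norm_num) h1 _
  have h3 : (grp n : ℝ) * (1 / 4 : ℝ) ^ (n + 1) = 5 / 2 := by
    unfold grp
    push_cast
    rw [one_div, inv_pow, pow_succ]
    field_simp
    norm_num
  calc (5 : ℝ) / 2 = (grp n : ℝ) * (1 / 4 : ℝ) ^ (n + 1) := h3.symm
    _ ≤ _ := mul_le_mul_of_nonneg_left h2 (Nat.cast_nonneg _)

theorem bigE {n : ℕ} {h : ℝ} (hh : 0 < h) (c : ℕ) : ∀ (B : Multiset ℕ), B.card = c →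
    ∀ b : ℕ, (∀ a ∈ B, a ≤ b) → 2 * (b : ℝ) ≤ h → (∀ a ∈ B, h / 4 < (a : ℝ)) →
    ∃ s : ℝ, (s = 0 ∨ 5 / 2 ≤ s ∧ RE n B h s) ∧
      ps (n + 1) B ≤ s * h ^ (n + 1) + grp n * (b : ℝ) ^ (n + 1) := by
  induction c using Nat.strong_induction_on with
  | _ c ih =>
    intro B hB b hb hb2 hlo
    rcases lt_or_ge B.card (grp n) with hc | hc
    · refine ⟨0, Or.inl rfl, ?_⟩
      rw [zero_mul, zero_add]
      refine (ps_le (n + 1) (b := b) fun a ha => by exact_mod_cast hb a ha).trans ?_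
      refine mul_le_mul_of_nonneg_right ?_ (by positivity)
      exact_mod_cast hc.le
    · obtain ⟨T, B', w, h1, h2, h3, h4, h5, h6⟩ := split (grp n) B b hb hc
      have hwB := h6 (grp_pos n)
      have hw : h / 4 < (w : ℝ) := hlo w hwB
      have hw0 : 0 < w := by
        have : (0 : ℝ) < w := by linarith
        exact_mod_cast this
      have hwb : (w : ℝ) ≤ b := by exact_mod_cast h5
      have hcard : B'.card < c := by
        have := congrArg Multiset.card h1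
        rw [Multiset.card_add] at this
        have := grp_pos n
        omega
      obtain ⟨s', hs', hps⟩ := ih _ hcard B' rfl w h4 (by linarith)
        (fun a ha => hlo a (by rw [h1]; exact Multiset.mem_add.2 (Or.inr ha)))
      have hsg := grp_slope (n := n) hh hw.le
      have hg := RE.group (n := n) (h := h) (grp_pos n) h2 h3 hw0 (by linarith) hsg
      have hvol : (grp n : ℝ) * ((w : ℝ) / h) ^ (n + 1) * h ^ (n + 1) = grp n * (w : ℝ) ^ (n + 1) := by
        rw [div_pow]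
        field_simp
      have hT : ps (n + 1) T ≤ grp n * (b : ℝ) ^ (n + 1) := by
        have := ps_le (n + 1) (A := T) (b := b) fun a ha => by
          exact_mod_cast hb a (by rw [h1]; exact Multiset.mem_add.2 (Or.inl ha))
        rwa [h2] at this
      rcases hs' with hs' | ⟨hs', hr⟩
      · refine ⟨grp n * ((w : ℝ) / h) ^ (n + 1), Or.inr ⟨hsg, ?_⟩, ?_⟩
        · rw [h1]
          exact hg.more
        · rw [hs', zero_mul, zero_add] at hps
          rw [h1, ps_add, hvol]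
          linarith
      · refine ⟨grp n * ((w : ℝ) / h) ^ (n + 1) + s', Or.inr ⟨by linarith, ?_⟩, ?_⟩
        · rw [h1]
          exact hg.join (by linarith) (by linarith) hr
        · rw [h1, ps_add, add_mul, hvol]
          linarith

theorem recE' {n : ℕ} (hn : 1 ≤ n) (J : ℕ) : ∀ (b : ℝ), 0 ≤ b → b < 2 ^ J →
    ∀ M : Multiset ℕ, (∀ a ∈ M, (a : ℝ) ≤ b) →
    ∃ s : ℝ, (s = 0 ∨ 5 / 2 ≤ s ∧ RE n M (2 * b) s) ∧
      ps (n + 1) M ≤ s * (2 * b) ^ (n + 1) + 5 * (4 * b) ^ (n + 1) := by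
  induction J with
  | zero =>
    intro b hb0 hb M hM
    refine ⟨0, Or.inl rfl, ?_⟩
    have h0 : ∀ a ∈ M, (a : ℝ) ≤ 0 := by
      intro a ha
      have h1 := (hM a ha).trans_lt hb
      rw [pow_zero] at h1
      have h2 : a < 1 := by exact_mod_cast h1
      have h3 : a = 0 := by omega
      rw [h3]
      simp
    have h1 := ps_le (n + 1) h0
    rw [zero_pow (by omega), mul_zero] at h1
    have h2 : 0 ≤ 5 * (4 * b) ^ (n + 1) := by positivity
    linarith
  | succ J ih =>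
    intro b hb0 hb M hM
    classical
    rcases hb0.eq_or_lt with hb00 | hbpos
    · refine ⟨0, Or.inl rfl, ?_⟩
      have h1 := ps_le (n + 1) hM
      rw [← hb00, zero_pow (by omega), mul_zero] at h1
      rw [← hb00]
      simpa using h1
    obtain ⟨Ms, hMs⟩ : ∃ Ms, Ms = M.filter fun a : ℕ => (a : ℝ) ≤ b / 2 := ⟨_, rfl⟩
    obtain ⟨Mb, hMb⟩ : ∃ Mb, Mb = M.filter fun a : ℕ => ¬ (a : ℝ) ≤ b / 2 := ⟨_, rfl⟩
    have hM' : M = Ms + Mb := by rw [hMs, hMb]; exact (Multiset.filter_add_not _ _).symm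
    have k1 : ∀ a ∈ Ms, (a : ℝ) ≤ b / 2 := fun a ha => by
      rw [hMs] at ha; exact (Multiset.mem_filter.1 ha).2
    have k2 : ∀ a ∈ Mb, b / 2 < (a : ℝ) := fun a ha => by
      rw [hMb] at ha; exact not_le.1 (Multiset.mem_filter.1 ha).2
    have k3 : ∀ a ∈ Mb, (a : ℝ) ≤ b := fun a ha => by
      rw [hMb] at ha; exact hM a (Multiset.mem_filter.1 ha).1
    obtain ⟨s₀, h0, hp0⟩ := ih (b / 2) (by linarith) (by rw [pow_succ] at hb; linarith) Ms k1
    have e2b : 2 * (b / 2) = b := by ring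
    have e4b : 4 * (b / 2) = 2 * b := by ring
    rw [e2b] at h0 hp0
    rw [e4b] at hp0
    -- the small part
    obtain ⟨s₁, hs₁, hp₁⟩ : ∃ s₁ : ℝ, (s₁ = 0 ∨ 5 / 2 ≤ s₁ ∧ RE n Ms (2 * b) s₁) ∧
        ps (n + 1) Ms ≤ s₁ * (2 * b) ^ (n + 1) + 15 / 2 * (2 * b) ^ (n + 1) := by
      rcases lt_or_ge s₀ (5 / 2 * 2 ^ (n + 1)) with hlt | hge
      · refine ⟨0, Or.inl rfl, ?_⟩
        have h1 : s₀ * b ^ (n + 1) ≤ 5 / 2 * 2 ^ (n + 1) * b ^ (n + 1) :=
          mul_le_mul_of_nonneg_right hlt.le (by positivity)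
        rw [mul_pow] at hp0 ⊢
        linarith
      · have h2 : (0 : ℝ) < 2 ^ (n + 1) := by positivity
        have hs0 : s₀ ≠ 0 := by
          intro h
          rw [h] at hge
          linarith
        obtain ⟨h3, h4⟩ := h0.resolve_left hs0
        have e : (2 : ℝ) ^ (n + 1) * (s₀ / 2 ^ (n + 1)) = s₀ := by field_simp
        have h5 : 5 / 2 ≤ s₀ / 2 ^ (n + 1) := by rw [le_div_iff₀ h2]; exact hge
        refine ⟨s₀ / 2 ^ (n + 1), Or.inr ⟨h5, ?_⟩, ?_⟩
        · refine RE.scale le_rfl h5 ?_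
          rw [e]
          exact h4
        · have e3 : s₀ / 2 ^ (n + 1) * (2 * b) ^ (n + 1) = s₀ * b ^ (n + 1) := by
            rw [mul_pow]
            field_simp
          rw [e3]
          have : 0 ≤ (2 * b) ^ (n + 1) := by positivity
          linarith
    -- the big part
    obtain ⟨s₂, hs₂, hp₂⟩ := bigE (n := n) (h := 2 * b) (by linarith) _ Mb rfl ⌊b⌋₊
      (fun a ha => Nat.le_floor (k3 a ha)) (by linarith [Nat.floor_le hb0])
      (fun a ha => by linarith [k2 a ha])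
    have hfl : ((⌊b⌋₊ : ℕ) : ℝ) ^ (n + 1) ≤ b ^ (n + 1) :=
      pow_le_pow_left₀ (Nat.cast_nonneg _) (Nat.floor_le hb0) _
    have hp₂' : ps (n + 1) Mb ≤ s₂ * (2 * b) ^ (n + 1) + 5 / 2 * (4 * b) ^ (n + 1) := by
      refine hp₂.trans ?_
      have h1 : (grp n : ℝ) * ((⌊b⌋₊ : ℕ) : ℝ) ^ (n + 1) ≤ grp n * b ^ (n + 1) :=
        mul_le_mul_of_nonneg_left hfl (Nat.cast_nonneg _)
      have h2 : (grp n : ℝ) * b ^ (n + 1) = 5 / 2 * (4 * b) ^ (n + 1) := by
        unfold grp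
        push_cast
        rw [mul_pow, pow_succ (4 : ℝ)]
        ring
      linarith
    have hfin : 15 / 2 * (2 * b) ^ (n + 1) ≤ 5 / 2 * (4 * b) ^ (n + 1) := by
      have h1 : (4 : ℝ) ≤ 2 ^ (n + 1) := by
        calc (4 : ℝ) = 2 ^ 2 := by norm_num
          _ ≤ 2 ^ (n + 1) := pow_le_pow_right₀ (by norm_num) (by omega)
      have h2 : (4 * b) ^ (n + 1) = 2 ^ (n + 1) * (2 * b) ^ (n + 1) := by
        rw [← mul_pow]
        congr 1
        ring
      have h3 : 0 ≤ (2 * b) ^ (n + 1) := by positivity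
      rw [h2]
      nlinarith
    have hps : ps (n + 1) M = ps (n + 1) Ms + ps (n + 1) Mb := by rw [hM', ps_add]
    rcases hs₁ with hs₁ | ⟨hs₁, r₁⟩
    · rcases hs₂ with hs₂ | ⟨hs₂, r₂⟩
      · refine ⟨0, Or.inl rfl, ?_⟩
        rw [hps]
        rw [hs₁] at hp₁
        rw [hs₂] at hp₂'
        linarith
      · refine ⟨s₂, Or.inr ⟨hs₂, ?_⟩, ?_⟩
        · rw [hM', add_comm]
          exact r₂.more
        · rw [hps]
          rw [hs₁] at hp₁
          linarith
    · rcases hs₂ with hs₂ | ⟨hs₂, r₂⟩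
      · refine ⟨s₁, Or.inr ⟨hs₁, ?_⟩, ?_⟩
        · rw [hM']
          exact r₁.more
        · rw [hps]
          rw [hs₂] at hp₂'
          linarith
      · refine ⟨s₁ + s₂, Or.inr ⟨by linarith, ?_⟩, ?_⟩
        · rw [hM']
          exact r₁.join (by linarith) (by linarith) r₂
        · rw [hps, add_mul]
          linarith

/-- **Emptiness for arbitrary multiplicities.** -/
theorem emp_any {n : ℕ} (hn : 1 ≤ n) {b D : ℝ} (hb : 0 < b) {M : Multiset ℕ}
    (hM : ∀ a ∈ M, (a : ℝ) ≤ b) (hD : 6 * b ≤ D) {d : ℕ} (hd : (d : ℝ) ≤ D)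
    (h : D ^ (n + 1) + 5 * (4 * b) ^ (n + 1) < ps (n + 1) M) : Emp (n + 1) (d + 1) M := by
  have : Nonempty (Fin n) := ⟨⟨0, hn⟩⟩
  obtain ⟨J, hJ⟩ := pow_unbounded_of_one_lt b (show (1 : ℝ) < 2 by norm_num)
  obtain ⟨s, hs, hp⟩ := recE' hn J b hb.le hJ M hM
  have h1 : D ^ (n + 1) < s * (2 * b) ^ (n + 1) := by linarith
  have h2 : (0 : ℝ) < (2 * b) ^ (n + 1) := by positivity
  have h3 : (3 : ℝ) ^ (n + 1) < s := by
    refine lt_of_mul_lt_mul_right ?_ h2.le
    refine lt_of_le_of_lt ?_ h1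
    rw [← mul_pow]
    exact pow_le_pow_left₀ (by positivity) (by linarith) _
  have hs0 : s ≠ 0 := by
    intro h0
    rw [h0] at h3
    have : (0 : ℝ) < 3 ^ (n + 1) := by positivity
    linarith
  obtain ⟨hs5, M₀, hle, hge⟩ := hs.resolve_left hs0
  obtain ⟨ρ, hρ0, hρ⟩ : ∃ ρ : ℝ, 0 ≤ ρ ∧ ρ ^ (n + 1) = s := by
    refine ⟨s ^ ((1 : ℝ) / ((n + 1 : ℕ) : ℝ)), by positivity, ?_⟩
    rw [← Real.rpow_natCast, ← Real.rpow_mul (by linarith), one_div_mul_cancel (by positivity),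
      Real.rpow_one]
  have hρ3 : 3 ≤ ρ := by
    refine le_of_pow_le_pow_left₀ (Nat.succ_ne_zero n) hρ0 ?_
    rw [hρ]
    exact h3.le
  have hdρ : (d : ℝ) < ρ * (2 * b) := by
    refine lt_of_pow_lt_pow_left₀ (n + 1) (by positivity) ?_
    rw [mul_pow, hρ]
    exact lt_of_le_of_lt (pow_le_pow_left₀ (Nat.cast_nonneg d) hd _) h1
  have h4 := GE.top (σ := Fin n) (ρ := ρ) hρ3 (by rw [Fintype.card_fin, hρ]; exact hge) hdρ
  have h5 := emp_of_empM h4
  have h6 := hle (d + 1) 0 (by rwa [add_zero])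
  rwa [add_zero] at h6

end Run7.h526.BW
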