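import Pool.Agent.Run7.h526.BW.Round

/-!
# Arbitrary multiplicities: independence
-/

set_option autoImplicit false

namespace Run7.h526.BW

open Finset Pool.Agent.TH3.IR Pool.Agent.Y55.Col

/-- shifted power sums -/
noncomputable def qs (n : ℕ) (M : Multiset ℕ) : ℝ :=
  (M.map fun a : ℕ => ((a : ℝ) + (3 * n + 1)) ^ (n + 1)).sum

theorem qs_add (n : ℕ) (A B : Multiset ℕ) : qs n (A + B) = qs n A + qs n B := by
  unfold qs
  rw [Multiset.map_add, Multiset.sum_add]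

theorem qs_nonneg (n : ℕ) (A : Multiset ℕ) : 0 ≤ qs n A := by
  unfold qs
  refine Multiset.sum_nonneg fun x hx => ?_
  obtain ⟨a, _, rfl⟩ := Multiset.mem_map.1 hx
  positivity

theorem le_qs (n : ℕ) {A : Multiset ℕ} {w : ℕ} (h : ∀ a ∈ A, w ≤ a) :
    A.card * ((w : ℝ) + (3 * n + 1)) ^ (n + 1) ≤ qs n A := by
  unfold qs
  have h1 : ∀ x ∈ A.map (fun a : ℕ => ((a : ℝ) + (3 * n + 1)) ^ (n + 1)),
      ((w : ℝ) + (3 * n + 1)) ^ (n + 1) ≤ x := by
    intro x hx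
    obtain ⟨a, ha, rfl⟩ := Multiset.mem_map.1 hx
    have : (w : ℝ) ≤ a := by exact_mod_cast h a ha
    exact pow_le_pow_left₀ (by positivity) (by linarith) _
  have := Multiset.card_nsmul_le_sum h1
  rwa [Multiset.card_map, nsmul_eq_mul] at this

/-- a region for a multiset which dominates -/
def RS (n : ℕ) (M : Multiset ℕ) (h s : ℝ) : Prop :=
  ∃ M₀, LeI n M₀ M ∧ GS (Fin n) M₀ h s

theorem RS.join {n : ℕ} {A B : Multiset ℕ} {h s₁ s₂ : ℝ} (hs₁ : 0 < s₁) (hs₂ : 0 < s₂)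
    (H₁ : RS n A h s₁) (H₂ : RS n B h s₂) : RS n (A + B) h (s₁ + s₂) := by
  obtain ⟨M₁, a1, b1⟩ := H₁
  obtain ⟨M₂, a2, b2⟩ := H₂
  exact ⟨M₁ + M₂, a1.add a2, b1.join hs₁ hs₂ b2⟩

theorem RS.scale {n : ℕ} {A : Multiset ℕ} {h s lam : ℝ} (hlam : 2 ≤ lam) (hs : 5 / 2 ≤ s)
    (H : RS n A h (lam ^ (n + 1) * s)) : RS n A (lam * h) s := by
  obtain ⟨M₁, a1, b1⟩ := H
  refine ⟨M₁, a1, GS.scale hlam hs ?_⟩
  rw [Fintype.card_fin]
  exact b1

theorem RS.mono_slope {n : ℕ} {A : Multiset ℕ} {h s s' : ℝ} (hs : 0 < s) (hss : s ≤ s')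
    (H : RS n A h s) : RS n A h s' := by
  obtain ⟨M₁, a1, b1⟩ := H
  exact ⟨M₁, a1, b1.mono_slope hs hss⟩

theorem RS.zero {n : ℕ} {h s : ℝ} (hs : 1 ≤ s) : RS n 0 h s :=
  ⟨0, LeI.rfl' _ _, GS.zero hs⟩

theorem RS.group {n G w : ℕ} {h : ℝ} (hG : 1 ≤ G) {T : Multiset ℕ} (hT : T.card ≤ G)
    (hw : ∀ a ∈ T, a ≤ w) (hh : 2 * ((w : ℝ) + (3 * n + 1)) ≤ h)
    (hs : 5 / 2 ≤ G * (((w : ℝ) + (3 * n + 1)) / h) ^ (n + 1)) :
    RS n T h (G * (((w : ℝ) + (3 * n + 1)) / h) ^ (n + 1)) := by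
  obtain ⟨x, hx⟩ : ∃ x : ℝ, x = (w : ℝ) + (3 * n + 1) := ⟨_, rfl⟩
  have hx1 : 0 < x := by rw [hx]; positivity
  rw [← hx] at hh hs ⊢
  have hh0 : 0 < h := by linarith
  obtain ⟨lam, hlam⟩ : ∃ lam : ℝ, lam = h / x := ⟨_, rfl⟩
  have h2 : 2 ≤ lam := by rw [hlam, le_div_iff₀ hx1]; exact hh
  have e : lam * x = h := by rw [hlam]; field_simp
  have e2 : lam ^ (n + 1) * (G * (x / h) ^ (n + 1)) = G := by
    rw [hlam, div_pow, div_pow]
    field_simp
  rw [← e]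
  rw [← e] at hs e2
  refine RS.scale h2 hs ⟨Multiset.replicate G w, LeI.rep' T hT hw, ?_⟩
  rw [e2, hx]
  have := GS.final (σ := Fin n) (k := G) (w := w) hG
  rwa [Fintype.card_fin] at this

theorem bigS {n : ℕ} {h : ℝ} (hh : 0 < h) (c : ℕ) : ∀ (B : Multiset ℕ), B.card = c →
    ∀ b : ℕ, (∀ a ∈ B, a ≤ b) → 2 * ((b : ℝ) + (3 * n + 1)) ≤ h → h / 4 ≤ (b : ℝ) + (3 * n + 1) →
    (∀ a ∈ B, h / 4 ≤ (a : ℝ) + (3 * n + 1)) →
    ∃ s : ℝ, 5 / 2 ≤ s ∧ RS n B h s ∧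
      s * h ^ (n + 1) ≤ qs n B + grp n * ((b : ℝ) + (3 * n + 1)) ^ (n + 1) := by
  induction c using Nat.strong_induction_on with
  | _ c ih =>
    intro B hB b hb hb2 hb4 hlo
    have hvol : (grp n : ℝ) * (((b : ℝ) + (3 * n + 1)) / h) ^ (n + 1) * h ^ (n + 1) =
        grp n * ((b : ℝ) + (3 * n + 1)) ^ (n + 1) := by
      rw [div_pow]
      field_simp
    have hsb := grp_slope (n := n) hh hb4
    rcases le_or_gt B.card (grp n) with hc | hc
    · exact ⟨_, hsb, RS.group (grp_pos n) hc hb hb2 hsb, by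
        rw [hvol]; linarith [qs_nonneg n B]⟩
    · obtain ⟨T, B', w, h1, h2, h3, h4, h5, h6⟩ := split (grp n) B b hb hc.le
      have hwB := h6 (grp_pos n)
      have hw : h / 4 ≤ (w : ℝ) + (3 * n + 1) := hlo w hwB
      have hwb : (w : ℝ) ≤ b := by exact_mod_cast h5
      have hcard : B'.card < c := by
        have := congrArg Multiset.card h1
        rw [Multiset.card_add] at this
        have := grp_pos n
        omega
      obtain ⟨s', hs', hr, hps⟩ := ih _ hcard B' rfl w h4 (by linarith) hw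
        (fun a ha => hlo a (by rw [h1]; exact Multiset.mem_add.2 (Or.inr ha)))
      have hT : grp n * ((w : ℝ) + (3 * n + 1)) ^ (n + 1) ≤ qs n T := by
        have := le_qs n h3
        rwa [h2] at this
      refine ⟨grp n * (((b : ℝ) + (3 * n + 1)) / h) ^ (n + 1) + s', by linarith, ?_, ?_⟩
      · rw [h1]
        refine (RS.group (grp_pos n) h2.le (fun a ha => hb a ?_) hb2 hsb).join (by linarith)
          (by linarith) hr
        rw [h1]
        exact Multiset.mem_add.2 (Or.inl ha)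
      · rw [h1, qs_add, add_mul, hvol]
        linarith

theorem recS' {n : ℕ} (hn : 1 ≤ n) (J : ℕ) : ∀ (b : ℝ), 0 < b → b < 2 ^ J →
    ∀ M : Multiset ℕ, (∀ a ∈ M, (a : ℝ) + (3 * n + 1) ≤ b) →
    ∃ s : ℝ, 5 / 2 ≤ s ∧ RS n M (2 * b) s ∧
      s * (2 * b) ^ (n + 1) ≤ qs n M + 5 * (4 * b) ^ (n + 1) := by
  induction J with
  | zero =>
    intro b hb0 hb M hM
    have h0 : M = 0 := by
      rw [Multiset.eq_zero_iff_forall_notMem]
      intro a ha
      have h1 := hM a ha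
      have h2 : (0 : ℝ) ≤ a := Nat.cast_nonneg a
      have h3 : (0 : ℝ) ≤ n := Nat.cast_nonneg n
      rw [pow_zero] at hb
      linarith
    refine ⟨5 / 2, le_rfl, ?_, ?_⟩
    · rw [h0]
      exact RS.zero (by norm_num)
    · have h1 := qs_nonneg n M
      have h2 : (2 * b) ^ (n + 1) ≤ (4 * b) ^ (n + 1) := pow_le_pow_left₀ (by linarith)
        (by linarith) _
      have h3 : 0 ≤ (4 * b) ^ (n + 1) := by positivity
      linarith
  | succ J ih =>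
    intro b hb0 hb M hM
    classical
    obtain ⟨Ms, hMs⟩ : ∃ Ms, Ms = M.filter fun a : ℕ => (a : ℝ) + (3 * n + 1) ≤ b / 2 := ⟨_, rfl⟩
    obtain ⟨Mb, hMb⟩ : ∃ Mb, Mb = M.filter fun a : ℕ => ¬ (a : ℝ) + (3 * n + 1) ≤ b / 2 :=
      ⟨_, rfl⟩
    have hM' : M = Ms + Mb := by rw [hMs, hMb]; exact (Multiset.filter_add_not _ _).symm
    have k1 : ∀ a ∈ Ms, (a : ℝ) + (3 * n + 1) ≤ b / 2 := fun a ha => by
      rw [hMs] at ha; exact (Multiset.mem_filter.1 ha).2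
    have k2 : ∀ a ∈ Mb, b / 2 < (a : ℝ) + (3 * n + 1) := fun a ha => by
      rw [hMb] at ha; exact not_le.1 (Multiset.mem_filter.1 ha).2
    have k3 : ∀ a ∈ Mb, (a : ℝ) + (3 * n + 1) ≤ b := fun a ha => by
      rw [hMb] at ha; exact hM a (Multiset.mem_filter.1 ha).1
    obtain ⟨s₀, h0, r₀, hp0⟩ := ih (b / 2) (by linarith) (by rw [pow_succ] at hb; linarith) Ms k1
    have e2b : 2 * (b / 2) = b := by ring
    have e4b : 4 * (b / 2) = 2 * b := by ring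
    rw [e2b] at r₀ hp0
    rw [e4b] at hp0
    -- the small part
    obtain ⟨s₁, hs₁, r₁, hp₁⟩ : ∃ s₁ : ℝ, 5 / 2 ≤ s₁ ∧ RS n Ms (2 * b) s₁ ∧
        s₁ * (2 * b) ^ (n + 1) ≤ qs n Ms + 15 / 2 * (2 * b) ^ (n + 1) := by
      have h2 : (0 : ℝ) < 2 ^ (n + 1) := by positivity
      have h3 : 0 ≤ (2 * b) ^ (n + 1) := by positivity
      have e3 : s₀ / 2 ^ (n + 1) * (2 * b) ^ (n + 1) = s₀ * b ^ (n + 1) := by
        rw [mul_pow]
        field_simp
      refine ⟨s₀ / 2 ^ (n + 1) + 5 / 2, ?_, ?_, ?_⟩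
      · have : 0 ≤ s₀ / 2 ^ (n + 1) := div_nonneg (by linarith) h2.le
        linarith
      · refine RS.scale le_rfl ?_ (RS.mono_slope (by linarith) ?_ r₀)
        · have : 0 ≤ s₀ / 2 ^ (n + 1) := div_nonneg (by linarith) h2.le
          linarith
        · have : (2 : ℝ) ^ (n + 1) * (s₀ / 2 ^ (n + 1) + 5 / 2) = s₀ + 2 ^ (n + 1) * (5 / 2) := by
            field_simp
          rw [this]
          linarith
      · rw [add_mul, e3]
        linarith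
    have hfin : 15 / 2 * (2 * b) ^ (n + 1) ≤ 5 / 2 * (4 * b) ^ (n + 1) := by
      have h1 : (4 : ℝ) ≤ 2 ^ (n + 1) := by
        calc (4 : ℝ) = 2 ^ 2 := by norm_num
          _ ≤ 2 ^ (n + 1) := pow_le_pow_right₀ (by norm_num) (by omega)
      have h2 : (4 * b) ^ (n + 1) = 2 ^ (n + 1) * (2 * b) ^ (n + 1) := by
        rw [← mul_pow]
        congr 1
        ring
      have h3 : 0 ≤ (2 * b) ^ (n + 1) := by positivity
      rw [h2]
      nlinarith
    have h4b : 0 ≤ (4 * b) ^ (n + 1) := by positivity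
    rcases Multiset.empty_or_exists_mem Mb with hMb0 | ⟨a0, ha0⟩
    · refine ⟨s₁, hs₁, ?_, ?_⟩
      · rw [hM', hMb0, add_zero]
        exact r₁
      · rw [hM', hMb0, add_zero]
        linarith
    -- the big part
    have hbe : (a0 : ℝ) ≤ b - (3 * n + 1) := by linarith [k3 a0 ha0]
    have hbe0 : 0 ≤ b - (3 * n + 1) := le_trans (Nat.cast_nonneg a0) hbe
    obtain ⟨w, hw⟩ : ∃ w : ℕ, w = ⌊b - (3 * n + 1)⌋₊ := ⟨_, rfl⟩
    have hw1 : (w : ℝ) + (3 * n + 1) ≤ b := by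
      have := Nat.floor_le hbe0
      rw [← hw] at this
      linarith
    have hw2 : ∀ a ∈ Mb, a ≤ w := fun a ha => by
      rw [hw]
      exact Nat.le_floor (by linarith [k3 a ha])
    have hw3 : 2 * b / 4 ≤ (w : ℝ) + (3 * n + 1) := by
      have h1 := k2 a0 ha0
      have h2 : (a0 : ℝ) ≤ w := by exact_mod_cast hw2 a0 ha0
      linarith
    obtain ⟨s₂, hs₂, r₂, hp₂⟩ := bigS (n := n) (h := 2 * b) (by linarith) _ Mb rfl w hw2
      (by linarith) hw3 (fun a ha => by linarith [k2 a ha])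
    have hp₂' : s₂ * (2 * b) ^ (n + 1) ≤ qs n Mb + 5 / 2 * (4 * b) ^ (n + 1) := by
      refine hp₂.trans ?_
      have h0 : ((w : ℝ) + (3 * n + 1)) ^ (n + 1) ≤ b ^ (n + 1) :=
        pow_le_pow_left₀ (by positivity) hw1 _
      have h1 : (grp n : ℝ) * ((w : ℝ) + (3 * n + 1)) ^ (n + 1) ≤ grp n * b ^ (n + 1) :=
        mul_le_mul_of_nonneg_left h0 (Nat.cast_nonneg _)
      have h2 : (grp n : ℝ) * b ^ (n + 1) = 5 / 2 * (4 * b) ^ (n + 1) := by
        unfold grp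
        push_cast
        rw [mul_pow, pow_succ (4 : ℝ)]
        ring
      linarith
    refine ⟨s₁ + s₂, by linarith, ?_, ?_⟩
    · rw [hM']
      exact r₁.join (by linarith) (by linarith) r₂
    · rw [hM', qs_add, add_mul]
      linarith

/-- **Independence for arbitrary multiplicities.** -/
theorem ind_any {n : ℕ} (hn : 1 ≤ n) {b : ℝ} (hb : 0 < b) {M : Multiset ℕ}
    (hM : ∀ a ∈ M, (a : ℝ) + (3 * n + 1) ≤ b) {d : ℕ} (hd : 6 * b ≤ d)
    (h : qs n M + 5 * (4 * b) ^ (n + 1) ≤ (d : ℝ) ^ (n + 1)) : Ind n (d + 1) M := by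
  have : Nonempty (Fin n) := ⟨⟨0, hn⟩⟩
  obtain ⟨J, hJ⟩ := pow_unbounded_of_one_lt b (show (1 : ℝ) < 2 by norm_num)
  obtain ⟨s, hs, hr, hp⟩ := recS' hn J b hb hJ M hM
  obtain ⟨ρ, hρ⟩ : ∃ ρ : ℝ, ρ = d / (2 * b) := ⟨_, rfl⟩
  have hρd : ρ * (2 * b) = d := by rw [hρ]; field_simp
  have hρ3 : 3 ≤ ρ := by rw [hρ, le_div_iff₀ (by linarith)]; linarith
  have h2 : (0 : ℝ) < (2 * b) ^ (n + 1) := by positivity
  have h3 : s ≤ ρ ^ (n + 1) := by
    refine le_of_mul_le_mul_right ?_ h2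
    rw [← mul_pow, hρd]
    linarith
  obtain ⟨M₀, hle, hge⟩ := RS.mono_slope (by linarith) h3 hr
  have h4 := GS.top (σ := Fin n) (ρ := ρ) hρ3 (by rw [Fintype.card_fin]; exact hge) hρd.le
  have h5 := ind_of_surM h4
  have h6 := hle (d + 1) 0 (by rwa [add_zero])
  rwa [add_zero] at h6

end Run7.h526.BW
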